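import Mathlib
import Pool.Agent.N781.A.Defs

/-! Definitions for the structure theorem. -/

namespace Pool.Agent.N781.S

open Finset Pool.Agent.N675 Pool.Agent.N781.A

/-- The cell of `d`: one of `M` intervals and a residue class modulo `M`. -/
def ky (M D : ℕ) (d : ℤ) : ℤ × ℤ := ((d - 1) * M / D, d % M)

/-- The average of `c` over the cell of `d` in `[1, D]` (zero outside `[1, D]`). -/
noncomputable def St (M D : ℕ) (c : ℤ → ℂ) (d : ℤ) : ℂ :=
  if 1 ≤ d ∧ d ≤ D then
    (∑ e ∈ (Icc (1 : ℤ) D).filter (fun e => ky M D e = ky M D d), c e) /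
      ((Icc (1 : ℤ) D).filter (fun e => ky M D e = ky M D d)).card
  else 0

/-- Half the difference of `c` and its average over the cells (zero outside `[1, D]`). -/
noncomputable def wf (M D : ℕ) (c : ℤ → ℂ) (d : ℤ) : ℂ :=
  if 1 ≤ d ∧ d ≤ D then (c d - St M D c d) / 2 else 0

end Pool.Agent.N781.S
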