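import Mathlib
import Pool.Agent.N781.S.Defs
import Pool.Agent.N781.FV.MinorG

/-! Statements of the steps of the structure theorem. -/

namespace Pool.Agent.N781.S

open Finset Pool.Agent.N675 Pool.Agent.N781.A Pool.Agent.N781.FV

open Classical in
/-- the dilation principle for the short exponential sums of the cubes of an arbitrary function -/
def S_DILSSW : Prop :=
  ∀ (Z I : Type) [Fintype Z] [DecidableEq Z] [Fintype I] [DecidableEq I]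
    (φ : I → Z → ℤ) (σ : I → Bool) (s : ℕ), 0 < s → ∀ ε : ℝ, 0 < ε → ∃ C : ℝ,
    ∀ P : Finset ℕ, (∀ p ∈ P, p.Prime) → ∃ K₀ : ℕ, ∀ D K H : ℕ, K₀ ≤ D → K₀ ≤ K → K₀ ≤ H →
      ∀ w : ℤ → ℂ, (∀ m, ‖w m‖ ≤ 1) →
        ∑ p ∈ P, (1 / (p : ℝ)) * ER (fun _ : Z => H / p) (fun l =>
          if ∃ θ : ℝ, SS (D / p) s (K / p)
              (cub φ σ (fun m => w ((p : ℤ) * m)) s l) ((p : ℝ) * θ) + ε
            < SS D s K (cub φ σ w ((s : ℤ) * p) l) θ then (1 : ℝ) else 0)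
          ≤ C + ε * ∑ p ∈ P, 1 / (p : ℝ)

/-- the dilation principle for one nonnegative function -/
def S_DIL1 : Prop :=
  ∀ ε : ℝ, 0 < ε → ∃ C : ℝ, ∀ P : Finset ℕ, (∀ p ∈ P, p.Prime) → ∃ K₀ : ℕ, ∀ D : ℕ, K₀ ≤ D →
    ∀ f : ℤ → ℝ, (∀ m, 0 ≤ f m ∧ f m ≤ 1) →
      ∑ p ∈ P, (1 / (p : ℝ)) * |avr (D / p) (fun d => f ((p : ℤ) * d)) - avr D f|
        ≤ C + ε * ∑ p ∈ P, 1 / (p : ℝ)

/-- the correlations at the multiples of `p`: restriction of the inner variable -/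
def S_DIL2 : Prop :=
  ∀ (ι : Type) [Fintype ι] [DecidableEq ι] (a b : ι → ℤ), (∀ i, a i ≠ 0) →
    ∀ ε : ℝ, 0 < ε → ∃ C : ℝ, ∀ P : Finset ℕ, (∀ p ∈ P, p.Prime) → ∃ K₀ : ℕ,
      ∀ D x : ℕ, K₀ ≤ D → K₀ ≤ x → ∀ F : ι → ℤ → ℂ, (∀ i m, ‖F i m‖ ≤ 1) →
        ∑ p ∈ P, (1 / (p : ℝ)) * avr (D / p) (fun d =>
          ‖cc a b F x ((p : ℤ) * d) - cc a b (fun i m => F i ((p : ℤ) * m)) (x / p) d‖ ^ 2)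
          ≤ C + ε * ∑ p ∈ P, 1 / (p : ℝ)

/-- the functions `wf M D c (q ·)` lie in a finite family -/
def S_FAM : Prop :=
  ∀ (ι : Type) [Fintype ι] [DecidableEq ι] (a b : ι → ℤ), (∀ i, a i ≠ 0) →
    ∀ (M : ℕ) (τ : ℝ), 0 < M → 0 < τ → ∃ κ : ℝ, 0 < κ ∧ κ ≤ 1 / 2 ∧ ∃ N P0 : ℕ,
    ∀ P : ℕ, P0 ≤ P → ∃ K₀ : ℕ, ∀ D x : ℕ, K₀ ≤ D → K₀ ≤ x →
    ∀ (F : ι → ℤ → ℂ) (g : ι → ℕ → ℂ) (P00 T : ℕ), MultAt F g P00 T →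
      ∃ 𝓕 : Fin N → ℤ → ℂ, (∀ n m, ‖𝓕 n m‖ ≤ 1) ∧
        ∀ q : ℕ, q.Prime → P ≤ q → (q : ℝ) ≤ (1 + κ) * (P + 1) → P00 ≤ q → q ≤ T →
          avr (D / q) (fun d =>
            ‖cc a b F x ((q : ℤ) * d) - cc a b (fun i m => F i ((q : ℤ) * m)) (x / q) d‖ ^ 2) ≤ τ →
          ∃ n : Fin N, avr (D / P) (fun d => ‖wf M D (cc a b F x) ((q : ℤ) * d) - 𝓕 n d‖ ^ 2)
            ≤ 4 * τ

/-- conditional expectations -/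
def S_CE : Prop :=
  ∀ (M D : ℕ) (c : ℤ → ℂ), 0 < M → 0 < D → (∀ m, ‖c m‖ ≤ 1) →
    (∀ d, ‖St M D c d‖ ≤ 1) ∧ (∀ d, ‖wf M D c d‖ ≤ 1) ∧
    (∀ φ : ℤ × ℤ → ℂ, ∑ d ∈ Icc (1 : ℤ) D, (c d - St M D c d) * φ (ky M D d) = 0) ∧
    ((av D fun d => (starRingEnd ℂ) (wf M D c d) * c d)
      = ((avr D (fun d => ‖c d - St M D c d‖ ^ 2) / 2 : ℝ) : ℂ)) ∧
    (∀ M' : ℕ, 0 < M' → M ∣ M' →
      avr D (fun d => ‖wf M' D c d - wf M D c d‖ ^ 2)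
        = (avr D (fun d => ‖St M' D c d‖ ^ 2) - avr D (fun d => ‖St M D c d‖ ^ 2)) / 4 ∧
      avr D (fun d => ‖c d - St M' D c d‖ ^ 2) ≤ avr D (fun d => ‖c d - St M D c d‖ ^ 2))

/-- large Fourier coefficients of the cell averages -/
def S_STMAJ : Prop :=
  ∀ (M : ℕ) (δ : ℝ), 0 < M → 0 < δ → ∃ Q : ℕ, ∀ (D D' : ℕ) (θ : ℝ) (c : ℤ → ℂ),
    (∀ m, ‖c m‖ ≤ 1) → 0 < D → D' ≤ D → δ * D ≤ D' →
    δ ≤ ‖av D' fun d => St M D c d * eR (d * θ)‖ →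
    ∃ q : ℕ, 1 ≤ q ∧ q ≤ Q ∧ ∃ j : ℤ, |(q : ℝ) * θ - j| ≤ (Q : ℝ) / D

/-- the differences have small Fourier coefficients in the major arcs -/
def S_WSMALL : Prop :=
  ∀ (Q : ℕ) (δ : ℝ), 0 < δ → ∃ i₀ : ℕ, ∀ M : ℕ, 0 < M → i₀.factorial ∣ M →
    ∀ (D D' : ℕ) (θ : ℝ) (c : ℤ → ℂ), (∀ m, ‖c m‖ ≤ 1) → 0 < D → D' ≤ D → δ * D ≤ D' →
    (∃ q : ℕ, 1 ≤ q ∧ q ≤ Q ∧ ∃ j : ℤ, |(q : ℝ) * θ - j| ≤ (Q : ℝ) / D) →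
    ‖av D' fun d => wf M D c d * eR (d * θ)‖ < δ

end Pool.Agent.N781.S
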