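import Mathlib
import Pool.Agent.N781.A.Step
import Pool.Agent.N344.A.DilSS
import Pool.Agent.N821.A.Mult

/-! Comparison of the short exponential sums of close functions and at close scales. -/

namespace Pool.Agent.N781.S

open Finset Pool.Agent.N675 Pool.Agent.N781.A

lemma avr_shift_int (D : ℕ) (hD : 0 < D) (f : ℤ → ℝ) (hf : ∀ n, 0 ≤ f n ∧ f n ≤ 1) (h : ℤ) :
    avr D (fun d => f (d + h)) ≤ avr D f + |(h : ℝ)| / D := by
  have hD' : (0 : ℝ) < D := by exact_mod_cast hD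
  rcases le_total 0 h with h0 | h0
  · obtain ⟨m, rfl⟩ := Int.eq_ofNat_of_zero_le h0
    have h1 := N776.A.shift_real D f hf m
    unfold avr
    rw [← add_div]
    refine div_le_div_of_nonneg_right ?_ hD'.le
    have h2 : |(((m : ℕ) : ℤ) : ℝ)| = m := by simp
    rw [h2]
    exact h1
  · obtain ⟨m, hm⟩ := Int.eq_ofNat_of_zero_le (neg_nonneg.mpr h0)
    have h1 := N344.A.avr_shift_le D m hD f (fun n => (hf n).1) (fun n => (hf n).2)
    have h2 : h = -(m : ℤ) := by linarith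
    subst h2
    have h3 : |((-(m : ℤ) : ℤ) : ℝ)| = m := by simp
    rw [h3]
    exact h1

lemma cub_sub_le {I Z : Type} [Fintype I] [Fintype Z] (φ : I → Z → ℤ) (σ : I → Bool)
    (w w' : ℤ → ℂ) (hw : ∀ m, ‖w m‖ ≤ 1) (hw' : ∀ m, ‖w' m‖ ≤ 1) (t : ℤ) (l : Z → ℤ) (d : ℤ) :
    ‖cub φ σ w t l d - cub φ σ w' t l d‖ ≤ ∑ i, ‖w (d + t * LL φ i l) - w' (d + t * LL φ i l)‖ := by
  unfold cub
  refine (FV.prod_sub_le _ _ _ (fun i => by rw [cj_norm]; exact hw _)
    (fun i => by rw [cj_norm]; exact hw' _)).trans (le_of_eq ?_)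
  refine Finset.sum_congr rfl fun i _ => ?_
  rw [N821.A.cj_sub, cj_norm]

lemma avr_mul_left (D : ℕ) (C : ℝ) (f : ℤ → ℝ) : avr D (fun d => C * f d) = C * avr D f := by
  unfold avr
  rw [← Finset.mul_sum, mul_div_assoc]

lemma SS_sub_le (D s K : ℕ) (Φ Φ' : ℤ → ℂ) (hΦ : ∀ m, ‖Φ m‖ ≤ 1) (hΦ' : ∀ m, ‖Φ' m‖ ≤ 1) (θ : ℝ) :
    SS D s K Φ θ ≤ SS D s K Φ' θ
      + 2 * avr D (fun d => avr K (fun k => ‖Φ (d + s * k) - Φ' (d + s * k)‖)) := by
  have h1 : SS D s K Φ θ ≤ avr D (fun d => ‖av K fun k => Φ' (d + s * k) * eR (k * θ)‖ ^ 2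
      + 2 * avr K (fun k => ‖Φ (d + s * k) - Φ' (d + s * k)‖)) := by
    refine avr_le D _ _ fun d _ _ => ?_
    set u := av K fun k => Φ (d + s * k) * eR (k * θ)
    set v := av K fun k => Φ' (d + s * k) * eR (k * θ)
    have hu : ‖u‖ ≤ 1 := av_norm_le K _ 1 zero_le_one fun k _ _ => by
        rw [norm_mul, norm_eR, mul_one]
        exact hΦ _
    have hv : ‖v‖ ≤ 1 := av_norm_le K _ 1 zero_le_one fun k _ _ => by
        rw [norm_mul, norm_eR, mul_one]
        exact hΦ' _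
    have huv : ‖u - v‖ ≤ avr K (fun k => ‖Φ (d + s * k) - Φ' (d + s * k)‖) := by
      have e : u - v = av K (fun k => (Φ (d + s * k) - Φ' (d + s * k)) * eR (k * θ)) := by
        rw [N344.A.av_sub]
        congr 1
        funext k
        ring
      rw [e]
      refine (N344.A.norm_av_le _ _).trans (le_of_eq ?_)
      congr 1
      funext k
      rw [norm_mul, norm_eR, mul_one]
    exact N821.A.sq_le_sq_add hu hv huv
  refine h1.trans (le_of_eq ?_)
  rw [avr_add]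
  congr 1
  exact avr_mul_left D 2 (fun d => avr K (fun k => ‖Φ (d + s * k) - Φ' (d + s * k)‖))

/-- close functions -/
lemma SS_close {I Z : Type} [Fintype I] [Fintype Z] (φ : I → Z → ℤ) (σ : I → Bool) (D s K : ℕ)
    (w w' : ℤ → ℂ) (hw : ∀ m, ‖w m‖ ≤ 1) (hw' : ∀ m, ‖w' m‖ ≤ 1) (l : Z → ℤ) (θ τ B : ℝ)
    (hD : 0 < D) (hτ : 0 ≤ τ) (h : avr D (fun d => ‖w d - w' d‖ ^ 2) ≤ τ ^ 2)
    (hB : ∀ i, |((LL φ i l : ℤ) : ℝ)| ≤ B) :
    SS D s K (cub φ σ w s l) θ ≤ SS D s K (cub φ σ w' s l) θ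
      + 2 * (Fintype.card I * (τ + 2 * (s * (K + B) / D))) := by
  have hD' : (0 : ℝ) < D := by exact_mod_cast hD
  refine (SS_sub_le D s K (cub φ σ w s l) (cub φ σ w' s l) (cub_norm φ σ w hw _ l)
    (cub_norm φ σ w' hw' _ l) θ).trans ?_
  have hbound : ∀ k : ℤ, 1 ≤ k → k ≤ K → ∀ i, avr D (fun d =>
      ‖w (d + s * k + s * LL φ i l) - w' (d + s * k + s * LL φ i l)‖)
        ≤ τ + 2 * (s * (K + B) / D) := by
    intro k hk1 hk2 i
    have h1 := avr_shift_int D hD (fun m => ‖w m - w' m‖ / 2) (fun m => ⟨by positivity, by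
      have := norm_sub_le (w m) (w' m)
      have h2 := hw m
      have h3 := hw' m
      linarith⟩) (s * k + s * LL φ i l)
    have h2 : avr D (fun d => ‖w d - w' d‖) ≤ τ := by
      have h3 := N344.A.sq_avr_le D (fun d => ‖w d - w' d‖)
      exact abs_le_of_sq_le_sq' (h3.trans h) hτ |>.2
    have h3 : |((s * k + s * LL φ i l : ℤ) : ℝ)| ≤ s * (K + B) := by
      push_cast
      have h4 : (0 : ℝ) ≤ k := by exact_mod_cast (by omega : (0 : ℤ) ≤ k)
      have h5 : (k : ℝ) ≤ K := by exact_mod_cast hk2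
      calc |(s : ℝ) * k + s * (LL φ i l : ℤ)| = s * |(k : ℝ) + (LL φ i l : ℤ)| := by
            rw [← mul_add, abs_mul, abs_of_nonneg (Nat.cast_nonneg s)]
        _ ≤ s * (|(k : ℝ)| + |((LL φ i l : ℤ) : ℝ)|) := by gcongr; exact abs_add_le _ _
        _ ≤ s * (K + B) := by
            rw [abs_of_nonneg h4]
            gcongr
            exact hB i
    have h4 : avr D (fun d => ‖w d - w' d‖ / 2) = avr D (fun d => ‖w d - w' d‖) / 2 := by
      unfold avr
      rw [← Finset.sum_div]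
      ring
    have h5 : avr D (fun d => ‖w (d + (s * k + s * LL φ i l)) - w' (d + (s * k + s * LL φ i l))‖ / 2)
        = avr D (fun d => ‖w (d + s * k + s * LL φ i l) - w' (d + s * k + s * LL φ i l)‖) / 2 := by
      unfold avr
      rw [← Finset.sum_div]
      simp only [add_assoc]
      ring
    rw [h4, h5] at h1
    have h6 : |((s * k + s * LL φ i l : ℤ) : ℝ)| / D ≤ s * (K + B) / D := by gcongr
    linarith
  have hKB : 0 ≤ τ + 2 * (s * (K + B) / D) ∨ Fintype.card I = 0 := by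
    rcases isEmpty_or_nonempty I with h0 | ⟨⟨i⟩⟩
    · right
      exact Fintype.card_eq_zero
    · left
      have : 0 ≤ B := (abs_nonneg _).trans (hB i)
      positivity
  have hmain : avr D (fun d => avr K (fun k => ‖cub φ σ w s l (d + s * k)
      - cub φ σ w' s l (d + s * k)‖)) ≤ Fintype.card I * (τ + 2 * (s * (K + B) / D)) := by
    have h1 : avr D (fun d => avr K (fun k => ‖cub φ σ w s l (d + s * k)
      - cub φ σ w' s l (d + s * k)‖)) ≤ avr D (fun d => avr K (fun k =>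
        ∑ i, ‖w (d + s * k + s * LL φ i l) - w' (d + s * k + s * LL φ i l)‖)) :=
      avr_le D _ _ fun d _ _ => avr_le K _ _ fun k _ _ => cub_sub_le φ σ w w' hw hw' s l _
    refine h1.trans ?_
    rw [N776.A.avr_comm]
    rcases hKB with hKB | h0
    · have h2 : avr K (fun k => avr D (fun d =>
        ∑ i, ‖w (d + s * k + s * LL φ i l) - w' (d + s * k + s * LL φ i l)‖))
          ≤ avr K (fun _ => Fintype.card I * (τ + 2 * (s * (K + B) / D))) := by
        refine avr_le K _ _ fun k hk1 hk2 => ?_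
        have h3 : avr D (fun d =>
          ∑ i, ‖w (d + s * k + s * LL φ i l) - w' (d + s * k + s * LL φ i l)‖)
            = ∑ i, avr D (fun d =>
              ‖w (d + s * k + s * LL φ i l) - w' (d + s * k + s * LL φ i l)‖) := by
          unfold avr
          rw [Finset.sum_comm, Finset.sum_div]
        rw [h3]
        calc _ ≤ ∑ _i : I, (τ + 2 * (s * (K + B) / D)) :=
              Finset.sum_le_sum fun i _ => hbound k hk1 hk2 i
          _ = _ := by rw [Finset.sum_const, Finset.card_univ, nsmul_eq_mul]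
      exact h2.trans (avr_const_le _ _ (by positivity))
    · have hI : IsEmpty I := Fintype.card_eq_zero_iff.mp h0
      simp only [Finset.univ_eq_empty, Finset.sum_empty, h0, Nat.cast_zero, zero_mul]
      refine (avr_const_le _ _ (avr_nonneg _ _ fun _ _ _ => le_refl 0)).trans ?_
      exact avr_const_le _ _ (le_refl 0)
  linarith

/-- close scales -/
lemma SS_scale {κ : ℝ} (hκ : 0 < κ) (hκ1 : κ ≤ 1 / 6) {P q : ℕ} (hP : 1 / κ ≤ P) (hPq : P ≤ q)
    (hq : (q : ℝ) ≤ (1 + κ) * (P + 1)) {D K : ℕ} (hD : 4 * P * (1 / κ + 1) ≤ D)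
    (hK : 4 * P * (1 / κ + 1) ≤ K) (s : ℕ) (Φ : ℤ → ℂ) (hΦ : ∀ m, ‖Φ m‖ ≤ 1) (θ : ℝ) :
    SS (D / q) s (K / q) Φ θ ≤ 2 * (SS (D / P) s (K / P) Φ θ + 12 * κ) := by
  obtain ⟨hD1, hD2, hD3, _⟩ := N821.A.ratio hκ hκ1 hP hPq hq hD
  obtain ⟨hK1, hK2, hK3, _⟩ := N821.A.ratio hκ hκ1 hP hPq hq hK
  have hX : (0 : ℝ) < ((D / q : ℕ) : ℝ) := by exact_mod_cast hD1
  have hY : (0 : ℝ) < ((D / P : ℕ) : ℝ) := by exact_mod_cast (lt_of_lt_of_le hD1 hD2)
  have h1 : SS (D / q) s (K / q) Φ θ ≤ 2 * SS (D / P) s (K / q) Φ θ := by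
    unfold SS avr
    rw [div_le_iff₀ hX]
    have h2 : (∑ n ∈ Icc (1 : ℤ) ((D / q : ℕ) : ℤ), ‖av (K / q) fun k => Φ (n + s * k) * eR (k * θ)‖ ^ 2)
        ≤ ∑ n ∈ Icc (1 : ℤ) ((D / P : ℕ) : ℤ), ‖av (K / q) fun k => Φ (n + s * k) * eR (k * θ)‖ ^ 2 := by
      refine Finset.sum_le_sum_of_subset_of_nonneg ?_ fun _ _ _ => by positivity
      exact Finset.Icc_subset_Icc_right (by exact_mod_cast hD2)
    set S := ∑ n ∈ Icc (1 : ℤ) ((D / P : ℕ) : ℤ), ‖av (K / q) fun k => Φ (n + s * k) * eR (k * θ)‖ ^ 2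
    have hS : 0 ≤ S := Finset.sum_nonneg fun _ _ => by positivity
    have h3 : (1 : ℝ) / 2 ≤ ((D / q : ℕ) : ℝ) / ((D / P : ℕ) : ℝ) := by linarith
    calc _ ≤ S := h2
      _ ≤ S * (2 * (((D / q : ℕ) : ℝ) / ((D / P : ℕ) : ℝ))) := le_mul_of_one_le_right hS (by linarith)
      _ = _ := by ring
  have h2 : SS (D / P) s (K / q) Φ θ ≤ SS (D / P) s (K / P) Φ θ + 12 * κ := by
    refine avr_le_add (D / P) _ _ _ (by positivity) fun d _ _ => ?_
    set f : ℤ → ℂ := fun k => Φ (d + s * k) * eR (k * θ)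
    have hf : ∀ k, ‖f k‖ ≤ 1 := fun k => by
      simp only [f]
      rw [norm_mul, norm_eR, mul_one]
      exact hΦ _
    have h3 := N821.A.av_compare hK1 hK2 hf
    have h4 : ‖av (K / q) f - av (K / P) f‖ ≤ 6 * κ := h3.trans (by linarith)
    have hu : ‖av (K / q) f‖ ≤ 1 := av_norm_le _ _ 1 zero_le_one fun k _ _ => hf k
    have hv : ‖av (K / P) f‖ ≤ 1 := av_norm_le _ _ 1 zero_le_one fun k _ _ => hf k
    have h5 := N821.A.sq_le_sq_add hu hv h4
    linarith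
  linarith

end Pool.Agent.N781.S
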