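import Mathlib
import Pool.Agent.N781.S.Close
import Pool.Agent.N781.S.Stm
import Pool.Agent.N781.A.Eng

/-! The engine for functions which are close to finitely many functions at most primes. -/

namespace Pool.Agent.N781.S

open Finset Pool.Agent.N675 Pool.Agent.N781.FV Pool.Agent.N781.A Filter Topology

open Classical in
/-- the engine -/
def S_ENG2 : Prop :=
  ∀ (Z I : Type) [Fintype Z] [DecidableEq Z] [Fintype I] [DecidableEq I] [Nonempty I]
    (φ : I → Z → ℤ) (σ : I → Bool) (s : ℕ), 0 < s → ∀ δ ρ : ℝ, 0 < δ → δ ≤ 1 → 0 < ρ → ρ ≤ 1 →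
    ∃ τ κ₁ : ℝ, 0 < τ ∧ 0 < κ₁ ∧ ∀ κ : ℝ, 0 < κ → κ ≤ κ₁ → ∀ (N P0 : ℕ) (C' : ℝ),
    ∃ (BL : Finset ℕ) (cl : ℕ → Finset ℕ) (PP : ℕ → ℕ) (P₁ : ℕ) (δ₁ c₀ : ℝ) (K₀ : ℕ),
      0 < δ₁ ∧ 0 < c₀ ∧ (∀ b ∈ BL, P0 ≤ PP b ∧ ∀ p ∈ cl b, p.Prime ∧ PP b ≤ p ∧
        (p : ℝ) ≤ (1 + κ) * (PP b + 1) ∧ p ≤ P₁) ∧
    ∀ D K H : ℕ, K₀ ≤ D → K₀ ≤ K → K₀ ≤ H → (K : ℝ) ≤ c₀ * D → (H : ℝ) ≤ c₀ * D →
    ∀ w : ℤ → ℂ, (∀ m, ‖w m‖ ≤ 1) → ∀ E : ℕ → Prop,
      ∑ p ∈ (BL.biUnion cl).filter E, 1 / (p : ℝ)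
        ≤ C' + ρ / 16 * ∑ p ∈ BL.biUnion cl, 1 / (p : ℝ) →
      (∀ b ∈ BL, ∃ 𝓕 : Fin N → ℤ → ℂ, (∀ n m, ‖𝓕 n m‖ ≤ 1) ∧ ∀ p ∈ cl b, ¬ E p →
        ∃ n, avr (D / p) (fun d => ‖w ((p : ℤ) * d) - 𝓕 n d‖ ^ 2) ≤ τ) →
      (∀ q : ℕ, q.Prime → q ≤ P₁ → ∃ θ : (Z → ℤ) → ℝ, ρ ≤ ER (fun _ : Z => H / q) (fun l =>
        if δ ≤ SS D s K (cub φ σ w ((s : ℤ) * q) l) (θ l) then (1 : ℝ) else 0)) →
      ∃ q : ℕ, q.Prime ∧ q ≤ P₁ ∧ ∃ θ : ℝ,
        δ₁ ≤ ER (fun _ : Z => H / q) (fun l => SS D s K (cub φ σ w ((s : ℤ) * q) l) θ)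

theorem eng2 (hM : S_MACH) (hA : S_ARI) (hD : S_DILSSW) : S_ENG2 := by
  classical
  intro Z I _ _ _ _ _ φ σ s hs δ ρ hδ hδ1 hρ hρ1
  set L := Fintype.card I with hL
  have hL0 : 0 < L := Fintype.card_pos
  have hLR : (0 : ℝ) < L := by exact_mod_cast hL0
  set t₀ : ℝ := δ / (64 * L) with ht₀
  have ht₀0 : 0 < t₀ := by positivity
  refine ⟨t₀ ^ 2, min (1 / 6) (δ / 768), by positivity, by positivity, ?_⟩
  intro κ hκ hκ1 N P0 C'
  have hκ6 : κ ≤ 1 / 6 := hκ1.trans (min_le_left _ _)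
  have hκδ : κ ≤ δ / 768 := hκ1.trans (min_le_right _ _)
  set ε : ℝ := min (δ / 4) (ρ / 4) with hε
  have hε0 : 0 < ε := lt_min (by positivity) (by positivity)
  have hεδ : ε ≤ δ / 4 := min_le_left _ _
  have hερ : ε ≤ ρ / 4 := min_le_right _ _
  obtain ⟨C, hC⟩ := hD Z I φ σ s hs ε hε0
  set m := Fintype.card Z with hm
  set ρ₃ : ℝ := ρ / (8 * 3 ^ m * (N + 1)) with hρ₃
  have hρ₃0 : 0 < ρ₃ := by positivity
  obtain ⟨C₀, hC₀, hcell⟩ := eng_cell hM hA Z I φ σ s hs δ ρ₃ hδ hδ1 hρ₃0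
  obtain ⟨Ja, hJa⟩ := cell_mass κ hκ (by linarith)
  obtain ⟨Jb, hJb⟩ := exp_beats κ C₀ ρ₃ hκ hC₀ hρ₃0 (2 ^ L - 1)
  obtain ⟨Pκ, hPκ⟩ := exists_nat_ge (1 / κ)
  have hpow : Tendsto (fun j : ℕ => (1 + κ) ^ j) atTop atTop :=
    tendsto_pow_atTop_atTop_of_one_lt (by linarith)
  obtain ⟨Jc, hJc⟩ := eventually_atTop.mp (hpow.eventually_ge_atTop ((P0 + Pκ + 5 : ℕ) : ℝ))
  set J0 := max Ja (max Jb Jc) with hJ0
  obtain ⟨J1, hJ01, hJ1⟩ : ∃ J1, J0 ≤ J1 ∧ 64 * (|C| + |C'| + 1) / ρ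
      < ∑ j ∈ Finset.Ico J0 J1, 1 / ((j : ℝ) + 1) := by
    have hdiv := Real.tendsto_sum_range_one_div_nat_succ_atTop
    obtain ⟨b, hb1, hb2⟩ := ((hdiv.eventually_gt_atTop
      (64 * (|C| + |C'| + 1) / ρ + ∑ j ∈ Finset.range J0, 1 / ((j : ℝ) + 1))).and
      (eventually_ge_atTop J0)).exists
    refine ⟨b, hb2, ?_⟩
    rw [← Finset.sum_range_add_sum_Ico _ hb2] at hb1
    linarith
  set JJ := Finset.Ico J0 J1 with hJJ
  set PR : Finset ℕ := JJ.biUnion (cell κ) with hPR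
  have hPRprime : ∀ p ∈ PR, p.Prime := by
    intro p hp
    obtain ⟨j, _, hpj⟩ := Finset.mem_biUnion.mp hp
    exact mem_cell_prime hpj
  obtain ⟨KD, hKD⟩ := hC PR hPRprime
  -- the cells
  set PP : ℕ → ℕ := fun j => ⌊(1 + κ) ^ j⌋₊ with hPP
  have hPPj : ∀ j, J0 ≤ j → P0 + Pκ + 5 ≤ PP j := by
    intro j hj
    have := hJc j (((le_max_right _ _).trans (le_max_right _ _)).trans hj)
    exact Nat.le_floor this
  have hPPlow : ∀ j, (1 + κ) ^ j < PP j + 1 := fun j => Nat.lt_floor_add_one _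
  have hPPup : ∀ j, (PP j : ℝ) ≤ (1 + κ) ^ j := fun j => Nat.floor_le (by positivity)
  have hcellP : ∀ j, J0 ≤ j → ∀ q ∈ cell κ j, PP j ≤ q ∧ q < 2 * PP j ∧
      (q : ℝ) ≤ (1 + κ) * (PP j + 1) := by
    intro j hj q hq
    have h1 := mem_cell_lower hκ hq
    have h2 := mem_cell_upper hκ hq
    have h3 := hPPj j hj
    have h4 : (q : ℝ) ≤ (1 + κ) * (PP j + 1) := by
      rw [pow_succ] at h2
      have := hPPlow j
      nlinarith
    have h5 : ((P0 + Pκ + 5 : ℕ) : ℝ) ≤ PP j := by exact_mod_cast h3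
    have h6 : (5 : ℝ) ≤ PP j := by
      push_cast at h5
      have : (0 : ℝ) ≤ P0 := Nat.cast_nonneg _
      have : (0 : ℝ) ≤ Pκ := Nat.cast_nonneg _
      linarith
    refine ⟨?_, ?_, h4⟩
    · have : (PP j : ℝ) < q := lt_of_le_of_lt (hPPup j) h1
      exact_mod_cast this.le
    · have : (q : ℝ) < ((2 * PP j : ℕ) : ℝ) := by
        push_cast
        nlinarith
      exact_mod_cast this
  have hcellcard : ∀ j, J0 ≤ j → C₀ * (PP j : ℝ) ^ (2 ^ L - 2)
      ≤ (ρ₃ * (cell κ j).card) ^ (2 ^ L - 1) := by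
    intro j hj
    have h1 := hJa j ((le_max_left _ _).trans hj)
    have h2 := hJb j (((le_max_left _ _).trans (le_max_right _ _)).trans hj)
    have h3 := hPPj j hj
    have hP0 : (0 : ℝ) < PP j := by exact_mod_cast (by omega : 0 < PP j)
    have h4 : ∑ p ∈ cell κ j, 1 / (p : ℝ) ≤ (cell κ j).card * (1 / PP j) := by
      calc _ ≤ ∑ _p ∈ cell κ j, 1 / (PP j : ℝ) := by
            refine Finset.sum_le_sum fun p hp => ?_
            have : (PP j : ℝ) ≤ p := by exact_mod_cast (hcellP j hj p hp).1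
            gcongr
        _ = _ := by rw [Finset.sum_const, nsmul_eq_mul]
    have h5 : (PP j : ℝ) / (4 * ((j : ℝ) + 1)) ≤ (cell κ j).card := by
      have h6 := h1.trans h4
      rw [mul_one_div, le_div_iff₀ hP0] at h6
      calc _ = 1 / (4 * ((j : ℝ) + 1)) * PP j := by ring
        _ ≤ _ := h6
    have hm1 : (2 : ℕ) ^ L - 1 = (2 ^ L - 2) + 1 := by
      have : 2 ≤ 2 ^ L := by
        calc 2 = 2 ^ 1 := by norm_num
          _ ≤ 2 ^ L := Nat.pow_le_pow_right (by norm_num) hL0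
      omega
    calc C₀ * (PP j : ℝ) ^ (2 ^ L - 2)
        = (C₀ * (4 * ((j : ℝ) + 1) / ρ₃) ^ (2 ^ L - 1)) * (PP j : ℝ) ^ (2 ^ L - 2)
          * (ρ₃ / (4 * ((j : ℝ) + 1))) ^ (2 ^ L - 1) := by
          have h7 : (4 * ((j : ℝ) + 1) / ρ₃) ^ (2 ^ L - 1)
              * (ρ₃ / (4 * ((j : ℝ) + 1))) ^ (2 ^ L - 1) = 1 := by
            rw [← mul_pow]
            have : (4 * ((j : ℝ) + 1) / ρ₃) * (ρ₃ / (4 * ((j : ℝ) + 1))) = 1 := by
              field_simp
            rw [this, one_pow]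
          calc C₀ * (PP j : ℝ) ^ (2 ^ L - 2) = C₀ * (PP j : ℝ) ^ (2 ^ L - 2) * 1 := by ring
            _ = C₀ * (PP j : ℝ) ^ (2 ^ L - 2) * ((4 * ((j : ℝ) + 1) / ρ₃) ^ (2 ^ L - 1)
              * (ρ₃ / (4 * ((j : ℝ) + 1))) ^ (2 ^ L - 1)) := by rw [h7]
            _ = _ := by ring
      _ ≤ (PP j : ℝ) * (PP j : ℝ) ^ (2 ^ L - 2) * (ρ₃ / (4 * ((j : ℝ) + 1))) ^ (2 ^ L - 1) := by
          gcongr
      _ = (ρ₃ * (PP j / (4 * ((j : ℝ) + 1)))) ^ (2 ^ L - 1) := by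
          have h8 : (PP j : ℝ) * (PP j : ℝ) ^ (2 ^ L - 2) = (PP j : ℝ) ^ (2 ^ L - 1) := by
            rw [hm1, pow_succ]
            ring
          rw [h8, ← mul_pow]
          congr 1
          ring
      _ ≤ _ := by gcongr
  have hex : ∀ j, ∃ (δ₁ c₀ : ℝ), 0 < δ₁ ∧ 0 < c₀ ∧ (J0 ≤ j →
      (∀ D K H : ℕ, PP j ≤ D → PP j ≤ K → PP j ≤ H → (H : ℝ) ≤ c₀ * D →
      ∀ c c' : ℤ → ℂ, (∀ m, ‖c m‖ ≤ 1) → (∀ m, ‖c' m‖ ≤ 1) →
      ∀ (θ : ℕ → (Z → ℤ) → ℝ) (G : ℕ → Finset (Z → ℤ)),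
      (∀ q ∈ cell κ j, G q ⊆ Box (fun _ : Z => H / q)) →
      2 * ρ₃ * (cell κ j).card * (Box (fun _ : Z => H / PP j)).card
        ≤ ∑ q ∈ cell κ j, ((G q).card : ℝ) →
      (∀ q ∈ cell κ j, ∀ l ∈ G q, δ ≤ SS D s K (cub φ σ c ((s : ℤ) * q) l) (θ q l)) →
      (∀ q ∈ cell κ j, ∀ l ∈ G q,
        δ / 4 ≤ SS (D / PP j) s (K / PP j) (cub φ σ c' s l) ((q : ℝ) * θ q l)) →
      ∃ q ∈ cell κ j, ∃ t : ℝ, δ₁ ≤ ER (fun _ : Z => H / q) (fun l =>
          SS D s K (cub φ σ c ((s : ℤ) * q) l) t))) := by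
    intro j
    by_cases hj : J0 ≤ j
    · have h3 := hPPj j hj
      obtain ⟨δ₁, c₀, h1, h2, h4⟩ := hcell (PP j) (cell κ j) (by omega)
        (fun q hq => ⟨(hcellP j hj q hq).1, (hcellP j hj q hq).2.1⟩) (hcellcard j hj)
      exact ⟨δ₁, c₀, h1, h2, fun _ => h4⟩
    · exact ⟨1, 1, one_pos, one_pos, fun h => absurd h hj⟩
  choose δf cf hδf hcf hmain using hex
  set P₁ : ℕ := ⌊(1 + κ) ^ J1⌋₊ with hP₁
  have hqP₁ : ∀ j ∈ JJ, ∀ q ∈ cell κ j, q ≤ P₁ := by
    intro j hj q hq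
    have h1 := mem_cell_upper hκ hq
    refine Nat.le_floor (h1.trans ?_)
    exact pow_le_pow_right₀ (by linarith) (by rw [hJJ, Finset.mem_Ico] at hj; omega)
  set Cφ : ℤ := ∑ i, ∑ z, |φ i z| with hCφ
  have hCφ0 : 0 ≤ Cφ := Finset.sum_nonneg fun _ _ => Finset.sum_nonneg fun _ _ => abs_nonneg _
  have hCφ0' : (0 : ℝ) ≤ Cφ := by exact_mod_cast hCφ0
  have hs0 : (0 : ℝ) < s := by exact_mod_cast hs
  set c₁ : ℝ := δ / (512 * L * s * (1 + Cφ)) with hc₁
  have hc₁0 : 0 < c₁ := by positivity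
  have hsumδ : 0 ≤ ∑ j ∈ JJ, 1 / δf j := Finset.sum_nonneg fun j _ => (one_div_pos.mpr (hδf j)).le
  have hsumc : 0 ≤ ∑ j ∈ JJ, 1 / cf j := Finset.sum_nonneg fun j _ => (one_div_pos.mpr (hcf j)).le
  refine ⟨JJ, cell κ, PP, P₁, 1 / (∑ j ∈ JJ, 1 / δf j + 1),
    min c₁ (1 / (∑ j ∈ JJ, 1 / cf j + 1)), KD + 12 * P₁ + 12 + 4 * P₁ * (Pκ + 1), by positivity,
    by positivity, ?_, ?_⟩
  · intro j hj
    have hjJ : J0 ≤ j := by rw [hJJ, Finset.mem_Ico] at hj; exact hj.1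
    have h1 := hPPj j hjJ
    refine ⟨by omega, fun p hp => ⟨mem_cell_prime hp, (hcellP j hjJ p hp).1,
      (hcellP j hjJ p hp).2.2, hqP₁ j hj p hp⟩⟩
  intro D K H hKD' hKK hKH hKc hHD w hw E hE hfam hθ
  have hKc₁ : (K : ℝ) ≤ c₁ * D := hKc.trans (mul_le_mul_of_nonneg_right (min_le_left _ _) (Nat.cast_nonneg _))
  have hHc₁ : (H : ℝ) ≤ c₁ * D := hHD.trans (mul_le_mul_of_nonneg_right (min_le_left _ _) (Nat.cast_nonneg _))
  -- the frequencies
  have hθ' : ∀ q : ℕ, ∃ θ : (Z → ℤ) → ℝ, q.Prime → q ≤ P₁ →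
      ρ ≤ ER (fun _ : Z => H / q) (fun l =>
        if δ ≤ SS D s K (cub φ σ w ((s : ℤ) * q) l) (θ l) then (1 : ℝ) else 0) := by
    intro q
    by_cases hq : q.Prime ∧ q ≤ P₁
    · obtain ⟨θ, h⟩ := hθ q hq.1 hq.2
      exact ⟨θ, fun _ _ => h⟩
    · exact ⟨fun _ => 0, fun h1 h2 => absurd ⟨h1, h2⟩ hq⟩
  choose θ hθ2 using hθ'
  set bad : ℕ → (Z → ℤ) → Prop := fun p l => ∃ θ : ℝ, SS (D / p) s (K / p)
      (cub φ σ (fun m => w ((p : ℤ) * m)) s l) ((p : ℝ) * θ) + ε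
            < SS D s K (cub φ σ w ((s : ℤ) * p) l) θ with hbad
  have hdil := hKD D K H (by omega) (by omega) (by omega) w hw
  set G : ℕ → Finset (Z → ℤ) := fun q => if E q then ∅ else (Box (fun _ : Z => H / q)).filter
    (fun l => δ ≤ SS D s K (cub φ σ w ((s : ℤ) * q) l) (θ q l) ∧ ¬ bad q l) with hG
  have hGsub : ∀ q, G q ⊆ Box (fun _ : Z => H / q) := by
    intro q
    rw [hG]
    simp only
    split_ifs
    · exact Finset.empty_subset _
    · exact Finset.filter_subset _ _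
  -- densities
  set β : ℕ → ℝ := fun q => ER (fun _ : Z => H / q) (fun l => if bad q l then (1 : ℝ) else 0) with hβ
  set γ : ℕ → ℝ := fun q => ((G q).card : ℝ) / (Box (fun _ : Z => H / q)).card with hγ
  set χE : ℕ → ℝ := fun q => if E q then 1 else 0 with hχE
  have hβ0 : ∀ q, 0 ≤ β q := fun q => by
    rw [hβ]
    simp only [ER]
    refine div_nonneg (Finset.sum_nonneg fun l _ => ?_) (by positivity)
    split_ifs <;> norm_num
  have hγβ : ∀ j ∈ JJ, ∀ q ∈ cell κ j, ρ - β q - ρ * χE q ≤ γ q := by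
    intro j hj q hq
    by_cases hEq : E q
    · have h1 : γ q = 0 := by
        rw [hγ, hG]
        simp [hEq]
      have h2 := hβ0 q
      rw [h1, hχE]
      simp only [hEq, if_true]
      linarith
    have h1 := hθ2 q (mem_cell_prime hq) (hqP₁ j hj q hq)
    have h2 : ER (fun _ : Z => H / q) (fun l =>
        if δ ≤ SS D s K (cub φ σ w ((s : ℤ) * q) l) (θ q l) then (1 : ℝ) else 0) - β q ≤ γ q := by
      rw [hβ, hγ]
      simp only [ER]
      rw [← Box_card, ← sub_div, ← Finset.sum_sub_distrib]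
      refine div_le_div_of_nonneg_right ?_ (by positivity)
      rw [hG]
      simp only [hEq, if_false]
      rw [Finset.card_filter]
      push_cast
      refine Finset.sum_le_sum fun l _ => ?_
      by_cases h3 : δ ≤ SS D s K (cub φ σ w ((s : ℤ) * q) l) (θ q l)
      · by_cases h4 : bad q l
        · rw [if_pos h3, if_pos h4]
          split_ifs <;> norm_num
        · rw [if_pos h3, if_neg h4, if_pos ⟨h3, h4⟩]
          norm_num
      · rw [if_neg h3]
        split_ifs <;> norm_num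
    have h3 : χE q = 0 := by rw [hχE]; simp [hEq]
    rw [h3]
    linarith
  have hdisj : ∀ i ∈ JJ, ∀ j ∈ JJ, i ≠ j → Disjoint (cell κ i) (cell κ j) :=
    fun i _ j _ hij => cell_disjoint hκ hij
  have hsplit : ∀ f : ℕ → ℝ, ∑ p ∈ PR, f p = ∑ j ∈ JJ, ∑ p ∈ cell κ j, f p := by
    intro f
    rw [hPR, Finset.sum_biUnion]
    intro i hi j hj hij
    exact hdisj i hi j hj hij
  obtain ⟨j, hj, hjc⟩ : ∃ j ∈ JJ, ρ / 2 * ∑ q ∈ cell κ j, 1 / (q : ℝ)
      ≤ ∑ q ∈ cell κ j, 1 / (q : ℝ) * γ q := by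
    by_contra hcon
    push Not at hcon
    have h1 : ∑ j ∈ JJ, ∑ q ∈ cell κ j, 1 / (q : ℝ) * γ q
        ≤ ∑ j ∈ JJ, ρ / 2 * ∑ q ∈ cell κ j, 1 / (q : ℝ) :=
      Finset.sum_le_sum fun j hj => (hcon j hj).le
    rw [← Finset.mul_sum, ← hsplit (fun q => 1 / (q : ℝ))] at h1
    have h2 : ∑ j ∈ JJ, ∑ q ∈ cell κ j, (1 / (q : ℝ)) * (ρ - β q - ρ * χE q)
        ≤ ∑ j ∈ JJ, ∑ q ∈ cell κ j, 1 / (q : ℝ) * γ q :=
      Finset.sum_le_sum fun j hj => Finset.sum_le_sum fun q hq =>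
        mul_le_mul_of_nonneg_left (hγβ j hj q hq) (by positivity)
    rw [← hsplit (fun q => (1 / (q : ℝ)) * (ρ - β q - ρ * χE q))] at h2
    have h3 : ∑ q ∈ PR, (1 / (q : ℝ)) * (ρ - β q - ρ * χE q)
        = ρ * ∑ q ∈ PR, 1 / (q : ℝ) - ∑ q ∈ PR, (1 / (q : ℝ)) * β q
          - ρ * ∑ q ∈ PR, (1 / (q : ℝ)) * χE q := by
      rw [Finset.mul_sum, Finset.mul_sum, ← Finset.sum_sub_distrib, ← Finset.sum_sub_distrib]
      exact Finset.sum_congr rfl fun q _ => by ring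
    have h4 : ∑ q ∈ PR, (1 / (q : ℝ)) * β q ≤ C + ε * ∑ p ∈ PR, 1 / (p : ℝ) := by
      refine le_trans (le_of_eq ?_) hdil
      rfl
    have h4' : ∑ q ∈ PR, (1 / (q : ℝ)) * χE q ≤ C' + ρ / 16 * ∑ p ∈ PR, 1 / (p : ℝ) := by
      refine le_trans (le_of_eq ?_) hE
      rw [Finset.sum_filter]
      refine Finset.sum_congr rfl fun q _ => ?_
      rw [hχE]
      simp only
      split_ifs <;> simp
    set S : ℝ := ∑ p ∈ PR, 1 / (p : ℝ) with hS
    have hS0 : 0 ≤ S := Finset.sum_nonneg fun _ _ => by positivity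
    have h5 : 16 * (|C| + |C'| + 1) / ρ < S := by
      rw [hS, hsplit (fun p => 1 / (p : ℝ))]
      have h6 : ∑ j ∈ JJ, 1 / (4 * ((j : ℝ) + 1)) ≤ ∑ j ∈ JJ, ∑ p ∈ cell κ j, 1 / (p : ℝ) :=
        Finset.sum_le_sum fun j hj => hJa j ((le_max_left _ _).trans (by
          rw [hJJ, Finset.mem_Ico] at hj; exact hj.1))
      have h7 : ∑ j ∈ JJ, 1 / (4 * ((j : ℝ) + 1)) = 1 / 4 * ∑ j ∈ JJ, 1 / ((j : ℝ) + 1) := by
        rw [Finset.mul_sum]
        exact Finset.sum_congr rfl fun j _ => by field_simp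
      have h8 : 16 * (|C| + |C'| + 1) / ρ = 1 / 4 * (64 * (|C| + |C'| + 1) / ρ) := by ring
      rw [h7] at h6
      rw [h8]
      linarith
    rw [div_lt_iff₀ hρ] at h5
    have h6 : ε * S ≤ ρ / 4 * S := by gcongr
    have h7 := le_abs_self C
    have h8 := abs_nonneg C
    have h9 := le_abs_self C'
    have h10 := abs_nonneg C'
    have h11 : ρ * ∑ q ∈ PR, (1 / (q : ℝ)) * χE q ≤ |C'| + ρ / 16 * S := by
      have h12 : ∑ q ∈ PR, (1 / (q : ℝ)) * χE q ≤ |C'| + ρ / 16 * S := by linarith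
      have h13 : 0 ≤ |C'| + ρ / 16 * S := by positivity
      calc _ ≤ ρ * (|C'| + ρ / 16 * S) := by gcongr
        _ ≤ 1 * (|C'| + ρ / 16 * S) := by gcongr
        _ = _ := one_mul _
    nlinarith
  have hjJ : J0 ≤ j := by rw [hJJ, Finset.mem_Ico] at hj; exact hj.1
  have hm1 := hmain j hjJ
  have hPj := hPPj j hjJ
  have hPjR : (0 : ℝ) < PP j := by exact_mod_cast (by omega : 0 < PP j)
  have hPP₁ : PP j ≤ P₁ := by
    refine Nat.floor_le_floor ?_
    exact pow_le_pow_right₀ (by linarith) (by rw [hJJ, Finset.mem_Ico] at hj; omega)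
  -- the sum of the densities
  have hγsum : ρ / 4 * (cell κ j).card ≤ ∑ q ∈ cell κ j, γ q := by
    have h1 : ∑ q ∈ cell κ j, 1 / (q : ℝ) * γ q ≤ 1 / PP j * ∑ q ∈ cell κ j, γ q := by
      rw [Finset.mul_sum]
      refine Finset.sum_le_sum fun q hq => ?_
      have h2 : (PP j : ℝ) ≤ q := by exact_mod_cast (hcellP j hjJ q hq).1
      have h3 : 0 ≤ γ q := by positivity
      gcongr
    have h2 : (cell κ j).card * (1 / (2 * PP j)) ≤ ∑ q ∈ cell κ j, 1 / (q : ℝ) := by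
      calc ((cell κ j).card : ℝ) * (1 / (2 * PP j)) = ∑ _q ∈ cell κ j, 1 / (2 * (PP j : ℝ)) := by
            rw [Finset.sum_const, nsmul_eq_mul]
        _ ≤ _ := by
            refine Finset.sum_le_sum fun q hq => ?_
            have h3 : (q : ℝ) ≤ 2 * PP j := by exact_mod_cast (hcellP j hjJ q hq).2.1.le
            have h4 : (0 : ℝ) < q := by
              have := (mem_cell_prime hq).pos
              exact_mod_cast this
            gcongr
    have h3 : ρ / 2 * ((cell κ j).card * (1 / (2 * PP j))) ≤ 1 / PP j * ∑ q ∈ cell κ j, γ q := by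
      refine le_trans ?_ (hjc.trans h1)
      gcongr
    have h4 : ρ / 2 * ((cell κ j).card * (1 / (2 * PP j)))
        = 1 / PP j * (ρ / 4 * (cell κ j).card) := by
      field_simp
      ring
    rw [h4] at h3
    exact le_of_mul_le_mul_left h3 (by positivity)
  have hboxle : ∀ q ∈ cell κ j, ((Box (fun _ : Z => H / PP j)).card : ℝ)
      ≤ 3 ^ m * (Box (fun _ : Z => H / q)).card := by
    intro q hq
    obtain ⟨h1, h2, _⟩ := hcellP j hjJ q hq
    have hq0 : 0 < q := (mem_cell_prime hq).pos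
    have hqP := hqP₁ j hj q hq
    rw [Box_card, Box_card, Finset.prod_const, Finset.prod_const, Finset.card_univ, ← hm, ← mul_pow]
    refine pow_le_pow_left₀ (Nat.cast_nonneg _) ?_ _
    have h3 : H / PP j ≤ 3 * (H / q) := by
      have h4 : H / PP j * PP j ≤ H := Nat.div_mul_le_self _ _
      have h5 : H < H / q * q + q := Nat.lt_div_mul_add hq0
      have h7 : 12 ≤ H / q := by
        rw [Nat.le_div_iff_mul_le hq0]
        omega
      by_contra hcon
      push Not at hcon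
      have h8 : 3 * (H / q) * PP j < H / PP j * PP j := Nat.mul_lt_mul_of_pos_right hcon (by omega)
      have h9 : (H / q + 1) * q < (H / q + 1) * (2 * PP j) :=
        Nat.mul_lt_mul_of_pos_left h2 (by omega)
      nlinarith
    exact_mod_cast h3
  have hBX : (0 : ℝ) < (Box (fun _ : Z => H / PP j)).card := by
    rw [Box_card]
    refine Finset.prod_pos fun _ _ => ?_
    have : 0 < H / PP j := Nat.div_pos (by omega) (by omega)
    exact_mod_cast this
  have hsumG : (N + 1) * (2 * ρ₃ * (cell κ j).card * (Box (fun _ : Z => H / PP j)).card)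
        ≤ ∑ q ∈ cell κ j, ((G q).card : ℝ) := by
    have h1 : ∀ q ∈ cell κ j, γ q * ((Box (fun _ : Z => H / PP j)).card / 3 ^ m) ≤ (G q).card := by
      intro q hq
      have h2 := hboxle q hq
      have h3 : ((Box (fun _ : Z => H / PP j)).card : ℝ) / 3 ^ m
          ≤ (Box (fun _ : Z => H / q)).card := by
        rw [div_le_iff₀ (by positivity)]
        linarith
      have h4 : γ q * (Box (fun _ : Z => H / q)).card ≤ (G q).card := by
        rw [hγ]
        simp only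
        by_cases h0 : ((Box (fun _ : Z => H / q)).card : ℝ) = 0
        · rw [h0, mul_zero]
          positivity
        · rw [div_mul_cancel₀ _ h0]
      have h5 : 0 ≤ γ q := by positivity
      nlinarith
    have h2 := Finset.sum_le_sum h1
    rw [← Finset.sum_mul] at h2
    refine le_trans ?_ h2
    calc (N + 1) * (2 * ρ₃ * (cell κ j).card * (Box (fun _ : Z => H / PP j)).card)
        = (ρ / 4 * (cell κ j).card) * ((Box (fun _ : Z => H / PP j)).card / 3 ^ m) := by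
          rw [hρ₃]
          field_simp
          ring
      _ ≤ _ := mul_le_mul_of_nonneg_right hγsum (by positivity)
  have hcard0 : (0 : ℝ) < (cell κ j).card := by
    have h1 := hJa j ((le_max_left _ _).trans hjJ)
    have h2 : (0 : ℝ) < 1 / (4 * ((j : ℝ) + 1)) := by positivity
    rcases Finset.eq_empty_or_nonempty (cell κ j) with h0 | h0
    · rw [h0, Finset.sum_empty] at h1
      linarith
    · exact_mod_cast h0.card_pos
  -- the classes
  obtain ⟨𝓕, h𝓕1, h𝓕⟩ := hfam j hj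
  obtain ⟨n, hn⟩ : ∃ n : Fin N, 2 * ρ₃ * (cell κ j).card * (Box (fun _ : Z => H / PP j)).card
      ≤ ∑ q ∈ cell κ j, ((if avr (D / q) (fun d => ‖w ((q : ℤ) * d) - 𝓕 n d‖ ^ 2) ≤ t₀ ^ 2
        then G q else ∅).card : ℝ) := by
    by_contra hcon
    push Not at hcon
    have h1 : ∑ n : Fin N, ∑ q ∈ cell κ j,
        ((if avr (D / q) (fun d => ‖w ((q : ℤ) * d) - 𝓕 n d‖ ^ 2) ≤ t₀ ^ 2
          then G q else ∅).card : ℝ)
        ≤ ∑ _n : Fin N, 2 * ρ₃ * (cell κ j).card * (Box (fun _ : Z => H / PP j)).card :=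
      Finset.sum_le_sum fun n _ => (hcon n).le
    rw [Finset.sum_const, Finset.card_univ, Fintype.card_fin, nsmul_eq_mul, Finset.sum_comm] at h1
    have h2 : ∑ q ∈ cell κ j, ((G q).card : ℝ) ≤ ∑ q ∈ cell κ j, ∑ n : Fin N,
        ((if avr (D / q) (fun d => ‖w ((q : ℤ) * d) - 𝓕 n d‖ ^ 2) ≤ t₀ ^ 2
          then G q else ∅).card : ℝ) := by
      refine Finset.sum_le_sum fun q hq => ?_
      by_cases hEq : E q
      · have h3 : G q = ∅ := by rw [hG]; simp [hEq]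
        rw [h3]
        simp
      · obtain ⟨n, hn⟩ := h𝓕 q hq hEq
        refine le_trans ?_ (Finset.single_le_sum (f := fun n : Fin N =>
          ((if avr (D / q) (fun d => ‖w ((q : ℤ) * d) - 𝓕 n d‖ ^ 2) ≤ t₀ ^ 2
            then G q else ∅).card : ℝ)) (fun _ _ => Nat.cast_nonneg _) (Finset.mem_univ n))
        rw [if_pos hn]
    have h3 : 0 < 2 * ρ₃ * (cell κ j).card * (Box (fun _ : Z => H / PP j)).card := by positivity
    linarith
  obtain ⟨q, hq, t, ht⟩ := hm1 D K H (by omega) (by omega) (by omega) (by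
      refine hHD.trans ?_
      exact mul_le_mul_of_nonneg_right ((min_le_right _ _).trans
        (inv_sum_le cf (fun i _ => hcf i) hj)) (Nat.cast_nonneg _))
    w (𝓕 n) hw (h𝓕1 n) θ
    (fun q => if avr (D / q) (fun d => ‖w ((q : ℤ) * d) - 𝓕 n d‖ ^ 2) ≤ t₀ ^ 2 then G q else ∅)
    (fun q _ => by
      split_ifs
      · exact hGsub q
      · exact Finset.empty_subset _)
    hn
    (fun q _ l hl => by
      split_ifs at hl with h1
      · rw [hG] at hl
        simp only at hl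
        split_ifs at hl with h2
        · simp at hl
        · exact (Finset.mem_filter.mp hl).2.1
      · simp at hl)
    (fun q hq l hl => by
      split_ifs at hl with h1
      swap
      · simp at hl
      have hlB := hGsub q hl
      rw [hG] at hl
      simp only at hl
      split_ifs at hl with h2
      · simp at hl
      obtain ⟨_, h3, h4⟩ := Finset.mem_filter.mp hl
      obtain ⟨hq1, hq2, hq3⟩ := hcellP j hjJ q hq
      have hqP := hqP₁ j hj q hq
      have hq0 : 0 < q := (mem_cell_prime hq).pos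
      have hqR : (0 : ℝ) < q := by exact_mod_cast hq0
      rw [hbad] at h4
      simp only [not_exists, not_lt] at h4
      have h6 := h4 (θ q l)
      have hDq : 0 < D / q := Nat.div_pos (by omega) hq0
      have hDqR : (0 : ℝ) < ((D / q : ℕ) : ℝ) := by exact_mod_cast hDq
      have hDR : (0 : ℝ) < D := by exact_mod_cast (by omega : 0 < D)
      have hDq2 : (D : ℝ) ≤ 2 * q * ((D / q : ℕ) : ℝ) := by
        have b1 : D < D / q * q + q := Nat.lt_div_mul_add hq0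
        have b2 : D ≤ 2 * q * (D / q) := by nlinarith
        exact_mod_cast b2
      have hKq : ((K / q : ℕ) : ℝ) ≤ K / q := Nat.cast_div_le
      -- the close function
      have h7 := SS_close φ σ (D / q) s (K / q) (fun m => w ((q : ℤ) * m)) (𝓕 n)
        (fun m => hw _) (h𝓕1 n) l ((q : ℝ) * θ q l) t₀ (Cφ * (H / q)) hDq ht₀0.le h1
        (by
          intro i
          rw [mem_Box] at hlB
          have e1 : |LL φ i l| ≤ Cφ * ((H / q : ℕ) : ℤ) := by
            unfold LL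
            calc |∑ z, φ i z * l z| ≤ ∑ z, |φ i z * l z| := Finset.abs_sum_le_sum_abs _ _
              _ ≤ ∑ z, |φ i z| * ((H / q : ℕ) : ℤ) := by
                  refine Finset.sum_le_sum fun z _ => ?_
                  rw [abs_mul]
                  refine mul_le_mul_of_nonneg_left ?_ (abs_nonneg _)
                  have h2 := hlB z
                  rw [abs_of_nonneg (by omega)]
                  exact h2.2
              _ = (∑ z, |φ i z|) * ((H / q : ℕ) : ℤ) := by rw [Finset.sum_mul]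
              _ ≤ Cφ * ((H / q : ℕ) : ℤ) := by
                  refine mul_le_mul_of_nonneg_right ?_ (by positivity)
                  exact Finset.single_le_sum (f := fun i => ∑ z, |φ i z|)
                    (fun _ _ => Finset.sum_nonneg fun _ _ => abs_nonneg _) (Finset.mem_univ i)
          have e2 : |((LL φ i l : ℤ) : ℝ)| ≤ Cφ * ((H / q : ℕ) : ℝ) := by
            have e3 : ((|LL φ i l| : ℤ) : ℝ) ≤ ((Cφ * ((H / q : ℕ) : ℤ) : ℤ) : ℝ) :=
              Int.cast_le.mpr e1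
            rw [Int.cast_abs, Int.cast_mul, Int.cast_natCast] at e3
            exact e3
          refine e2.trans ?_
          have e3 : ((H / q : ℕ) : ℝ) ≤ H / q := Nat.cast_div_le
          gcongr)
      have h8 : 2 * (Fintype.card I * (t₀ + 2 * (s * (((K / q : ℕ) : ℝ) + Cφ * (H / q))
          / ((D / q : ℕ) : ℝ)))) ≤ δ / 16 := by
        have e1 : s * (((K / q : ℕ) : ℝ) + Cφ * (H / q)) / ((D / q : ℕ) : ℝ)
            ≤ 2 * s * (1 + Cφ) * c₁ := by
          rw [div_le_iff₀ hDqR]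
          calc s * (((K / q : ℕ) : ℝ) + Cφ * (H / q)) ≤ s * (K / q + Cφ * (H / q)) := by gcongr
            _ ≤ s * (c₁ * D / q + Cφ * (c₁ * D / q)) := by gcongr
            _ = s * (1 + Cφ) * c₁ * (D / q) := by ring
            _ ≤ s * (1 + Cφ) * c₁ * (2 * ((D / q : ℕ) : ℝ)) := by
                gcongr
                rw [div_le_iff₀ hqR]
                linarith
            _ = _ := by ring
        have e2 : 2 * s * (1 + Cφ) * c₁ = δ / (256 * L) := by
          rw [hc₁]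
          field_simp
          norm_num
        rw [e2] at e1
        calc 2 * (Fintype.card I * (t₀ + 2 * (s * (((K / q : ℕ) : ℝ) + Cφ * (H / q))
            / ((D / q : ℕ) : ℝ)))) ≤ 2 * (L * (t₀ + 2 * (δ / (256 * L)))) := by
              rw [← hL]
              gcongr
          _ = δ / 32 + δ / 64 := by
              rw [ht₀]
              field_simp
              ring
          _ ≤ δ / 16 := by linarith
      have hPκj : 1 / κ ≤ PP j := by
        refine hPκ.trans ?_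
        exact_mod_cast (by omega : Pκ ≤ PP j)
      have hbig : ∀ X : ℕ, 4 * P₁ * (Pκ + 1) ≤ X → 4 * (PP j : ℝ) * (1 / κ + 1) ≤ X := by
        intro X hX
        have e1 : (4 * P₁ * (Pκ + 1) : ℝ) ≤ X := by exact_mod_cast hX
        refine le_trans ?_ e1
        have e2 : (PP j : ℝ) ≤ P₁ := by exact_mod_cast hPP₁
        gcongr
      have h9 := SS_scale hκ hκ6 hPκj hq1 hq3 (hbig D (by omega)) (hbig K (by omega)) s
        (cub φ σ (𝓕 n) s l) (cub_norm φ σ (𝓕 n) (h𝓕1 n) _ l) ((q : ℝ) * θ q l)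
      linarith)
  refine ⟨q, mem_cell_prime hq, hqP₁ j hj q hq, t, ?_⟩
  exact (inv_sum_le δf (fun i _ => hδf i) hj).trans ht

end Pool.Agent.N781.S
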