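import Mathlib
import Pool.Agent.N781.S.Eng

/-! One step of the descent for an arbitrary function. -/

namespace Pool.Agent.N781.S

open Finset Pool.Agent.N675 Pool.Agent.N781.FV Pool.Agent.N781.A

open Classical in
theorem step2 (hP : S_PERM) (hMo : S_MONO) (hPh : S_PHASE) (hU : S_U2)
    (Z I : Type) [Fintype Z] [DecidableEq Z] [Fintype I] [DecidableEq I]
    (φ : I → Z → ℤ) (σ : I → Bool) (j : ℕ)
    (hshape : ∀ (Ξ : (ℤ → ℂ) → ℝ) (t H : ℕ) (c : ℤ → ℂ),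
      GX Ξ (List.replicate j (t, H)) c = ER (fun _ => H) fun l => Ξ (cub φ σ c t l))
    (s : ℕ) (hj : 0 < j) (hs : 0 < s) (δ : ℝ) (hδ : 0 < δ) (hδ1 : δ ≤ 1)
    (η : ℝ) (hη : 0 < η) (hη0 : η ≤ δ / (64 * ((j : ℝ) + 2) * s))
    (P₁ : ℕ) (δ₁ c₀ : ℝ) (Ke : ℕ) (hδ₁ : 0 < δ₁) (hc₀ : 0 < c₀) :
    ∃ η₁ : ℝ, 0 < η₁ ∧ ∀ η' : ℝ, 0 < η' → η' ≤ η₁ → ∃ K₀ : ℕ, ∀ D : ℕ, K₀ ≤ D →
    ∀ c : ℤ → ℂ, (∀ m, ‖c m‖ ≤ 1) →
      (∀ H : ℕ, Ke ≤ D → Ke ≤ H → (H : ℝ) ≤ c₀ * D →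
        (∀ q : ℕ, q.Prime → q ≤ P₁ → ∃ θ : (Z → ℤ) → ℝ,
          δ / 4 ≤ ER (fun _ : Z => H / q) (fun l =>
            if δ * η / 64 ≤ SS D s H (cub φ σ c ((s : ℤ) * q) l) (θ l) then (1 : ℝ) else 0)) →
        ∃ q : ℕ, q.Prime ∧ q ≤ P₁ ∧ ∃ θ : ℝ,
          δ₁ ≤ ER (fun _ : Z => H / q) (fun l => SS D s H (cub φ σ c ((s : ℤ) * q) l) θ)) →
      δ ≤ NN D (List.replicate (j + 2) (s, ⌊η * D⌋₊)) c →
      ∃ q : ℕ, 1 ≤ q ∧ q ≤ P₁ ∧
        δ₁ / 2 ≤ NN D (List.replicate (j + 1) (s * q, ⌊η' * D⌋₊)) c := by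
  set J : ℝ := (j : ℝ) + 2 with hJ
  have hJ2 : 2 ≤ J := by rw [hJ]; have : (0 : ℝ) ≤ j := Nat.cast_nonneg _; linarith
  have hs0 : (0 : ℝ) < s := by exact_mod_cast hs
  have hs1 : (1 : ℝ) ≤ s := by exact_mod_cast hs
  have hsη : s * η * J ≤ δ / 64 := by
    rw [le_div_iff₀ (by positivity)] at hη0 ⊢
    linarith
  have hη1 : η ≤ 1 := by
    refine hη0.trans ((div_le_one (by positivity)).mpr ?_)
    nlinarith
  set ηb : ℝ := min (min c₀ (δ * η / (6400 * J))) (δ₁ / (64 * J * s * (P₁ + 1))) with hηb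
  have hP₁0 : (0 : ℝ) ≤ P₁ := Nat.cast_nonneg _
  have hηb0 : 0 < ηb := by positivity
  have hηb1 : ηb ≤ c₀ := (min_le_left _ _).trans (min_le_left _ _)
  have hηb2 : ηb ≤ δ * η / (6400 * J) := (min_le_left _ _).trans (min_le_right _ _)
  have hηb3 : ηb ≤ δ₁ / (64 * J * s * (P₁ + 1)) := min_le_right _ _
  have hηb2' : ηb * J ≤ δ * η / 6400 := by
    rw [le_div_iff₀ (by positivity)] at hηb2 ⊢
    linarith
  have hηb3' : s * ηb * J ≤ δ₁ / 64 := by
    rw [le_div_iff₀ (by positivity)] at hηb3 ⊢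
    have : 0 ≤ ηb * (64 * J * s) * P₁ := by positivity
    nlinarith
  refine ⟨ηb * δ₁ / (64 * J * (P₁ + 1)), by positivity, ?_⟩
  intro η' hη' hη'1
  obtain ⟨K₀, hK₀⟩ := exists_nat_ge ((Ke + 2 * P₁ + 2) / ηb + 2 / η + 2 / η' + Ke + 1)
  refine ⟨K₀, ?_⟩
  intro D hD c hcn heng hδNN
  have hKe0 : (0 : ℝ) ≤ Ke := Nat.cast_nonneg _
  have hDR : (K₀ : ℝ) ≤ D := by exact_mod_cast hD
  have t1 : 0 ≤ (Ke + 2 * P₁ + 2) / ηb := by positivity
  have t2 : 0 ≤ 2 / η := by positivity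
  have t3 : 0 ≤ 2 / η' := by positivity
  have hD1 : (Ke + 2 * P₁ + 2 : ℝ) ≤ ηb * D := by
    have : (Ke + 2 * P₁ + 2) / ηb ≤ D := by linarith
    rw [div_le_iff₀ hηb0] at this
    linarith
  have hD2 : 2 ≤ η * D := by
    have : 2 / η ≤ D := by linarith
    rw [div_le_iff₀ hη] at this
    linarith
  have hD3 : 2 ≤ η' * D := by
    have : 2 / η' ≤ D := by linarith
    rw [div_le_iff₀ hη'] at this
    linarith
  have hD0 : (0 : ℝ) < D := by nlinarith
  have hD0' : 0 < D := by exact_mod_cast hD0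
  have hKeD : Ke ≤ D := by
    have : (Ke : ℝ) ≤ D := by linarith
    exact_mod_cast this
  obtain ⟨hK1, hK2, hK3⟩ := floor_half η D hD2
  set K := ⌊η * D⌋₊ with hK
  obtain ⟨hH1, hH2, hH3⟩ := floor_half ηb D (by linarith)
  set H := ⌊ηb * D⌋₊ with hH
  obtain ⟨hL1, hL2, hL3⟩ := floor_half η' D hD3
  set H₁ := ⌊η' * D⌋₊ with hH₁
  have hHbig : Ke + 2 * P₁ + 2 ≤ H := by
    refine Nat.le_floor ?_
    push_cast
    linarith
  have hKR : (0 : ℝ) < K := by exact_mod_cast hK3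
  have hHR : (0 : ℝ) < H := by exact_mod_cast hH3
  have hH₁R : (0 : ℝ) < H₁ := by exact_mod_cast hL3
  -- ratios
  have r1 : (H : ℝ) / K ≤ 2 * ηb / η := by
    rw [div_le_div_iff₀ hKR hη]
    calc (H : ℝ) * η ≤ (ηb * D) * η := by gcongr
      _ = 2 * ηb * (η * D / 2) := by ring
      _ ≤ 2 * ηb * K := by gcongr
  have r2 : (K : ℝ) / D ≤ η := by
    rw [div_le_iff₀ hD0]
    exact hK2
  have r3 : (H : ℝ) / D ≤ ηb := by
    rw [div_le_iff₀ hD0]
    exact hH2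
  have r4 : (H₁ : ℝ) / H ≤ 2 * η' / ηb := by
    rw [div_le_div_iff₀ hHR hηb0]
    calc (H₁ : ℝ) * ηb ≤ (η' * D) * ηb := by gcongr
      _ = 2 * η' * (ηb * D / 2) := by ring
      _ ≤ 2 * η' * H := by gcongr
  have r5 : 8 * ηb / η * J ≤ δ / 800 := by
    rw [div_mul_eq_mul_div, div_le_iff₀ hη]
    linarith
  have r6 : 16 * P₁ * η' / ηb * J ≤ δ₁ / 4 := by
    rw [div_mul_eq_mul_div, div_le_iff₀ hηb0]
    rw [le_div_iff₀ (by positivity)] at hη'1
    have : 0 ≤ 16 * η' * J := by positivity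
    nlinarith
  -- the first stage
  have hstage1 : ∀ q : ℕ, 0 < q → q ≤ P₁ → δ / 2 ≤
      ER (fun _ : Z => H / q) fun l =>
        GX (T1 D (s, K)) [(s, H)] (cub φ σ c ((s : ℤ) * q) l) := by
    intro q hq0 hqP
    have hHq : 0 < H / q := Nat.div_pos (by omega) hq0
    have h1 := mono_rep hP hMo D s K q (H / q) hD0' hK3 hHq j [(s, K), (s, K)] c hcn
    have h2 : List.replicate j (s, K) ++ [(s, K), (s, K)] = List.replicate (j + 2) (s, K) := by
      have : [(s, K), (s, K)] = List.replicate 2 (s, K) := rfl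
      rw [this, ← List.replicate_add]
    rw [h2] at h1
    have h3 := hMo D s K 1 H (List.replicate j (s * q, H / q) ++ [(s, K)]) c hcn hD0' hK3 hH3
    have h4 : (List.replicate j (s * q, H / q) ++ [(s, K), (s, K)]).Perm
        ((s, K) :: (List.replicate j (s * q, H / q) ++ [(s, K)])) := List.perm_middle
    rw [hP D _ _ c h4] at h1
    have h5 : ((s * 1, H) :: (List.replicate j (s * q, H / q) ++ [(s, K)])).Perm
        ((s, K) :: (List.replicate j (s * q, H / q) ++ [(s, H)])) := by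
      rw [mul_one]
      refine List.perm_middle.symm.trans ?_
      refine List.Perm.trans ?_ List.perm_middle
      exact List.Perm.append_left _ (List.Perm.swap _ _ _)
    rw [hP D _ _ c h5] at h3
    have h6 : NN D ((s, K) :: (List.replicate j (s * q, H / q) ++ [(s, H)])) c
        = ER (fun _ : Z => H / q) fun l =>
        GX (T1 D (s, K)) [(s, H)] (cub φ σ c ((s : ℤ) * q) l) := by
      show GX (T1 D (s, K)) (List.replicate j (s * q, H / q) ++ [(s, H)]) c = _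
      rw [N776.A.GX_append, hshape]
      push_cast
      rfl
    rw [← h6]
    have h7 : (4 * (q : ℝ) * ((H / q : ℕ) : ℝ) / K) ≤ 8 * ηb / η := by
      have h8 : (q : ℝ) * ((H / q : ℕ) : ℝ) ≤ H := by exact_mod_cast Nat.mul_div_le H q
      calc (4 * (q : ℝ) * ((H / q : ℕ) : ℝ) / K) = 4 * ((q : ℝ) * ((H / q : ℕ) : ℝ)) / K := by ring
        _ ≤ 4 * H / K := by gcongr
        _ = 4 * (H / K) := by ring
        _ ≤ 4 * (2 * ηb / η) := by gcongr
        _ = _ := by ring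
    have h8 : (s * (K : ℝ) / D) ≤ s * η := by
      rw [mul_div_assoc]
      gcongr
    have h9 : (4 * ((1 : ℕ) : ℝ) * (H : ℝ) / K) ≤ 8 * ηb / η := by
      calc (4 * ((1 : ℕ) : ℝ) * (H : ℝ) / K) = 4 * (H / K) := by push_cast; ring
        _ ≤ 4 * (2 * ηb / η) := by gcongr
        _ = _ := by ring
    have h10 : (j : ℝ) * ((4 * (q : ℝ) * ((H / q : ℕ) : ℝ) / K + s * K / D : ℝ))
        ≤ j * (8 * ηb / η + s * η) := by gcongr
    have h11 : (j : ℝ) * (8 * ηb / η + s * η) + (8 * ηb / η + s * η) ≤ J * (8 * ηb / η + s * η) := by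
      rw [hJ]
      have : 0 ≤ 8 * ηb / η + s * η := by positivity
      linarith
    have h12 : J * (8 * ηb / η + s * η) ≤ δ / 800 + δ / 64 := by
      have : J * (8 * ηb / η + s * η) = 8 * ηb / η * J + s * η * J := by ring
      rw [this]
      linarith
    linarith
  -- apply the engine
  have hprop : ∀ q : ℕ, q.Prime → q ≤ P₁ → ∃ θ : (Z → ℤ) → ℝ,
      δ / 4 ≤ ER (fun _ : Z => H / q) (fun l =>
        if δ * η / 64 ≤ SS D s H (cub φ σ c ((s : ℤ) * q) l) (θ l) then (1 : ℝ) else 0) := by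
    intro q hq hqP
    have h1 := hstage1 q hq.pos hqP
    have h2 : ∀ l : Z → ℤ, ∃ θ : ℝ,
        δ / 4 ≤ GX (T1 D (s, K)) [(s, H)] (cub φ σ c ((s : ℤ) * q) l) →
        δ * η / 64 ≤ SS D s H (cub φ σ c ((s : ℤ) * q) l) θ := by
      intro l
      by_cases h : δ / 4 ≤ GX (T1 D (s, K)) [(s, H)] (cub φ σ c ((s : ℤ) * q) l)
      · obtain ⟨θ, hθ⟩ := hU D s K H (cub φ σ c ((s : ℤ) * q) l) (δ / 4)
          (cub_norm φ σ c hcn _ l) hD0' hs hK3 hH3 (by positivity) (by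
            calc (s : ℝ) * K ≤ s * (η * D) := by gcongr
              _ = (s * η) * D := by ring
              _ ≤ (s * η * J) * D :=
                  mul_le_mul_of_nonneg_right
                    (le_mul_of_one_le_right (by positivity) (by linarith)) hD0.le
              _ ≤ (δ / 64) * D := by gcongr
              _ ≤ δ / 4 / 4 * D :=
                  mul_le_mul_of_nonneg_right (by linarith) hD0.le) (by
            calc (H : ℝ) ≤ ηb * D := hH2
              _ ≤ (ηb * J) * D :=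
                  mul_le_mul_of_nonneg_right
                    (le_mul_of_one_le_right (by positivity) (by linarith)) hD0.le
              _ ≤ (δ * η / 6400) * D := by gcongr
              _ = δ / 3200 * (η * D / 2) := by ring
              _ ≤ δ / 3200 * K := by gcongr
              _ ≤ δ / 4 / 100 * K :=
                  mul_le_mul_of_nonneg_right (by linarith) hKR.le) h
        refine ⟨θ, fun _ => le_trans ?_ hθ⟩
        rw [le_div_iff₀ (by positivity)]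
        calc δ * η / 64 * (8 * D) = δ / 4 * (η * D / 2) := by ring
          _ ≤ δ / 4 * K := by gcongr
      · exact ⟨0, fun h' => absurd h' h⟩
    choose θ hθ using h2
    refine ⟨θ, ?_⟩
    have h3 : ER (fun _ : Z => H / q) (fun l =>
        GX (T1 D (s, K)) [(s, H)] (cub φ σ c ((s : ℤ) * q) l))
        ≤ ER (fun _ : Z => H / q) (fun l =>
        (if δ * η / 64 ≤ SS D s H (cub φ σ c ((s : ℤ) * q) l) (θ l) then (1 : ℝ) else 0)
          + δ / 4) := by
      refine ER_le _ _ _ fun l => ?_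
      by_cases h : δ / 4 ≤ GX (T1 D (s, K)) [(s, H)] (cub φ σ c ((s : ℤ) * q) l)
      · rw [if_pos (hθ l h)]
        have := GX_le_one (T1 D (s, K)) (T1_le_one D (s, K)) [(s, H)]
          (cub φ σ c ((s : ℤ) * q) l) (cub_norm φ σ c hcn _ l)
        linarith
      · push Not at h
        split_ifs <;> linarith
    rw [ER_add] at h3
    have h4 := ER_const_le (fun _ : Z => H / q) (δ / 4) (by positivity)
    linarith
  obtain ⟨q, hqp, hqP, θ, hθ⟩ := heng H hKeD (by omega) (hH2.trans (by gcongr)) hprop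
  have hq0 := hqp.pos
  refine ⟨q, hq0, hqP, ?_⟩
  have hHq : 0 < H / q := Nat.div_pos (by omega) hq0
  -- the last stage
  have h1 : ER (fun _ : Z => H / q) (fun l => SS D s H (cub φ σ c ((s : ℤ) * q) l) θ)
      = GX (fun Φ => SS D s H Φ θ) (List.replicate j (s * q, H / q)) c := by
    rw [hshape]
    push_cast
    rfl
  rw [h1] at hθ
  obtain ⟨j', rfl⟩ : ∃ j', j = j' + 1 := ⟨j - 1, by omega⟩
  have h2 := hPh D s H θ (s * q, H / q) (List.replicate j' (s * q, H / q)) c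
  rw [← List.replicate_succ] at h2
  have h3 := hMo D s H q H₁ (List.replicate (j' + 1) (s * q, H / q)) c hcn hD0' hH3 hL3
  have h4 : ((s * q, H₁) :: List.replicate (j' + 1) (s * q, H / q)).Perm
      (List.replicate (j' + 1) (s * q, H / q) ++ [(s * q, H₁)]) :=
    (List.perm_append_singleton _ _).symm
  rw [hP D _ _ c h4] at h3
  have h5 := mono_rep hP hMo D (s * q) (H / q) 1 H₁ hD0' hHq hL3 (j' + 1) [(s * q, H₁)] c hcn
  rw [mul_one] at h5
  have h6 : List.replicate (j' + 1) (s * q, H₁) ++ [(s * q, H₁)]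
      = List.replicate (j' + 1 + 1) (s * q, H₁) := by
    have : [(s * q, H₁)] = List.replicate 1 (s * q, H₁) := rfl
    rw [this, ← List.replicate_add]
  rw [h6] at h5
  -- the errors
  have hqR : (0 : ℝ) < q := by exact_mod_cast hq0
  have hqPR : (q : ℝ) ≤ P₁ := by exact_mod_cast hqP
  have e1 : (4 * (q : ℝ) * H₁ / H + s * H / D : ℝ) ≤ 16 * P₁ * η' / ηb + s * ηb := by
    have a1 : (4 * (q : ℝ) * H₁ / H : ℝ) ≤ 16 * P₁ * η' / ηb := by
      calc (4 * (q : ℝ) * H₁ / H : ℝ) = 4 * q * (H₁ / H) := by ring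
        _ ≤ 4 * P₁ * (2 * η' / ηb) := by gcongr
        _ = 8 * P₁ * η' / ηb := by ring
        _ ≤ 16 * P₁ * η' / ηb := by gcongr; norm_num
    have a2 : (s * (H : ℝ) / D : ℝ) ≤ s * ηb := by
      rw [mul_div_assoc]
      gcongr
    linarith
  have e2 : (4 * ((1 : ℕ) : ℝ) * H₁ / ((H / q : ℕ) : ℝ) + ((s * q : ℕ) : ℝ) * ((H / q : ℕ) : ℝ) / D : ℝ)
      ≤ 16 * P₁ * η' / ηb + s * ηb := by
    have a0 : (H : ℝ) ≤ 2 * q * ((H / q : ℕ) : ℝ) := by
      have b1 : H < H / q * q + q := Nat.lt_div_mul_add hq0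
      have b2 : H ≤ 2 * q * (H / q) := by nlinarith
      exact_mod_cast b2
    have hHqR : (0 : ℝ) < ((H / q : ℕ) : ℝ) := by exact_mod_cast hHq
    have a1 : (4 * ((1 : ℕ) : ℝ) * H₁ / ((H / q : ℕ) : ℝ) : ℝ) ≤ 16 * P₁ * η' / ηb := by
      have b1 : (1 : ℝ) / ((H / q : ℕ) : ℝ) ≤ 2 * q / H := by
        rw [div_le_div_iff₀ hHqR hHR]
        linarith
      calc (4 * ((1 : ℕ) : ℝ) * H₁ / ((H / q : ℕ) : ℝ) : ℝ)
          = 4 * H₁ * (1 / ((H / q : ℕ) : ℝ)) := by push_cast; ring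
        _ ≤ 4 * H₁ * (2 * q / H) := by gcongr
        _ = 8 * q * (H₁ / H) := by ring
        _ ≤ 8 * P₁ * (2 * η' / ηb) := by gcongr
        _ = 16 * P₁ * η' / ηb := by ring
    have a2 : (((s * q : ℕ) : ℝ) * ((H / q : ℕ) : ℝ) / D : ℝ) ≤ s * ηb := by
      have b1 : (q : ℝ) * ((H / q : ℕ) : ℝ) ≤ H := by exact_mod_cast Nat.mul_div_le H q
      calc (((s * q : ℕ) : ℝ) * ((H / q : ℕ) : ℝ) / D : ℝ)
          = s * (q * ((H / q : ℕ) : ℝ)) / D := by push_cast; ring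
        _ ≤ s * H / D := by gcongr
        _ = s * (H / D) := by ring
        _ ≤ s * ηb := by gcongr
    linarith
  have e3 : (((j' + 1 : ℕ) : ℝ)) * (4 * ((1 : ℕ) : ℝ) * H₁ / ((H / q : ℕ) : ℝ)
      + ((s * q : ℕ) : ℝ) * ((H / q : ℕ) : ℝ) / D : ℝ)
      ≤ ((j' + 1 : ℕ) : ℝ) * (16 * P₁ * η' / ηb + s * ηb) :=
    mul_le_mul_of_nonneg_left e2 (Nat.cast_nonneg _)
  have e4 : (16 * P₁ * η' / ηb + s * ηb) + ((j' + 1 : ℕ) : ℝ) * (16 * P₁ * η' / ηb + s * ηb)
      ≤ J * (16 * P₁ * η' / ηb + s * ηb) := by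
    rw [hJ]
    have : 0 ≤ 16 * P₁ * η' / ηb + s * ηb := by positivity
    linarith
  have e5 : J * (16 * P₁ * η' / ηb + s * ηb) ≤ δ₁ / 4 + δ₁ / 64 := by
    have : J * (16 * P₁ * η' / ηb + s * ηb) = 16 * P₁ * η' / ηb * J + s * ηb * J := by ring
    rw [this]
    linarith
  linarith

end Pool.Agent.N781.S
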