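import Mathlib
import Pool.Agent.N781.S.Step
import Pool.Agent.N781.A.Four

/-! The base of the descent: sequences along an ultrafilter. -/

namespace Pool.Agent.N781.S

open Finset Pool.Agent.N675 Pool.Agent.N781.FV Pool.Agent.N781.A Filter Topology

lemma one_four (D s : ℕ) (hs : 0 < s) (w : ℤ → ℂ) (hw : ∀ m, ‖w m‖ ≤ 1) (δ η : ℝ) (hδ : 0 < δ)
    (hη : 0 < η) (hη1 : η ≤ 1) (hD2 : 2 ≤ η * D)
    (h : δ ≤ NN D (List.replicate 1 (s, ⌊η * D⌋₊)) w) :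
    ∃ (D' : ℕ) (θ : ℝ), δ * η / (4 * (1 + s)) * D ≤ D' ∧
      δ * η / (4 * (1 + s)) ≤ ‖av D' fun d => w d * eR (d * θ)‖ := by
  have hD0 : (0 : ℝ) < D := by
    by_contra hcon
    push Not at hcon
    nlinarith
  obtain ⟨hK1, hK2, hK3⟩ := floor_half η D hD2
  refine anchor' D s ⌊η * D⌋₊ w hw 0 δ η hδ hη hη1 (by exact_mod_cast hD0) hs hK1 hK2 ?_
  refine h.trans (le_of_eq ?_)
  show T1 D (s, ⌊η * D⌋₊) w = _
  unfold T1 SS
  simp [eR_zero]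

lemma two_four (hP : S_PERM) (hMo : S_MONO) (hU : S_U2) (s : ℕ) (hs : 0 < s) (δ η : ℝ)
    (hδ : 0 < δ) (hδ1 : δ ≤ 1) (hη : 0 < η) (hη0 : η ≤ δ / (64 * s)) (D : ℕ)
    (hD2 : 2 ≤ η * D) (hD3 : 2 ≤ (δ * η / 6400) * D) (w : ℤ → ℂ) (hw : ∀ m, ‖w m‖ ≤ 1)
    (h : δ ≤ NN D (List.replicate 2 (s, ⌊η * D⌋₊)) w) :
    ∃ (D' : ℕ) (θ : ℝ), (δ * η / 32) * (δ * η / 6400) / (4 * (1 + s)) * D ≤ D' ∧
      (δ * η / 32) * (δ * η / 6400) / (4 * (1 + s)) ≤ ‖av D' fun d => w d * eR (d * θ)‖ := by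
  have hs0 : (0 : ℝ) < s := by exact_mod_cast hs
  have hs1 : (1 : ℝ) ≤ s := by exact_mod_cast hs
  have hsη : s * η ≤ δ / 64 := by
    rw [le_div_iff₀ (by positivity)] at hη0 ⊢
    linarith
  have hη1 : η ≤ 1 := by
    refine hη0.trans ((div_le_one (by positivity)).mpr ?_)
    nlinarith
  set ηb : ℝ := δ * η / 6400 with hηb
  have hηb0 : 0 < ηb := by positivity
  have hηb1 : ηb ≤ 1 := by rw [hηb]; nlinarith
  have hD0 : (0 : ℝ) < D := by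
    by_contra hcon
    push Not at hcon
    nlinarith
  have hD0' : 0 < D := by exact_mod_cast hD0
  obtain ⟨hK1, hK2, hK3⟩ := floor_half η D hD2
  obtain ⟨hH1, hH2, hH3⟩ := floor_half ηb D hD3
  set K := ⌊η * D⌋₊ with hK
  set H := ⌊ηb * D⌋₊ with hH
  have hKR : (0 : ℝ) < K := by exact_mod_cast hK3
  have h1 := hMo D s K 1 H [(s, K)] w hw hD0' hK3 hH3
  have h2 : ((s * 1, H) :: [(s, K)]).Perm ((s, K) :: [(s, H)]) := by
    rw [mul_one]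
    exact List.Perm.swap _ _ _
  rw [hP D _ _ _ h2] at h1
  have h3 : List.replicate 2 (s, K) = (s, K) :: [(s, K)] := rfl
  rw [h3] at h
  have r1 : (H : ℝ) / K ≤ 2 * ηb / η := by
    rw [div_le_div_iff₀ hKR hη]
    calc (H : ℝ) * η ≤ (ηb * D) * η := by gcongr
      _ = 2 * ηb * (η * D / 2) := by ring
      _ ≤ 2 * ηb * K := by gcongr
  have r2 : 2 * ηb / η = δ / 3200 := by
    rw [hηb]
    field_simp
    norm_num
  have r3 : (4 * ((1 : ℕ) : ℝ) * (H : ℝ) / K) ≤ δ / 800 := by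
    calc (4 * ((1 : ℕ) : ℝ) * (H : ℝ) / K) = 4 * (H / K) := by push_cast; ring
      _ ≤ 4 * (2 * ηb / η) := by gcongr
      _ = _ := by rw [r2]; ring
  have r4 : (s * (K : ℝ) / D) ≤ δ / 64 := by
    calc (s * (K : ℝ) / D) ≤ s * (η * D) / D := by gcongr
      _ = s * η := by field_simp
      _ ≤ _ := hsη
  have h4 : δ / 2 ≤ GX (T1 D (s, K)) [(s, H)] w := by
    have : NN D ((s, K) :: [(s, H)]) w = GX (T1 D (s, K)) [(s, H)] w := rfl
    rw [← this]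
    linarith
  obtain ⟨θ, hθ⟩ := hU D s K H w (δ / 2) hw hD0' hs hK3 hH3 (by positivity) (by
      calc (s : ℝ) * K ≤ s * (η * D) := by gcongr
        _ = (s * η) * D := by ring
        _ ≤ (δ / 64) * D := by gcongr
        _ ≤ δ / 2 / 4 * D := mul_le_mul_of_nonneg_right (by linarith) hD0.le) (by
      calc (H : ℝ) ≤ ηb * D := hH2
        _ = δ / 3200 * (η * D / 2) := by rw [hηb]; ring
        _ ≤ δ / 3200 * K := by gcongr
        _ ≤ δ / 2 / 100 * K := mul_le_mul_of_nonneg_right (by linarith) hKR.le) h4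
  refine anchor' D s H w hw θ (δ * η / 32) ηb (by positivity) hηb0 hηb1 hD0' hs hH1 hH2
    (le_trans ?_ hθ)
  rw [le_div_iff₀ (by positivity)]
  calc δ * η / 32 * (8 * D) = δ / 2 * (η * D / 2) := by ring
    _ ≤ δ / 2 * K := by gcongr

lemma trunc (D D' : ℕ) (w : ℤ → ℂ) (hw0 : ∀ d : ℤ, D < d → w d = 0) (θ δ' : ℝ) (hδ1 : δ' ≤ 1)
    (hD : 0 < D) (h1 : δ' * D ≤ D') (h2 : δ' ≤ ‖av D' fun d => w d * eR (d * θ)‖) :
    ∃ D'' : ℕ, D'' ≤ D ∧ δ' * D ≤ D'' ∧ δ' ≤ ‖av D'' fun d => w d * eR (d * θ)‖ := by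
  have hDR : (0 : ℝ) < D := by exact_mod_cast hD
  by_cases h : D' ≤ D
  · exact ⟨D', h, h1, h2⟩
  · push Not at h
    refine ⟨D, le_rfl, by nlinarith, h2.trans ?_⟩
    have e : ∑ n ∈ Icc (1 : ℤ) D', w n * eR (n * θ) = ∑ n ∈ Icc (1 : ℤ) D, w n * eR (n * θ) := by
      refine (Finset.sum_subset (Finset.Icc_subset_Icc_right (by exact_mod_cast h.le)) ?_).symm
      intro n hn hn'
      rw [Finset.mem_Icc] at hn hn'
      rw [hw0 n (by omega), zero_mul]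
    unfold av
    rw [e, norm_div, norm_div, Complex.norm_natCast, Complex.norm_natCast]
    have h3 : (D : ℝ) ≤ D' := by exact_mod_cast h.le
    gcongr

lemma av_diff (D D'' : ℕ) (w w' : ℤ → ℂ) (θ δ' τ : ℝ) (hδ0 : 0 < δ') (hD : 0 < D) (hDD : D'' ≤ D)
    (h1 : δ' * D ≤ D'') (hτ : 0 ≤ τ) (h : avr D (fun d => ‖w d - w' d‖ ^ 2) ≤ (δ' * τ) ^ 2) :
    ‖(av D'' fun d => w d * eR (d * θ)) - av D'' fun d => w' d * eR (d * θ)‖ ≤ τ := by
  have hDR : (0 : ℝ) < D := by exact_mod_cast hD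
  have hD''R : (0 : ℝ) < D'' := lt_of_lt_of_le (by positivity) h1
  have h2 : avr D (fun d => ‖w d - w' d‖) ≤ δ' * τ := by
    have h3 := N344.A.sq_avr_le D (fun d => ‖w d - w' d‖)
    exact abs_le_of_sq_le_sq' (h3.trans h) (by positivity) |>.2
  rw [N344.A.av_sub]
  refine (N344.A.norm_av_le _ _).trans ?_
  unfold avr at h2 ⊢
  rw [div_le_iff₀ hDR] at h2
  rw [div_le_iff₀ hD''R]
  calc ∑ n ∈ Icc (1 : ℤ) D'', ‖w n * eR (n * θ) - w' n * eR (n * θ)‖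
      = ∑ n ∈ Icc (1 : ℤ) D'', ‖w n - w' n‖ := by
        refine Finset.sum_congr rfl fun n _ => ?_
        rw [← sub_mul, norm_mul, norm_eR, mul_one]
    _ ≤ ∑ n ∈ Icc (1 : ℤ) D, ‖w n - w' n‖ :=
        Finset.sum_le_sum_of_subset_of_nonneg
          (Finset.Icc_subset_Icc_right (by exact_mod_cast hDD)) fun _ _ _ => norm_nonneg _
    _ ≤ δ' * τ * D := h2
    _ = τ * (δ' * D) := by ring
    _ ≤ τ * D'' := by gcongr

lemma av_wf (M D D'' : ℕ) (c : ℤ → ℂ) (θ : ℝ) (hDD : D'' ≤ D) :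
    (av D'' fun d => wf M D c d * eR (d * θ))
      = ((av D'' fun d => c d * eR (d * θ)) - av D'' fun d => St M D c d * eR (d * θ)) / 2 := by
  unfold av
  rw [← sub_div, ← Finset.sum_sub_distrib, div_div, mul_comm (D'' : ℂ) 2, ← div_div]
  congr 1
  rw [Finset.sum_div]
  refine Finset.sum_congr rfl fun d hd => ?_
  rw [Finset.mem_Icc] at hd
  have h1 : d ≤ D := hd.2.trans (by exact_mod_cast hDD)
  have e : wf M D c d = (c d - St M D c d) / 2 := by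
    unfold wf
    rw [if_pos ⟨hd.1, h1⟩]
  simp only [e]
  ring

/-- sequences of correlations -/
structure Sq (ι : Type) [Fintype ι] (a b : ι → ℤ) (U : Ultrafilter ℕ) where
  D : ℕ → ℕ
  x : ℕ → ℕ
  F : ℕ → ι → ℤ → ℂ
  g : ℕ → ι → ℕ → ℂ
  hD : ∀ N, ∀ᶠ j in (U : Filter ℕ), N ≤ D j
  hx : ∀ N, ∀ᶠ j in (U : Filter ℕ), N ≤ x j
  hF : ∀ j T, MultAt (F j) (g j) 0 T

section

variable {ι : Type} [Fintype ι] {a b : ι → ℤ} {U : Ultrafilter ℕ} (S : Sq ι a b U)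

/-- the correlations -/
noncomputable def Sq.c (j : ℕ) : ℤ → ℂ := cc a b (S.F j) (S.x j)

/-- the unstructured part at level `i` -/
noncomputable def Sq.w (i j : ℕ) : ℤ → ℂ := wf i.factorial (S.D j) (S.c j)

lemma Sq.c_norm (j : ℕ) (m : ℤ) : ‖S.c j m‖ ≤ 1 := cc_norm a b _ (S.hF j 0).1 _ m

lemma Sq.w_norm (hCE : S_CE) (i j : ℕ) (hD : 0 < S.D j) (m : ℤ) : ‖S.w i j m‖ ≤ 1 :=
  (hCE i.factorial (S.D j) (S.c j) (Nat.factorial_pos i) hD (S.c_norm j)).2.1 m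

lemma Sq.cauchy (hCE : S_CE) (τ : ℝ) (hτ : 0 < τ) : ∃ i₁ : ℕ, ∀ i, i₁ ≤ i →
    ∀ᶠ j in (U : Filter ℕ), avr (S.D j) (fun d => ‖S.w i j d - S.w i₁ j d‖ ^ 2) ≤ τ := by
  by_contra hcon
  push Not at hcon
  have key : ∀ n : ℕ, ∃ i : ℕ, ∀ᶠ j in (U : Filter ℕ),
      4 * τ * n ≤ avr (S.D j) (fun d => ‖St i.factorial (S.D j) (S.c j) d‖ ^ 2) := by
    intro n
    induction n with
    | zero =>
      refine ⟨0, Eventually.of_forall fun j => ?_⟩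
      rw [Nat.cast_zero, mul_zero]
      exact avr_nonneg _ _ fun _ _ _ => by positivity
    | succ n ih =>
      obtain ⟨i₁, hi₁⟩ := ih
      obtain ⟨i, hi, hni⟩ := hcon i₁
      refine ⟨i, ?_⟩
      filter_upwards [hi₁, hni, S.hD 1] with j h2 h3 h4
      have h5 := ((hCE i₁.factorial (S.D j) (S.c j) (Nat.factorial_pos _) (by omega)
        (S.c_norm j)).2.2.2.2 i.factorial (Nat.factorial_pos _) (Nat.factorial_dvd_factorial hi)).1
      unfold Sq.w at h3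
      rw [h5] at h3
      push_cast
      linarith
  obtain ⟨n, hn⟩ := exists_nat_gt (1 / (4 * τ))
  obtain ⟨i, hi⟩ := key n
  obtain ⟨j, hj, hj1⟩ := (hi.and (S.hD 1)).exists
  have h1 : avr (S.D j) (fun d => ‖St i.factorial (S.D j) (S.c j) d‖ ^ 2) ≤ 1 := by
    refine (avr_le _ _ (fun _ => 1) fun d _ _ => ?_).trans (avr_const_le _ 1 zero_le_one)
    exact pow_le_one₀ (norm_nonneg _)
      ((hCE i.factorial (S.D j) (S.c j) (Nat.factorial_pos i) (by omega) (S.c_norm j)).1 d)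
  rw [div_lt_iff₀ (by positivity)] at hn
  linarith

/-- The unstructured parts have no large Fourier coefficients in the limit. -/
lemma Sq.fin (hCE : S_CE) (hMaj : S_STMAJ) (hSm : S_WSMALL) (ha : ∀ i, a i ≠ 0) [DecidableEq ι]
    (δ' : ℝ) (hδ : 0 < δ') (hδ1 : δ' ≤ 1) : ∃ i₀ : ℕ, ∀ i, i₀ ≤ i →
      ¬ ∀ᶠ j in (U : Filter ℕ), ∃ (D' : ℕ) (θ : ℝ), δ' * S.D j ≤ D' ∧
        δ' ≤ ‖av D' fun d => S.w i j d * eR (d * θ)‖ := by
  obtain ⟨i₁, hi₁⟩ := S.cauchy hCE ((δ' * (δ' / 2)) ^ 2) (by positivity)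
  obtain ⟨T, Q₁, K₁, hmin⟩ := minorG (fm a b) (fun i h => ha i (by
    have := congrFun h true
    simpa [fm] using this)) (δ' / 4) (by positivity) 0
  obtain ⟨Q₂, hQ₂⟩ := hMaj i₁.factorial (δ' / 2) (Nat.factorial_pos _) (by positivity)
  obtain ⟨Q₃, hQ₃⟩ := exists_nat_ge (Q₁ / δ' + Q₁ + Q₂)
  obtain ⟨i₀, hi₀⟩ := hSm Q₃ δ' hδ
  refine ⟨max i₀ i₁, fun i hi hcon => ?_⟩
  obtain ⟨K₃, hK₃⟩ := exists_nat_ge (K₁ / δ' + 1)
  obtain ⟨j, ⟨D', θ, h1, h2⟩, h3, h4, h5⟩ := (hcon.and ((hi₁ i (le_trans (le_max_right _ _) hi)).and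
    ((S.hD (K₃ + 1)).and (S.hx (K₁ + 1))))).exists
  have hD0 : 0 < S.D j := by omega
  have hDR : (0 : ℝ) < S.D j := by exact_mod_cast hD0
  obtain ⟨D'', hDD, h6, h7⟩ := trunc (S.D j) D' (S.w i j) (fun d hd => by
    unfold Sq.w wf
    rw [if_neg (by omega)]) θ δ' hδ1 hD0 h1 h2
  have hK1D : K₁ ≤ D'' := by
    have e1 : (K₃ : ℝ) ≤ S.D j := by exact_mod_cast (by omega : K₃ ≤ S.D j)
    have e2 : K₁ / δ' ≤ S.D j := by linarith
    rw [div_le_iff₀ hδ] at e2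
    have e3 : (K₁ : ℝ) ≤ D'' := by linarith
    exact_mod_cast e3
  have h8 := av_diff (S.D j) D'' (S.w i j) (S.w i₁ j) θ δ' (δ' / 2) hδ hD0 hDD h6 (by positivity) h3
  have h9 : δ' / 2 ≤ ‖av D'' fun d => S.w i₁ j d * eR (d * θ)‖ := by
    have := norm_sub_norm_le (av D'' fun d => S.w i j d * eR (d * θ))
      (av D'' fun d => S.w i₁ j d * eR (d * θ))
    linarith
  have hmaj : ∃ q : ℕ, 1 ≤ q ∧ q ≤ Q₃ ∧ ∃ n : ℤ, |(q : ℝ) * θ - n| ≤ (Q₃ : ℝ) / S.D j := by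
    have hQ₃1 : Q₁ ≤ Q₃ ∧ Q₂ ≤ Q₃ ∧ (Q₁ : ℝ) / δ' ≤ Q₃ ∧ (Q₂ : ℝ) ≤ Q₃ := by
      have e1 : (0 : ℝ) ≤ Q₁ / δ' := by positivity
      have e2 : (0 : ℝ) ≤ Q₁ := Nat.cast_nonneg _
      have e3 : (0 : ℝ) ≤ Q₂ := Nat.cast_nonneg _
      have e4 : (Q₁ : ℝ) ≤ Q₃ := by linarith
      have e5 : (Q₂ : ℝ) ≤ Q₃ := by linarith
      exact ⟨by exact_mod_cast e4, by exact_mod_cast e5, by linarith, e5⟩
    unfold Sq.w at h9
    rw [av_wf _ _ _ _ _ hDD, norm_div] at h9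
    have e0 : ‖(2 : ℂ)‖ = 2 := by norm_num
    rw [e0] at h9
    have h10 := norm_sub_le (av D'' fun d => S.c j d * eR (d * θ))
      (av D'' fun d => St i₁.factorial (S.D j) (S.c j) d * eR (d * θ))
    by_cases h11 : δ' / 2 ≤ ‖av D'' fun d => St i₁.factorial (S.D j) (S.c j) d * eR (d * θ)‖
    · obtain ⟨q, hq1, hq2, n, hn⟩ := hQ₂ (S.D j) D'' θ (S.c j) (S.c_norm j) hD0 hDD
        (le_trans (mul_le_mul_of_nonneg_right (by linarith) hDR.le) h6) h11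
      refine ⟨q, hq1, by omega, n, hn.trans ?_⟩
      exact div_le_div_of_nonneg_right hQ₃1.2.2.2 hDR.le
    · push Not at h11
      have h12 : δ' / 4 < ‖av D'' fun d => S.c j d * eR (d * θ)‖ := by linarith
      unfold Sq.c at h12
      rw [av_eq_TF] at h12
      obtain ⟨q, hq1, hq2, hq3⟩ := hmin (fun t : Bool => if t then S.x j else D'')
        (fun t => by cases t <;> simp <;> omega) (S.F j) (S.g j) (S.hF j T)
        (fun t => if t then 0 else θ) h12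
      refine ⟨q, hq1, by omega, _, (hq3 false).trans ?_⟩
      simp only [Bool.false_eq_true, if_false]
      have hD''R : (0 : ℝ) < D'' := lt_of_lt_of_le (by positivity) h6
      rw [div_le_div_iff₀ hD''R hDR]
      calc (Q₁ : ℝ) * S.D j = Q₁ / δ' * (δ' * S.D j) := by field_simp
        _ ≤ Q₁ / δ' * D'' := by gcongr
        _ ≤ Q₃ * D'' := by gcongr; exact hQ₃1.2.2.1
  have h13 := hi₀ i.factorial (Nat.factorial_pos _)
    (Nat.factorial_dvd_factorial (le_trans (le_max_left _ _) hi)) (S.D j) D'' θ (S.c j)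
    (S.c_norm j) hD0 hDD h6 hmaj
  unfold Sq.w at h7
  linarith

/-- the unstructured parts have small box norms with `m` windows -/
def Sq.CL (m : ℕ) : Prop :=
  ∀ s : ℕ, 0 < s → ∀ δ : ℝ, 0 < δ → δ ≤ 1 → ∃ η₀ : ℝ, 0 < η₀ ∧ ∀ η : ℝ, 0 < η → η ≤ η₀ →
    ∃ i₀ : ℕ, ∀ i, i₀ ≤ i →
      ¬ ∀ᶠ j in (U : Filter ℕ), δ ≤ NN (S.D j) (List.replicate m (s, ⌊η * S.D j⌋₊)) (S.w i j)

lemma Sq.large (C : ℝ) : ∀ᶠ j in (U : Filter ℕ), C ≤ (S.D j : ℝ) := by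
  obtain ⟨N, hN⟩ := exists_nat_ge C
  filter_upwards [S.hD N] with j hj
  exact hN.trans (by exact_mod_cast hj)

lemma Sq.CL_one (hCE : S_CE) (hMaj : S_STMAJ) (hSm : S_WSMALL) (ha : ∀ i, a i ≠ 0)
    [DecidableEq ι] : S.CL 1 := by
  intro s hs δ hδ hδ1
  refine ⟨1, one_pos, fun η hη hη1 => ?_⟩
  have hs0 : (0 : ℝ) < s := by exact_mod_cast hs
  set δ' : ℝ := δ * η / (4 * (1 + s)) with hδ'
  have hδ'0 : 0 < δ' := by positivity
  have hδ'1 : δ' ≤ 1 := by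
    rw [hδ', div_le_one (by positivity)]
    nlinarith
  obtain ⟨i₀, hi₀⟩ := S.fin hCE hMaj hSm ha δ' hδ'0 hδ'1
  refine ⟨i₀, fun i hi hcon => hi₀ i hi ?_⟩
  filter_upwards [hcon, S.hD 1, S.large (2 / η)] with j h1 h2 h3
  rw [div_le_iff₀ hη] at h3
  exact one_four (S.D j) s hs (S.w i j) (S.w_norm hCE i j (by omega)) δ η hδ hη hη1
    (by linarith) h1

lemma Sq.CL_two (hP : S_PERM) (hMo : S_MONO) (hU : S_U2) (hCE : S_CE) (hMaj : S_STMAJ)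
    (hSm : S_WSMALL) (ha : ∀ i, a i ≠ 0) [DecidableEq ι] : S.CL 2 := by
  intro s hs δ hδ hδ1
  have hs0 : (0 : ℝ) < s := by exact_mod_cast hs
  have hs1 : (1 : ℝ) ≤ s := by exact_mod_cast hs
  refine ⟨δ / (64 * s), by positivity, fun η hη hη0 => ?_⟩
  have hη1 : η ≤ 1 := by
    refine hη0.trans ((div_le_one (by positivity)).mpr ?_)
    nlinarith
  set δ' : ℝ := (δ * η / 32) * (δ * η / 6400) / (4 * (1 + s)) with hδ'
  have hδ'0 : 0 < δ' := by positivity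
  have hδη : δ * η ≤ 1 := by nlinarith
  have hδ'1 : δ' ≤ 1 := by
    rw [hδ', div_le_one (by positivity)]
    have : 0 < δ * η := by positivity
    nlinarith
  obtain ⟨i₀, hi₀⟩ := S.fin hCE hMaj hSm ha δ' hδ'0 hδ'1
  refine ⟨i₀, fun i hi hcon => hi₀ i hi ?_⟩
  filter_upwards [hcon, S.hD 1, S.large (2 / η), S.large (2 / (δ * η / 6400))] with j h1 h2 h3 h4
  rw [div_le_iff₀ hη] at h3
  rw [div_le_iff₀ (by positivity)] at h4
  exact two_four hP hMo hU s hs δ η hδ hδ1 hη hη0 (S.D j) (by linarith) (by linarith)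
    (S.w i j) (S.w_norm hCE i j (by omega)) h1

end

end Pool.Agent.N781.S
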