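import Mathlib
import Pool.Agent.N781.S.Base

/-! The descent. -/

namespace Pool.Agent.N781.S

open Finset Pool.Agent.N675 Pool.Agent.N781.FV Pool.Agent.N781.A Filter Topology

lemma avr_scale (D P p : ℕ) (g : ℤ → ℝ) (hg : ∀ m, 0 ≤ g m) (hP : 0 < P) (hPp : P ≤ p)
    (hp2 : 2 * p ≤ 3 * P) (hD : 12 * P ≤ D) : avr (D / p) g ≤ 2 * avr (D / P) g := by
  have hp0 : 0 < p := by omega
  have h1 : D / P * P ≤ D := Nat.div_mul_le_self _ _
  have h2 : D < D / p * p + p := Nat.lt_div_mul_add hp0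
  have h3 : 8 ≤ D / p := by
    rw [Nat.le_div_iff_mul_le hp0]
    omega
  set X := D / p with hX
  set Y := D / P with hY
  have h4 : Y ≤ 2 * X := by
    have h5 : 2 * (Y * P) < (X + 1) * (3 * P) := by
      calc 2 * (Y * P) ≤ 2 * D := by omega
        _ < 2 * (X * p + p) := by omega
        _ = (X + 1) * (2 * p) := by ring
        _ ≤ (X + 1) * (3 * P) := Nat.mul_le_mul_left _ hp2
    have h6 : (2 * Y) * P < (3 * (X + 1)) * P := by
      calc (2 * Y) * P = 2 * (Y * P) := by ring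
        _ < _ := h5
        _ = _ := by ring
    have h7 : 2 * Y < 3 * (X + 1) := lt_of_mul_lt_mul_right h6 (Nat.zero_le _)
    omega
  have h5 : X ≤ Y := Nat.div_le_div_left hPp hP
  have hXR : (0 : ℝ) < X := by exact_mod_cast (by omega : 0 < X)
  have hYR : (0 : ℝ) < Y := by exact_mod_cast (by omega : 0 < Y)
  have h6 : (Y : ℝ) ≤ 2 * X := by exact_mod_cast h4
  unfold avr
  have h7 : ∑ n ∈ Icc (1 : ℤ) X, g n ≤ ∑ n ∈ Icc (1 : ℤ) Y, g n :=
    Finset.sum_le_sum_of_subset_of_nonneg (Finset.Icc_subset_Icc_right (by exact_mod_cast h5))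
      fun _ _ _ => hg _
  have h8 : 0 ≤ ∑ n ∈ Icc (1 : ℤ) Y, g n := Finset.sum_nonneg fun _ _ => hg _
  rw [mul_div_assoc', div_le_div_iff₀ hXR hYR]
  nlinarith

section

variable {ι : Type} [Fintype ι] {a b : ι → ℤ} {U : Ultrafilter ℕ} (S : Sq ι a b U)

lemma Sq.CL_succ [DecidableEq ι] (hE : S_ENG2) (hP : S_PERM) (hMo : S_MONO) (hPh : S_PHASE)
    (hSh : S_SHAPE) (hU : S_U2) (hCE : S_CE) (hD1 : S_DIL1) (hD2 : S_DIL2) (hFam : S_FAM)
    (ha : ∀ i, a i ≠ 0) (n : ℕ) (hn : 0 < n) (h : S.CL (n + 1)) : S.CL (n + 2) := by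
  classical
  intro s hs δ hδ hδ1
  obtain ⟨Z, I, _, _, _, _, _, φ, σ, hshape⟩ := hSh n
  have hs0 : (0 : ℝ) < s := by exact_mod_cast hs
  have hs1 : (1 : ℝ) ≤ s := by exact_mod_cast hs
  have hn0 : (0 : ℝ) ≤ n := Nat.cast_nonneg _
  refine ⟨δ / (64 * ((n : ℝ) + 2) * s), by positivity, fun η hη hη0 => ?_⟩
  have hη1 : η ≤ 1 := by
    refine hη0.trans ((div_le_one (by positivity)).mpr ?_)
    nlinarith
  obtain ⟨τ, κ₁, hτ, hκ₁, heng⟩ := hE Z I φ σ s hs (δ * η / 64) (δ / 4) (by positivity)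
    (by nlinarith) (by positivity) (by linarith)
  set τ₁ : ℝ := τ / 64 with hτ₁
  have hτ₁0 : 0 < τ₁ := by positivity
  obtain ⟨i₁, hi₁⟩ := S.cauchy hCE τ₁ hτ₁0
  obtain ⟨κF, hκF0, hκF1, N, P0, hfam⟩ := hFam ι a b ha i₁.factorial τ₁ (Nat.factorial_pos _) hτ₁0
  set κ : ℝ := min (min κF κ₁) (1 / 6) with hκ
  have hκ0 : 0 < κ := by positivity
  have hκF : κ ≤ κF := (min_le_left _ _).trans (min_le_left _ _)
  have hκκ : κ ≤ κ₁ := (min_le_left _ _).trans (min_le_right _ _)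
  have hκ6 : κ ≤ 1 / 6 := min_le_right _ _
  set ε₁ : ℝ := δ / 4 * τ₁ / 32 with hε₁
  have hε₁0 : 0 < ε₁ := by positivity
  obtain ⟨C₁, hC₁⟩ := hD1 ε₁ hε₁0
  obtain ⟨C₂, hC₂⟩ := hD2 ι a b ha ε₁ hε₁0
  obtain ⟨BL, cl, PP, P₁, δ₁, c₀, Ke, hδ₁, hc₀, hBL, hmain⟩ := heng κ hκ0 hκκ N (P0 + 5)
    (C₁ / τ₁ + C₂ / τ₁)
  have hprime : ∀ p ∈ BL.biUnion cl, p.Prime := by
    intro p hp
    obtain ⟨b, hb, hpb⟩ := Finset.mem_biUnion.mp hp
    exact ((hBL b hb).2 p hpb).1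
  have hex : ∀ b', ∃ K : ℕ, b' ∈ BL → ∀ D x : ℕ, K ≤ D → K ≤ x →
      ∀ (F : ι → ℤ → ℂ) (g : ι → ℕ → ℂ) (P00 T : ℕ), MultAt F g P00 T →
      ∃ 𝓕 : Fin N → ℤ → ℂ, (∀ n m, ‖𝓕 n m‖ ≤ 1) ∧
        ∀ q : ℕ, q.Prime → PP b' ≤ q → (q : ℝ) ≤ (1 + κF) * (PP b' + 1) → P00 ≤ q → q ≤ T →
          avr (D / q) (fun d =>
            ‖cc a b F x ((q : ℤ) * d) - cc a b (fun i m => F i ((q : ℤ) * m)) (x / q) d‖ ^ 2) ≤ τ₁ →
          ∃ n : Fin N, avr (D / PP b') (fun d => ‖wf i₁.factorial D (cc a b F x) ((q : ℤ) * d)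
            - 𝓕 n d‖ ^ 2) ≤ 4 * τ₁ := by
    intro b'
    by_cases hb : b' ∈ BL
    · obtain ⟨K, hK⟩ := hfam (PP b') (by have := (hBL b' hb).1; omega)
      exact ⟨K, fun _ => hK⟩
    · exact ⟨0, fun h => absurd h hb⟩
  choose Kb hKb using hex
  obtain ⟨K1, hK1⟩ := hC₁ (BL.biUnion cl) hprime
  obtain ⟨K2, hK2⟩ := hC₂ (BL.biUnion cl) hprime
  obtain ⟨η₁, hη₁, hst⟩ := step2 hP hMo hPh hU Z I φ σ n hshape s hn hs δ hδ hδ1 η hη hη0 P₁ δ₁ c₀
    Ke hδ₁ hc₀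
  -- the next stage for every `q`
  have hex : ∀ q : ℕ, ∃ ηq : ℝ, 0 < ηq ∧ (0 < q → ∀ η : ℝ, 0 < η → η ≤ ηq →
      ∃ i₀ : ℕ, ∀ i, i₀ ≤ i → ¬ ∀ᶠ j in (U : Filter ℕ), min (δ₁ / 2) 1 ≤
        NN (S.D j) (List.replicate (n + 1) (s * q, ⌊η * S.D j⌋₊)) (S.w i j)) := by
    intro q
    by_cases hq : 0 < q
    · obtain ⟨ηq, h1, h2⟩ := h (s * q) (Nat.mul_pos hs hq) (min (δ₁ / 2) 1)
        (lt_min (by positivity) one_pos) (min_le_right _ _)
      exact ⟨ηq, h1, fun _ => h2⟩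
    · exact ⟨1, one_pos, fun h => absurd h hq⟩
  choose ηf hηf hηf2 using hex
  set R := Finset.Icc 1 P₁ with hR
  set η' : ℝ := min η₁ (1 / (∑ q ∈ R, 1 / ηf q + 1)) with hη'
  have hsum0 : 0 ≤ ∑ q ∈ R, 1 / ηf q := Finset.sum_nonneg fun q _ => (one_div_pos.mpr (hηf q)).le
  have hη'0 : 0 < η' := lt_min hη₁ (by positivity)
  have hη'q : ∀ q ∈ R, η' ≤ ηf q := fun q hq =>
    (min_le_right _ _).trans (inv_sum_le ηf (fun i _ => hηf i) hq)
  have hex2 : ∀ q : ℕ, ∃ i₀ : ℕ, q ∈ R → ∀ i, i₀ ≤ i → ¬ ∀ᶠ j in (U : Filter ℕ),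
      min (δ₁ / 2) 1 ≤ NN (S.D j) (List.replicate (n + 1) (s * q, ⌊η' * S.D j⌋₊)) (S.w i j) := by
    intro q
    by_cases hq : q ∈ R
    · obtain ⟨i₀, hi₀⟩ := hηf2 q (by rw [hR, Finset.mem_Icc] at hq; omega) η' hη'0 (hη'q q hq)
      exact ⟨i₀, fun _ => hi₀⟩
    · exact ⟨0, fun h => absurd h hq⟩
  choose If hIf using hex2
  obtain ⟨K₀, hK₀⟩ := hst η' hη'0 (min_le_left _ _)
  refine ⟨i₁ + ∑ q ∈ R, If q, fun i hi hcon => ?_⟩
  have hkey : ∀ᶠ j in (U : Filter ℕ), ∃ q ∈ (↑R : Set ℕ), min (δ₁ / 2) 1 ≤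
      NN (S.D j) (List.replicate (n + 1) (s * q, ⌊η' * S.D j⌋₊)) (S.w i j) := by
    filter_upwards [hcon, hi₁ i (by omega), S.hD (K₀ + K1 + K2 + ∑ b ∈ BL, Kb b + 12 * P₁ + 1),
      S.hx (K2 + ∑ b ∈ BL, Kb b)] with j h1 h2 h3 h4
    have hDpos : 0 < S.D j := by omega
    have hw := S.w_norm hCE i j hDpos
    have hw1 := S.w_norm hCE i₁ j hDpos
    obtain ⟨q, hq1, hqP, hq⟩ := hK₀ (S.D j) (by omega) (S.w i j) hw (by
      intro H hKeD hKeH hHc hprop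
      -- the exceptional primes
      set f : ℤ → ℝ := fun m => ‖S.w i j m - S.w i₁ j m‖ ^ 2 / 4 with hf
      have hf01 : ∀ m, 0 ≤ f m ∧ f m ≤ 1 := by
        intro m
        refine ⟨by positivity, ?_⟩
        have e1 := norm_sub_le (S.w i j m) (S.w i₁ j m)
        have e2 := hw m
        have e3 := hw1 m
        have e4 : ‖S.w i j m - S.w i₁ j m‖ ≤ 2 := by linarith
        rw [hf]
        simp only
        rw [div_le_one (by norm_num)]
        have := norm_nonneg (S.w i j m - S.w i₁ j m)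
        nlinarith
      set A1 : ℕ → ℝ := fun p => |avr (S.D j / p) (fun d => f ((p : ℤ) * d)) - avr (S.D j) f|
        with hA1
      set A2 : ℕ → ℝ := fun p => avr (S.D j / p) (fun d =>
        ‖cc a b (S.F j) (S.x j) ((p : ℤ) * d)
          - cc a b (fun i m => S.F j i ((p : ℤ) * m)) (S.x j / p) d‖ ^ 2) with hA2
      have hA10 : ∀ p, 0 ≤ A1 p := fun p => abs_nonneg _
      have hA20 : ∀ p, 0 ≤ A2 p := fun p => avr_nonneg _ _ fun _ _ _ => by positivity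
      have hsum1 := hK1 (S.D j) (by omega) f hf01
      have hsum2 := hK2 (S.D j) (S.x j) (by omega) (by omega) (S.F j) (S.hF j 0).1
      refine hmain (S.D j) H H hKeD hKeH hKeH hHc hHc (S.w i j) hw
        (fun p => τ₁ < A1 p ∨ τ₁ < A2 p) ?_ ?_ hprop
      · have e1 : ∑ p ∈ (BL.biUnion cl).filter (fun p => τ₁ < A1 p ∨ τ₁ < A2 p), 1 / (p : ℝ)
            ≤ ∑ p ∈ BL.biUnion cl, (1 / (p : ℝ)) * ((A1 p + A2 p) / τ₁) := by
          rw [Finset.sum_filter]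
          refine Finset.sum_le_sum fun p _ => ?_
          have hp0 : 0 ≤ 1 / (p : ℝ) := by positivity
          split_ifs with hEp
          · have e2 : 1 ≤ (A1 p + A2 p) / τ₁ := by
              rw [le_div_iff₀ hτ₁0, one_mul]
              have := hA10 p
              have := hA20 p
              rcases hEp with h | h <;> linarith
            exact le_mul_of_one_le_right hp0 e2
          · exact mul_nonneg hp0 (div_nonneg (add_nonneg (hA10 p) (hA20 p)) hτ₁0.le)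
        have e2 : ∑ p ∈ BL.biUnion cl, (1 / (p : ℝ)) * ((A1 p + A2 p) / τ₁)
            = (∑ p ∈ BL.biUnion cl, (1 / (p : ℝ)) * A1 p) / τ₁
              + (∑ p ∈ BL.biUnion cl, (1 / (p : ℝ)) * A2 p) / τ₁ := by
          rw [Finset.sum_div, Finset.sum_div, ← Finset.sum_add_distrib]
          exact Finset.sum_congr rfl fun p _ => by ring
        have e3 : (∑ p ∈ BL.biUnion cl, (1 / (p : ℝ)) * A1 p) / τ₁
            ≤ (C₁ + ε₁ * ∑ p ∈ BL.biUnion cl, 1 / (p : ℝ)) / τ₁ :=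
          div_le_div_of_nonneg_right hsum1 hτ₁0.le
        have e4 : (∑ p ∈ BL.biUnion cl, (1 / (p : ℝ)) * A2 p) / τ₁
            ≤ (C₂ + ε₁ * ∑ p ∈ BL.biUnion cl, 1 / (p : ℝ)) / τ₁ :=
          div_le_div_of_nonneg_right hsum2 hτ₁0.le
        rw [e2] at e1
        have e5 : (C₁ + ε₁ * ∑ p ∈ BL.biUnion cl, 1 / (p : ℝ)) / τ₁
            + (C₂ + ε₁ * ∑ p ∈ BL.biUnion cl, 1 / (p : ℝ)) / τ₁
            = C₁ / τ₁ + C₂ / τ₁ + δ / 4 / 16 * ∑ p ∈ BL.biUnion cl, 1 / (p : ℝ) := by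
          rw [hε₁]
          field_simp
          ring
        have e6 := e1.trans (add_le_add e3 e4)
        rw [e5] at e6
        convert e6
        rfl
      · intro b' hb'
        obtain ⟨hb1, hb2⟩ := hBL b' hb'
        have hKbb : Kb b' ≤ ∑ b ∈ BL, Kb b := Finset.single_le_sum (fun _ _ => Nat.zero_le _) hb'
        obtain ⟨𝓕, h𝓕1, h𝓕⟩ := hKb b' hb' (S.D j) (S.x j) (by omega) (by omega) (S.F j) (S.g j) 0 P₁
          (S.hF j P₁)
        refine ⟨𝓕, h𝓕1, fun p hp hEp => ?_⟩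
        obtain ⟨hp1, hp2, hp3, hp4⟩ := hb2 p hp
        push Not at hEp
        obtain ⟨hE1, hE2⟩ := hEp
        have hPPR : (5 : ℝ) ≤ PP b' := by exact_mod_cast (by omega : 5 ≤ PP b')
        obtain ⟨m, hm⟩ := h𝓕 p hp1 hp2 (hp3.trans (by gcongr)) (Nat.zero_le _) hp4 hE2
        refine ⟨m, ?_⟩
        have hp5 : 2 * p ≤ 3 * PP b' := by
          have e1 : (p : ℝ) ≤ (1 + 1 / 6) * (PP b' + 1) := hp3.trans (by gcongr)
          have e2 : (2 : ℝ) * p ≤ 3 * PP b' := by linarith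
          exact_mod_cast e2
        have e1 : avr (S.D j / p) (fun d => ‖S.w i j ((p : ℤ) * d) - S.w i₁ j ((p : ℤ) * d)‖ ^ 2)
            ≤ 5 * τ₁ := by
          have e2 : avr (S.D j / p) (fun d => ‖S.w i j ((p : ℤ) * d) - S.w i₁ j ((p : ℤ) * d)‖ ^ 2)
              = 4 * avr (S.D j / p) (fun d => f ((p : ℤ) * d)) := by
            rw [← avr_mul_left]
            congr 1
            funext d
            rw [hf]
            ring
          have e3 : avr (S.D j) (fun d => ‖S.w i j d - S.w i₁ j d‖ ^ 2) = 4 * avr (S.D j) f := by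
            rw [← avr_mul_left]
            congr 1
            funext d
            rw [hf]
            ring
          rw [e2]
          rw [e3] at h2
          have e4 := (abs_le.mp hE1).2
          linarith
        have e2 : avr (S.D j / p) (fun d => ‖S.w i₁ j ((p : ℤ) * d) - 𝓕 m d‖ ^ 2)
            ≤ 2 * (4 * τ₁) := by
          refine (avr_scale (S.D j) (PP b') p _ (fun _ => by positivity) (by omega) hp2 hp5 ?_).trans
            ?_
          · have : PP b' ≤ P₁ := hp2.trans hp4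
            omega
          · gcongr
            exact hm
        calc avr (S.D j / p) (fun d => ‖S.w i j ((p : ℤ) * d) - 𝓕 m d‖ ^ 2)
            ≤ avr (S.D j / p) (fun d =>
                2 * ‖S.w i j ((p : ℤ) * d) - S.w i₁ j ((p : ℤ) * d)‖ ^ 2
                + 2 * ‖S.w i₁ j ((p : ℤ) * d) - 𝓕 m d‖ ^ 2) := by
              refine avr_le _ _ _ fun d _ _ => ?_
              have e3 := norm_add_le (S.w i j ((p : ℤ) * d) - S.w i₁ j ((p : ℤ) * d))
                (S.w i₁ j ((p : ℤ) * d) - 𝓕 m d)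
              rw [sub_add_sub_cancel] at e3
              have e4 := norm_nonneg (S.w i j ((p : ℤ) * d) - 𝓕 m d)
              nlinarith [sq_nonneg (‖S.w i j ((p : ℤ) * d) - S.w i₁ j ((p : ℤ) * d)‖
                - ‖S.w i₁ j ((p : ℤ) * d) - 𝓕 m d‖)]
          _ = 2 * avr (S.D j / p) (fun d => ‖S.w i j ((p : ℤ) * d) - S.w i₁ j ((p : ℤ) * d)‖ ^ 2)
              + 2 * avr (S.D j / p) (fun d => ‖S.w i₁ j ((p : ℤ) * d) - 𝓕 m d‖ ^ 2) := by
              rw [avr_add, avr_mul_left, avr_mul_left]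
          _ ≤ 2 * (5 * τ₁) + 2 * (2 * (4 * τ₁)) := by gcongr
          _ ≤ τ := by rw [hτ₁]; linarith) h1
    exact ⟨q, by rw [hR]; simp; omega, (min_le_left _ _).trans hq⟩
  obtain ⟨q, hqR, hq⟩ := (Ultrafilter.eventually_exists_mem_iff (Finset.finite_toSet R)).1 hkey
  have hqR' : q ∈ R := hqR
  have hIq : If q ≤ ∑ q ∈ R, If q := Finset.single_le_sum (fun _ _ => Nat.zero_le _) hqR'
  exact hIf q hqR' i (by omega) hq

theorem Sq.CL_all [DecidableEq ι] (hE : S_ENG2) (hP : S_PERM) (hMo : S_MONO) (hPh : S_PHASE)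
    (hSh : S_SHAPE) (hU : S_U2) (hCE : S_CE) (hMaj : S_STMAJ) (hSm : S_WSMALL) (hD1 : S_DIL1)
    (hD2 : S_DIL2) (hFam : S_FAM) (ha : ∀ i, a i ≠ 0) (m : ℕ) (hm : 0 < m) : S.CL m := by
  obtain ⟨n, rfl⟩ : ∃ n, m = n + 1 := ⟨m - 1, by omega⟩
  induction n with
  | zero => exact S.CL_one hCE hMaj hSm ha
  | succ n ih =>
    rcases Nat.eq_zero_or_pos n with h | h
    · subst h
      exact S.CL_two hP hMo hU hCE hMaj hSm ha
    · exact S.CL_succ hE hP hMo hPh hSh hU hCE hD1 hD2 hFam ha n h (ih (by omega))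

end

end Pool.Agent.N781.S
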