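import Mathlib
import Pool.Agent.N781.S.Desc

/-! The structure theorem. -/

namespace Pool.Agent.N781.S

open Finset Pool.Agent.N675 Pool.Agent.N781.FV Pool.Agent.N781.A Pool.Agent.N781.A.R Filter Topology

/-- The structure theorem: the correlations are close in mean square to their averages over the
cells. -/
def S_STR : Prop :=
  ∀ (R k : ℕ) (a b : Fin k → ℤ), 0 < k → (∀ i, a i ≠ 0) → ∀ ε : ℝ, 0 < ε →
    ∃ i₀ K : ℕ, ∀ D x : ℕ, K ≤ D → D ≤ R * x →
      ∀ (F : Fin k → ℤ → ℂ) (g : Fin k → ℕ → ℂ), (∀ T, MultAt F g 0 T) →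
      avr D (fun d => ‖cc a b F x d - St i₀.factorial D (cc a b F x) d‖ ^ 2) ≤ ε

theorem str (hE : S_ENG2) (hP : S_PERM) (hMo : S_MONO) (hPh : S_PHASE)
    (hSh : S_SHAPE) (hU : S_U2) (hCE : S_CE) (hMaj : S_STMAJ) (hSm : S_WSMALL) (hD1 : S_DIL1)
    (hD2 : S_DIL2) (hFam : S_FAM) : S_STR := by
  classical
  intro R k a b hk ha ε hε
  by_contra hcon
  push Not at hcon
  choose D x hD hDx F g hF hbig using fun n => hcon n n
  set U : Ultrafilter ℕ := Filter.hyperfilter ℕ with hUdef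
  have hat : ∀ N, ∀ᶠ j in (U : Filter ℕ), N ≤ j := fun N =>
    Nat.hyperfilter_le_atTop (eventually_ge_atTop N)
  set S : Sq (Fin k) a b U := ⟨D, x, F, g, fun N => by
      filter_upwards [hat N] with j hj
      exact hj.trans (hD j), fun N => by
      filter_upwards [hat (N * (R + 1))] with j hj
      by_contra hc
      push Not at hc
      have h1 := hD j
      have h2 := hDx j
      have h3 : R * x j ≤ R * N := Nat.mul_le_mul_left _ hc.le
      have h4 : N * (R + 1) = R * N + N := by ring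
      omega, hF⟩ with hS
  obtain ⟨s, C, hs, hgvn⟩ := gvn_mainR R k a b hk ha
  set δ : ℝ := min ((ε / 2) ^ 2 ^ k / 2) 1 with hδ
  have hδ0 : 0 < δ := lt_min (by positivity) one_pos
  obtain ⟨η₀, hη₀, hCL⟩ := S.CL_all hE hP hMo hPh hSh hU hCE hMaj hSm hD1 hD2 hFam ha k hk s hs δ
    hδ0 (min_le_right _ _)
  set η₁ : ℝ := min η₀ (δ / (|C| + 1)) with hη₁
  have hη₁0 : 0 < η₁ := lt_min hη₀ (by positivity)
  obtain ⟨i₀, hi₀⟩ := hCL η₁ hη₁0 (min_le_left _ _)
  refine hi₀ i₀ le_rfl ?_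
  filter_upwards [hat i₀, S.hD 1, S.large (2 / η₁)] with j hj hj1 hj2
  have hSD : S.D j = D j := rfl
  have hSc : S.c j = cc a b (F j) (x j) := rfl
  have hSw : S.w i₀ j = wf i₀.factorial (D j) (cc a b (F j) (x j)) := rfl
  rw [hSD] at hj1 hj2
  rw [hSD, hSw]
  set c := cc a b (F j) (x j) with hc
  have hFj := (hF j 0).1
  have hcn : ∀ m, ‖c m‖ ≤ 1 := cc_norm a b (F j) hFj (x j)
  have hD0 : (0 : ℝ) < D j := by exact_mod_cast (by omega : 0 < D j)
  have hD2' : 2 ≤ η₁ * D j := by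
    rw [div_le_iff₀ hη₁0] at hj2
    linarith
  obtain ⟨hH1, hH2, hH3⟩ := floor_half η₁ (D j) hD2'
  set H := ⌊η₁ * D j⌋₊ with hH
  obtain ⟨hce1, hce2, hce3, hce4, hce5⟩ := hCE i₀.factorial (D j) c (Nat.factorial_pos _)
    (by omega) hcn
  have hres : ε < avr (D j) (fun d => ‖c d - St i₀.factorial (D j) c d‖ ^ 2) :=
    lt_of_lt_of_le (hbig j) (hce5 j.factorial (Nat.factorial_pos _)
      (Nat.factorial_dvd_factorial hj)).2
  have h1 := hgvn (F j) hFj (fun d => (starRingEnd ℂ) (wf i₀.factorial (D j) c d))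
    (fun m => by rw [RCLike.norm_conj]; exact hce2 m) (D j) (x j) H (by omega) (hDx j) hH3
  rw [NN_conj, ← hc, hce4, Complex.norm_real, Real.norm_eq_abs] at h1
  have h3 : (ε / 2) ^ 2 ^ k
      ≤ |avr (D j) (fun d => ‖c d - St i₀.factorial (D j) c d‖ ^ 2) / 2| ^ 2 ^ k := by
    refine pow_le_pow_left₀ (by positivity) ?_ _
    refine le_trans ?_ (le_abs_self _)
    linarith
  have h4 : C * H / D j ≤ δ := by
    calc C * H / D j ≤ |C| * H / D j := by gcongr; exact le_abs_self C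
      _ ≤ |C| * (η₁ * D j) / D j := by gcongr
      _ = |C| * η₁ := by field_simp
      _ ≤ |C| * (δ / (|C| + 1)) := by gcongr; exact min_le_right _ _
      _ = δ * (|C| / (|C| + 1)) := by ring
      _ ≤ δ * 1 := by
          gcongr
          rw [div_le_one (by positivity)]
          linarith
      _ = δ := mul_one _
  have h5 : δ ≤ (ε / 2) ^ 2 ^ k / 2 := min_le_left _ _
  linarith

end Pool.Agent.N781.S
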