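import Mathlib
import Pool.Agent.N781.S.Stm

/-! Statements of the steps of the isotypic form of the structure theorem. -/

namespace Pool.Agent.N781.S

open Finset Pool.Agent.N675 Pool.Agent.N781.A Pool.Agent.N781.FV

/-- the average over the cell `(u, r mod M)` (zero if the cell is empty) -/
noncomputable def sf (M D : ℕ) (c : ℤ → ℂ) (u r : ℤ) : ℂ :=
  (∑ e ∈ (Icc (1 : ℤ) D).filter (fun e => ky M D e = (u, r % M)), c e) /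
    ((Icc (1 : ℤ) D).filter (fun e => ky M D e = (u, r % M))).card

/-- the cell average with the residue class multiplied by `m` -/
noncomputable def Sta (M D m : ℕ) (c : ℤ → ℂ) (d : ℤ) : ℂ :=
  if 1 ≤ d ∧ d ≤ D then sf M D c ((d - 1) * M / D) (m * d) else 0

/-- two primes `p = 1`, `p' = m` modulo `M` in the same short block outside an exceptional set -/
def S_PAIR : Prop :=
  ∀ M m : ℕ, 1 ≤ M → m.Coprime M → ∀ κ : ℝ, 0 < κ → κ ≤ 1 → ∃ ρ : ℝ, 0 < ρ ∧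
    ∀ (C' : ℝ) (P0 : ℕ), ∃ (PR : Finset ℕ) (T : ℕ), (∀ p ∈ PR, p.Prime ∧ P0 ≤ p ∧ p ≤ T) ∧
    ∀ E : Set ℕ, [DecidablePred (· ∈ E)] →
      ∑ p ∈ PR.filter (· ∈ E), 1 / (p : ℝ) ≤ C' + ρ * ∑ p ∈ PR, 1 / (p : ℝ) →
      ∃ P p p' : ℕ, P0 ≤ P ∧ P ≤ T ∧ p ∈ PR ∧ p' ∈ PR ∧ P ≤ p ∧ P ≤ p' ∧
        (p : ℝ) ≤ (1 + κ) * (P + 1) ∧ (p' : ℝ) ≤ (1 + κ) * (P + 1) ∧ p ∉ E ∧ p' ∉ E ∧
        p % M = 1 % M ∧ p' % M = m % M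

/-- the cell averages at `p d` and `p' d` for neighbouring `p`, `p'` -/
def S_IDX : Prop :=
  ∀ (M : ℕ) (κ : ℝ) (P : ℕ), 0 < M → 0 < κ → κ ≤ 1 / 6 → 1 / κ ≤ P → ∃ K₀ : ℕ,
    ∀ D : ℕ, K₀ ≤ D → ∀ p p' m : ℕ, P ≤ p → P ≤ p' → (p : ℝ) ≤ (1 + κ) * (P + 1) →
      (p' : ℝ) ≤ (1 + κ) * (P + 1) → p' % M = (m * p) % M →
      ∀ c : ℤ → ℂ, (∀ m, ‖c m‖ ≤ 1) →
        avr (min (D / p) (D / p')) (fun d =>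
          ‖St M D c ((p' : ℤ) * d) - Sta M D m c ((p : ℤ) * d)‖ ^ 2) ≤ 20 * M * κ

/-- comparison at one prime -/
def S_CMP : Prop :=
  ∀ (ι : Type) [Fintype ι] [DecidableEq ι] (a b : ι → ℤ), (∀ i, a i ≠ 0) →
    ∀ κ : ℝ, 0 < κ → κ ≤ 1 / 6 → ∃ P0 : ℕ, ∀ P : ℕ, P0 ≤ P → ∃ K₀ : ℕ,
    ∀ D x : ℕ, K₀ ≤ D → K₀ ≤ x →
    ∀ (F : ι → ℤ → ℂ) (g : ι → ℕ → ℂ) (P00 T : ℕ), MultAt F g P00 T →
    ∀ (S : ℤ → ℂ) (q : ℕ), q.Prime → P ≤ q → (q : ℝ) ≤ (1 + κ) * (P + 1) → P00 ≤ q → q ≤ T →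
    ∀ (z : ℂ) (τ η : ℝ), ‖z‖ ≤ 1 →
      avr (D / q) (fun d => ‖cc a b F x ((q : ℤ) * d) - S ((q : ℤ) * d)‖ ^ 2) ≤ τ →
      avr (D / q) (fun d =>
        ‖cc a b F x ((q : ℤ) * d) - cc a b (fun i m => F i ((q : ℤ) * m)) (x / q) d‖ ^ 2) ≤ τ →
      ‖∏ i, g i q - z‖ ≤ η →
      avr (D / q) (fun d => ‖S ((q : ℤ) * d) - z * cc a b F (x / P) d‖ ^ 2)
        ≤ 10 * τ + 5 * η ^ 2 + 200 * κ

end Pool.Agent.N781.S
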