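import Mathlib
import Pool.Agent.N781.S.Iso
import Pool.Agent.N781.S.Desc

/-! The cell averages are isotypic. -/

namespace Pool.Agent.N781.S

open Finset Pool.Agent.N675 Pool.Agent.N781.FV Pool.Agent.N781.A

lemma avr_sub_le (X Y : ℕ) (hX : 0 < X) (hXY : X ≤ Y) (f : ℤ → ℝ) (hf : ∀ n, 0 ≤ f n ∧ f n ≤ 1) :
    avr Y f ≤ avr X f + (1 - (X : ℝ) / Y) := by
  have hXR : (0 : ℝ) < X := by exact_mod_cast hX
  have hYR : (0 : ℝ) < Y := by exact_mod_cast (lt_of_lt_of_le hX hXY)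
  have hXYR : (X : ℝ) ≤ Y := by exact_mod_cast hXY
  have hsplit : ∑ n ∈ Icc (1 : ℤ) Y, f n
      = ∑ n ∈ Icc (1 : ℤ) X, f n + ∑ n ∈ Icc ((X : ℤ) + 1) Y, f n := by
    rw [← Finset.sum_union]
    · congr 1
      ext n
      simp only [Finset.mem_Icc, Finset.mem_union]
      omega
    · rw [Finset.disjoint_left]
      intro n h1 h2
      rw [Finset.mem_Icc] at h1 h2
      omega
  have h1 : ∑ n ∈ Icc ((X : ℤ) + 1) Y, f n ≤ Y - X := by
    calc _ ≤ ∑ _n ∈ Icc ((X : ℤ) + 1) Y, (1 : ℝ) := Finset.sum_le_sum fun n _ => (hf n).2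
      _ = Y - X := by
          rw [Finset.sum_const, Int.card_Icc, nsmul_eq_mul, mul_one]
          have : ((Y : ℤ) + 1 - (X + 1)).toNat = Y - X := by omega
          rw [this, Nat.cast_sub hXY]
  have h0 : 0 ≤ ∑ n ∈ Icc (1 : ℤ) X, f n := Finset.sum_nonneg fun n _ => (hf n).1
  unfold avr
  rw [hsplit, add_div]
  have h2 : (∑ n ∈ Icc (1 : ℤ) X, f n) / Y ≤ (∑ n ∈ Icc (1 : ℤ) X, f n) / X := by gcongr
  have h3 : (∑ n ∈ Icc ((X : ℤ) + 1) Y, f n) / Y ≤ (Y - X) / Y := by gcongr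
  have h4 : ((Y : ℝ) - X) / Y = 1 - X / Y := by
    rw [sub_div, div_self hYR.ne']
  linarith

lemma avr_le_two (X Y : ℕ) (hX : 0 < X) (hXY : X ≤ Y) (hYX : Y ≤ 2 * X) (f : ℤ → ℝ)
    (hf : ∀ n, 0 ≤ f n) : avr X f ≤ 2 * avr Y f := by
  have hXR : (0 : ℝ) < X := by exact_mod_cast hX
  have hYR : (0 : ℝ) < Y := by exact_mod_cast (lt_of_lt_of_le hX hXY)
  have h6 : (Y : ℝ) ≤ 2 * X := by exact_mod_cast hYX
  unfold avr
  have h7 : ∑ n ∈ Icc (1 : ℤ) X, f n ≤ ∑ n ∈ Icc (1 : ℤ) Y, f n :=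
    Finset.sum_le_sum_of_subset_of_nonneg (Finset.Icc_subset_Icc_right (by exact_mod_cast hXY))
      fun _ _ _ => hf _
  have h8 : 0 ≤ ∑ n ∈ Icc (1 : ℤ) Y, f n := Finset.sum_nonneg fun _ _ => hf _
  rw [mul_div_assoc', div_le_div_iff₀ hXR hYR]
  nlinarith

lemma avr_tri (N : ℕ) (u v w : ℤ → ℂ) :
    avr N (fun d => ‖u d - w d‖ ^ 2)
      ≤ 2 * avr N (fun d => ‖u d - v d‖ ^ 2) + 2 * avr N (fun d => ‖v d - w d‖ ^ 2) := by
  rw [← avr_mul_left, ← avr_mul_left, ← avr_add]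
  refine avr_le _ _ _ fun d _ _ => ?_
  have e3 := norm_add_le (u d - v d) (v d - w d)
  rw [sub_add_sub_cancel] at e3
  have e4 := norm_nonneg (u d - w d)
  nlinarith [sq_nonneg (‖u d - v d‖ - ‖v d - w d‖)]

lemma sf_norm (M D : ℕ) (c : ℤ → ℂ) (hc : ∀ m, ‖c m‖ ≤ 1) (u r : ℤ) : ‖sf M D c u r‖ ≤ 1 := by
  unfold sf
  rw [norm_div, Complex.norm_natCast]
  refine div_le_one_of_le₀ ?_ (Nat.cast_nonneg _)
  refine (norm_sum_le _ _).trans ?_
  calc _ ≤ ∑ _e ∈ (Icc (1 : ℤ) D).filter (fun e => ky M D e = (u, r % M)), (1 : ℝ) :=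
        Finset.sum_le_sum fun e _ => hc e
    _ = _ := by rw [Finset.sum_const, nsmul_eq_mul, mul_one]

lemma Sta_norm (M D m : ℕ) (c : ℤ → ℂ) (hc : ∀ m, ‖c m‖ ≤ 1) (d : ℤ) : ‖Sta M D m c d‖ ≤ 1 := by
  unfold Sta
  split_ifs
  · exact sf_norm M D c hc _ _
  · simp

lemma St_norm (M D : ℕ) (c : ℤ → ℂ) (hc : ∀ m, ‖c m‖ ≤ 1) (d : ℤ) : ‖St M D c d‖ ≤ 1 := by
  unfold St
  split_ifs
  · exact sf_norm M D c hc ((d - 1) * M / D) d
  · simp

lemma psi_norm {M : ℕ} (hM : 0 < M) (ψ : DirichletCharacter ℂ M) {m : ℕ} (hm : m.Coprime M) :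
    ‖ψ (m : ZMod M)‖ = 1 := (inv_apply_norm hM ψ hm).1

theorem iso_core (hPair : S_PAIR) (hIdx : S_IDX) (hCmp : S_CMP) (hD1 : S_DIL1) (hD2 : S_DIL2)
    (ι : Type) [Fintype ι] [DecidableEq ι] (a b : ι → ℤ) (ha : ∀ i, a i ≠ 0)
    (ε : ℝ) (hε : 0 < ε) :
    ∃ ε₁ η : ℝ, 0 < ε₁ ∧ 0 < η ∧ ∀ (M m : ℕ), 0 < M → m.Coprime M → ∀ U Mf : ℝ, ∃ T K : ℕ,
    ∀ D x : ℕ, K ≤ D → K ≤ x →
    ∀ (F : ι → ℤ → ℂ) (g : ι → ℕ → ℂ), MultAt F g 0 T →
    ∀ (ψ : DirichletCharacter ℂ M) (v : ℝ), |v| ≤ U →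
      ∑ p ∈ (Finset.range (T + 1)).filter (fun p : ℕ => p.Prime ∧ ¬ p ∣ M ∧
        η < ‖∏ i, g i p - ψ (p : ZMod M)
          * Complex.exp (Complex.I * ((v * Real.log p : ℝ) : ℂ))‖), 1 / (p : ℝ) ≤ Mf →
      avr D (fun d => ‖cc a b F x d - St M D (cc a b F x) d‖ ^ 2) ≤ ε₁ →
      avr D (fun d => ‖Sta M D m (cc a b F x) d
        - ψ (m : ZMod M) * St M D (cc a b F x) d‖ ^ 2) ≤ ε := by
  classical
  set τ : ℝ := ε / 6440 with hτ
  have hτ0 : 0 < τ := by positivity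
  set η : ℝ := min 1 (ε / 3200) with hη
  have hη0 : 0 < η := lt_min one_pos (by positivity)
  have hη1 : η ≤ 1 := min_le_left _ _
  have hηε : η ≤ ε / 3200 := min_le_right _ _
  refine ⟨ε / 1600, η, by positivity, hη0, ?_⟩
  intro M m hM hm U Mf
  have hMR : (0 : ℝ) < M := by exact_mod_cast hM
  set κ : ℝ := min (1 / 6) (min (η / (3 * (|U| + 1))) (ε / (10 * (40 * M + 3212)))) with hκ
  have hκ0 : 0 < κ := by positivity
  have hκ6 : κ ≤ 1 / 6 := min_le_left _ _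
  have hκU : κ ≤ η / (3 * (|U| + 1)) := (min_le_right _ _).trans (min_le_left _ _)
  have hκM : κ ≤ ε / (10 * (40 * M + 3212)) := (min_le_right _ _).trans (min_le_right _ _)
  obtain ⟨ρ, hρ, hpair0⟩ := hPair M m hM hm κ hκ0 (by linarith)
  set ε' : ℝ := ρ * τ / 3 with hε'
  have hε'0 : 0 < ε' := by positivity
  obtain ⟨C₁, hC₁⟩ := hD1 ε' hε'0
  obtain ⟨C₂, hC₂⟩ := hD2 ι a b ha ε' hε'0
  obtain ⟨P0c, hP0c⟩ := hCmp ι a b ha κ hκ0 hκ6
  obtain ⟨Pκ, hPκ⟩ := exists_nat_ge (1 / κ)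
  obtain ⟨PR, T, hPR, hpair⟩ := hpair0 (2 * (C₁ / τ) + C₂ / τ + Mf) (P0c + Pκ + M + 1)
  have hprime : ∀ p ∈ PR, p.Prime := fun p hp => (hPR p hp).1
  have hexI : ∀ P : ℕ, ∃ K : ℕ, 1 / κ ≤ P → ∀ D : ℕ, K ≤ D → ∀ p p' m : ℕ, P ≤ p → P ≤ p' →
      (p : ℝ) ≤ (1 + κ) * (P + 1) →
      (p' : ℝ) ≤ (1 + κ) * (P + 1) → p' % M = (m * p) % M →
      ∀ c : ℤ → ℂ, (∀ m, ‖c m‖ ≤ 1) →
        avr (min (D / p) (D / p')) (fun d =>
          ‖St M D c ((p' : ℤ) * d) - Sta M D m c ((p : ℤ) * d)‖ ^ 2) ≤ 20 * M * κ := by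
    intro P
    by_cases h : 1 / κ ≤ P
    · obtain ⟨K, hK⟩ := hIdx M κ P hM hκ0 hκ6 h
      exact ⟨K, fun _ => hK⟩
    · exact ⟨0, fun h' => absurd h' h⟩
  choose KI hKI using hexI
  have hexC : ∀ P : ℕ, ∃ K₀ : ℕ, P0c ≤ P → ∀ D x : ℕ, K₀ ≤ D → K₀ ≤ x →
    ∀ (F : ι → ℤ → ℂ) (g : ι → ℕ → ℂ) (P00 T : ℕ), MultAt F g P00 T →
    ∀ (S : ℤ → ℂ) (q : ℕ), q.Prime → P ≤ q → (q : ℝ) ≤ (1 + κ) * (P + 1) → P00 ≤ q → q ≤ T →
    ∀ (z : ℂ) (τ η : ℝ), ‖z‖ ≤ 1 →
      avr (D / q) (fun d => ‖cc a b F x ((q : ℤ) * d) - S ((q : ℤ) * d)‖ ^ 2) ≤ τ →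
      avr (D / q) (fun d =>
        ‖cc a b F x ((q : ℤ) * d) - cc a b (fun i m => F i ((q : ℤ) * m)) (x / q) d‖ ^ 2) ≤ τ →
      ‖∏ i, g i q - z‖ ≤ η →
      avr (D / q) (fun d => ‖S ((q : ℤ) * d) - z * cc a b F (x / P) d‖ ^ 2)
        ≤ 10 * τ + 5 * η ^ 2 + 200 * κ := by
    intro P
    by_cases h : P0c ≤ P
    · obtain ⟨K, hK⟩ := hP0c P h
      exact ⟨K, fun _ => hK⟩
    · exact ⟨0, fun h' => absurd h' h⟩
  choose KC hKC using hexC
  obtain ⟨K1, hK1⟩ := hC₁ PR hprime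
  obtain ⟨K2, hK2⟩ := hC₂ PR hprime
  refine ⟨T, K1 + K2 + ∑ P ∈ Finset.range (T + 1), (KI P + KC P) + 4 * T * (Pκ + 1) + 12 * T + 1,
    ?_⟩
  intro D x hD hx F g hFg ψ v hv hfar hres
  set c := cc a b F x with hc
  have hcn : ∀ m, ‖c m‖ ≤ 1 := cc_norm a b F hFg.1 x
  have hStn := St_norm M D c hcn
  have hStan := Sta_norm M D m c hcn
  have hψm : ‖ψ (m : ZMod M)‖ = 1 := psi_norm hM ψ hm
  have hDpos : 0 < D := by omega
  -- the functions
  have hf4 : ∀ u w : ℂ, ‖u‖ ≤ 1 → ‖w‖ ≤ 1 → 0 ≤ ‖u - w‖ ^ 2 / 4 ∧ ‖u - w‖ ^ 2 / 4 ≤ 1 := by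
    intro u w hu hw
    refine ⟨by positivity, ?_⟩
    have e1 := norm_sub_le u w
    have e4 : ‖u - w‖ ≤ 2 := by linarith
    rw [div_le_one (by norm_num)]
    have := norm_nonneg (u - w)
    nlinarith
  set f : ℤ → ℝ := fun n => ‖Sta M D m c n - ψ (m : ZMod M) * St M D c n‖ ^ 2 / 4 with hf
  have hf01 : ∀ n, 0 ≤ f n ∧ f n ≤ 1 := fun n => hf4 _ _ (hStan n) (by
    rw [norm_mul, hψm, one_mul]
    exact hStn n)
  set h : ℤ → ℝ := fun n => ‖c n - St M D c n‖ ^ 2 / 4 with hh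
  have hh01 : ∀ n, 0 ≤ h n ∧ h n ≤ 1 := fun n => hf4 _ _ (hcn n) (hStn n)
  set A1 : ℕ → ℝ := fun p => |avr (D / p) (fun d => f ((p : ℤ) * d)) - avr D f| with hA1
  set A1' : ℕ → ℝ := fun p => |avr (D / p) (fun d => h ((p : ℤ) * d)) - avr D h| with hA1'
  set A2 : ℕ → ℝ := fun p => avr (D / p) (fun d =>
    ‖c ((p : ℤ) * d) - cc a b (fun i m => F i ((p : ℤ) * m)) (x / p) d‖ ^ 2) with hA2
  set Bad : ℕ → Prop := fun p => ¬ p ∣ M ∧ η < ‖∏ i, g i p - ψ (p : ZMod M)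
          * Complex.exp (Complex.I * ((v * Real.log p : ℝ) : ℂ))‖ with hBad
  have hA10 : ∀ p, 0 ≤ A1 p := fun p => abs_nonneg _
  have hA1'0 : ∀ p, 0 ≤ A1' p := fun p => abs_nonneg _
  have hA20 : ∀ p, 0 ≤ A2 p := fun p => avr_nonneg _ _ fun _ _ _ => by positivity
  have hsum1 := hK1 D (by omega) f hf01
  have hsum1' := hK1 D (by omega) h hh01
  have hsum2 := hK2 D x (by omega) (by omega) F hFg.1
  obtain ⟨P, p, p', hP0, hPT, hp, hp', hPp, hPp', hp2, hp2', hpE, hpE', hp1, hp1'⟩ :=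
    hpair {p | τ < A1 p ∨ τ < A1' p ∨ τ < A2 p ∨ Bad p} (by
    set S := ∑ p ∈ PR, 1 / (p : ℝ) with hS
    have e1 : ∑ p ∈ PR.filter (· ∈ {p | τ < A1 p ∨ τ < A1' p ∨ τ < A2 p ∨ Bad p}), 1 / (p : ℝ)
        ≤ ∑ p ∈ PR, ((1 / (p : ℝ)) * ((A1 p + A1' p + A2 p) / τ)
          + if Bad p then 1 / (p : ℝ) else 0) := by
      rw [Finset.sum_filter]
      refine Finset.sum_le_sum fun p _ => ?_
      have hp0 : 0 ≤ 1 / (p : ℝ) := by positivity
      have hA : 0 ≤ (A1 p + A1' p + A2 p) / τ :=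
        div_nonneg (add_nonneg (add_nonneg (hA10 p) (hA1'0 p)) (hA20 p)) hτ0.le
      by_cases hb : Bad p
      · rw [if_pos hb, if_pos (show p ∈ {p | τ < A1 p ∨ τ < A1' p ∨ τ < A2 p ∨ Bad p} from
          Or.inr (Or.inr (Or.inr hb)))]
        have := mul_nonneg hp0 hA
        linarith
      · rw [if_neg hb, add_zero]
        split_ifs with hEp
        · have e2 : 1 ≤ (A1 p + A1' p + A2 p) / τ := by
            rw [le_div_iff₀ hτ0, one_mul]
            have := hA10 p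
            have := hA1'0 p
            have := hA20 p
            rcases hEp with h | h | h | h
            · linarith
            · linarith
            · linarith
            · exact absurd h hb
          exact le_mul_of_one_le_right hp0 e2
        · exact mul_nonneg hp0 hA
    have e2 : ∑ p ∈ PR, ((1 / (p : ℝ)) * ((A1 p + A1' p + A2 p) / τ)
          + if Bad p then 1 / (p : ℝ) else 0)
        = (∑ p ∈ PR, (1 / (p : ℝ)) * A1 p) / τ + (∑ p ∈ PR, (1 / (p : ℝ)) * A1' p) / τ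
          + (∑ p ∈ PR, (1 / (p : ℝ)) * A2 p) / τ + ∑ p ∈ PR.filter Bad, 1 / (p : ℝ) := by
      rw [Finset.sum_div, Finset.sum_div, Finset.sum_div, Finset.sum_filter,
        ← Finset.sum_add_distrib, ← Finset.sum_add_distrib, ← Finset.sum_add_distrib]
      exact Finset.sum_congr rfl fun p _ => by ring
    have e3 : (∑ p ∈ PR, (1 / (p : ℝ)) * A1 p) / τ ≤ (C₁ + ε' * S) / τ :=
      div_le_div_of_nonneg_right hsum1 hτ0.le
    have e3' : (∑ p ∈ PR, (1 / (p : ℝ)) * A1' p) / τ ≤ (C₁ + ε' * S) / τ :=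
      div_le_div_of_nonneg_right hsum1' hτ0.le
    have e4 : (∑ p ∈ PR, (1 / (p : ℝ)) * A2 p) / τ ≤ (C₂ + ε' * S) / τ :=
      div_le_div_of_nonneg_right hsum2 hτ0.le
    have e5 : ∑ p ∈ PR.filter Bad, 1 / (p : ℝ) ≤ Mf := by
      refine le_trans ?_ hfar
      refine Finset.sum_le_sum_of_subset_of_nonneg ?_ fun _ _ _ => by positivity
      intro p hp
      rw [Finset.mem_filter] at hp
      rw [Finset.mem_filter, Finset.mem_range]
      exact ⟨by have := (hPR p hp.1).2.2; omega, hprime p hp.1, hp.2⟩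
    have e6 : (C₁ + ε' * S) / τ + (C₁ + ε' * S) / τ + (C₂ + ε' * S) / τ
        = 2 * (C₁ / τ) + C₂ / τ + ρ * S := by
      rw [hε']
      field_simp
      ring
    rw [e2] at e1
    linarith)
  simp only [Set.mem_setOf_eq, not_or, not_lt] at hpE hpE'
  obtain ⟨g1, g2, g3, g4⟩ := hpE
  obtain ⟨g1', g2', g3', g4'⟩ := hpE'
  -- sizes
  have hPR1 : (1 : ℝ) / κ ≤ P := hPκ.trans (by exact_mod_cast (by omega : Pκ ≤ P))
  have hPpos : 0 < P := by omega
  have hPposR : (0 : ℝ) < P := by exact_mod_cast hPpos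
  have h1P : 1 ≤ κ * P := by
    rw [div_le_iff₀ hκ0] at hPR1
    linarith
  have hbig : 4 * (P : ℝ) * (1 / κ + 1) ≤ D := by
    have e1 : (4 * T * (Pκ + 1) : ℝ) ≤ D := by exact_mod_cast (by omega : 4 * T * (Pκ + 1) ≤ D)
    refine le_trans ?_ e1
    have e2 : (P : ℝ) ≤ T := by exact_mod_cast hPT
    gcongr
  obtain ⟨q1, q2, q3, _⟩ := N821.A.ratio hκ0 hκ6 hPR1 hPp hp2 hbig
  obtain ⟨q1', q2', q3', _⟩ := N821.A.ratio hκ0 hκ6 hPR1 hPp' hp2' hbig
  set Y := D / P with hY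
  set X := min (D / p) (D / p') with hX
  have hX0 : 0 < X := lt_min q1 q1'
  have hXp : X ≤ D / p := min_le_left _ _
  have hXp' : X ≤ D / p' := min_le_right _ _
  have hYR : (0 : ℝ) < (Y : ℝ) := by exact_mod_cast (lt_of_lt_of_le q1 q2)
  have hXY : (1 - 3 * κ) * Y ≤ X := by
    rcases min_choice (D / p) (D / p') with h | h
    · rw [hX, h]
      have : 1 - 3 * κ ≤ ((D / p : ℕ) : ℝ) / Y := by linarith
      rwa [le_div_iff₀ hYR] at this
    · rw [hX, h]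
      have : 1 - 3 * κ ≤ ((D / p' : ℕ) : ℝ) / Y := by linarith
      rwa [le_div_iff₀ hYR] at this
  have hY2X : Y ≤ 2 * X := by
    have : (Y : ℝ) ≤ 2 * X := by nlinarith
    exact_mod_cast this
  have hX2p : D / p ≤ 2 * X := q2.trans hY2X
  have hX2p' : D / p' ≤ 2 * X := q2'.trans hY2X
  -- closeness of `c` and its cell averages
  have hclose : ∀ q : ℕ, A1' q ≤ τ →
      avr (D / q) (fun d => ‖c ((q : ℤ) * d) - St M D c ((q : ℤ) * d)‖ ^ 2) ≤ ε / 1600 + 4 * τ := by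
    intro q hq
    have e1 : avr (D / q) (fun d => ‖c ((q : ℤ) * d) - St M D c ((q : ℤ) * d)‖ ^ 2)
        = 4 * avr (D / q) (fun d => h ((q : ℤ) * d)) := by
      rw [← avr_mul_left]
      congr 1
      funext d
      rw [hh]
      ring
    have e2 : avr D (fun d => ‖c d - St M D c d‖ ^ 2) = 4 * avr D h := by
      rw [← avr_mul_left]
      congr 1
      funext d
      rw [hh]
      ring
    rw [e1]
    rw [e2] at hres
    have e3 := (abs_le.mp hq).2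
    linarith
  have hpprime := hprime p hp
  have hp'prime := hprime p' hp'
  have hpM : ¬ p ∣ M := fun hd => by
    have := Nat.le_of_dvd hM hd
    omega
  have hp'M : ¬ p' ∣ M := fun hd => by
    have := Nat.le_of_dvd hM hd
    omega
  set w : ℂ := Complex.exp (Complex.I * ((v * Real.log p : ℝ) : ℂ)) with hw
  have hw1 : ‖w‖ = 1 := by rw [hw, norm_expI]
  have hψp : ψ (p : ZMod M) = 1 := by
    have e : (p : ZMod M) = ((1 : ℕ) : ZMod M) := by
      rw [ZMod.natCast_eq_natCast_iff]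
      exact hp1
    rw [e, Nat.cast_one, map_one]
  have hψp' : ψ (p' : ZMod M) = ψ (m : ZMod M) := by
    have e : (p' : ZMod M) = (m : ZMod M) := by
      rw [ZMod.natCast_eq_natCast_iff]
      exact hp1'
    rw [e]
  have hG : ‖∏ i, g i p - w‖ ≤ 2 * η := by
    rw [hBad] at g4
    simp only [not_and, not_lt] at g4
    have := g4 hpM
    rw [hψp, one_mul] at this
    linarith
  have hG' : ‖∏ i, g i p' - ψ (m : ZMod M) * w‖ ≤ 2 * η := by
    rw [hBad] at g4'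
    simp only [not_and, not_lt] at g4'
    have e1 := g4' hp'M
    rw [hψp'] at e1
    have hlog : |Real.log p' - Real.log p| ≤ 3 * κ := by
      have hp0 : (0 : ℝ) < p := by exact_mod_cast hpprime.pos
      have hp0' : (0 : ℝ) < p' := by exact_mod_cast hp'prime.pos
      have hPpR : (P : ℝ) ≤ p := by exact_mod_cast hPp
      have hPpR' : (P : ℝ) ≤ p' := by exact_mod_cast hPp'
      have main : ∀ y z : ℝ, 0 < y → 0 < z → (P : ℝ) ≤ y → z ≤ (1 + κ) * (P + 1) →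
          Real.log z - Real.log y ≤ 3 * κ := by
        intro y z hy hz hPy hzP
        rw [← Real.log_div hz.ne' hy.ne']
        have e2 := Real.log_le_sub_one_of_pos (show 0 < z / y by positivity)
        have e3 : z / y ≤ 1 + 3 * κ := by
          rw [div_le_iff₀ hy]
          have e4 : (1 + κ) * ((P : ℝ) + 1) ≤ (1 + 3 * κ) * P := by
            have : (1 + κ) * 1 ≤ 2 * κ * P := by nlinarith
            linarith
          have e5 : (1 + 3 * κ) * (P : ℝ) ≤ (1 + 3 * κ) * y := by gcongr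
          linarith
        linarith
      rw [abs_le]
      constructor
      · have := main p' p hp0' hp0 hPpR' hp2
        linarith
      · exact main p p' hp0 hp0' hPpR hp2'
    have e2 : ‖Complex.exp (Complex.I * ((v * Real.log p' : ℝ) : ℂ)) - w‖ ≤ η := by
      have e3 : Complex.exp (Complex.I * ((v * Real.log p' : ℝ) : ℂ)) - w
          = w * (Complex.exp (Complex.I * ((v * (Real.log p' - Real.log p) : ℝ) : ℂ)) - 1) := by
        rw [mul_sub, mul_one, hw, ← Complex.exp_add]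
        congr 2
        push_cast
        ring
      rw [e3, norm_mul, hw1, one_mul]
      refine (norm_exp_sub_one_le _).trans ?_
      rw [abs_mul]
      calc |v| * |Real.log p' - Real.log p| ≤ (|U| + 1) * (3 * κ) := by
            refine mul_le_mul ?_ hlog (abs_nonneg _) (by positivity)
            exact (hv.trans (le_abs_self U)).trans (by linarith)
        _ ≤ (|U| + 1) * (3 * (η / (3 * (|U| + 1)))) := by gcongr
        _ = η := by
            have : |U| + 1 ≠ 0 := by positivity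
            field_simp
    have e3 : ∏ i, g i p' - ψ (m : ZMod M) * w
        = (∏ i, g i p' - ψ (m : ZMod M) * Complex.exp (Complex.I * ((v * Real.log p' : ℝ) : ℂ)))
          + ψ (m : ZMod M) * (Complex.exp (Complex.I * ((v * Real.log p' : ℝ) : ℂ)) - w) := by ring
    rw [e3]
    refine (norm_add_le _ _).trans ?_
    rw [norm_mul, hψm, one_mul]
    linarith
  -- comparison at the two primes
  set R := cc a b F (x / P) with hR
  set B : ℝ := 10 * (ε / 1600 + 4 * τ) + 5 * (2 * η) ^ 2 + 200 * κ with hB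
  have hPr : P ∈ Finset.range (T + 1) := Finset.mem_range.mpr (by omega)
  have hKP : KI P + KC P ≤ ∑ P ∈ Finset.range (T + 1), (KI P + KC P) :=
    Finset.single_le_sum (f := fun P => KI P + KC P) (fun _ _ => Nat.zero_le _) hPr
  have hτ' : τ ≤ ε / 1600 + 4 * τ := by
    have : 0 < ε / 1600 := by positivity
    linarith
  have b1 := hKC P (by omega) D x (by omega) (by omega) F g 0 T hFg (St M D c) p hpprime hPp hp2
    (Nat.zero_le _) (hPR p hp).2.2 w (ε / 1600 + 4 * τ) (2 * η) hw1.le (hclose p g2)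
    (g3.trans hτ') hG
  have b1' := hKC P (by omega) D x (by omega) (by omega) F g 0 T hFg (St M D c) p' hp'prime hPp'
    hp2' (Nat.zero_le _) (hPR p' hp').2.2 (ψ (m : ZMod M) * w) (ε / 1600 + 4 * τ) (2 * η)
    (by rw [norm_mul, hψm, hw1, mul_one]) (hclose p' g2') (g3'.trans hτ') hG'
  have c1 : avr X (fun d => ‖St M D c ((p : ℤ) * d) - w * R d‖ ^ 2) ≤ 2 * B :=
    (avr_le_two X (D / p) hX0 hXp hX2p _ fun _ => by positivity).trans (by gcongr)
  have c1' : avr X (fun d => ‖St M D c ((p' : ℤ) * d) - ψ (m : ZMod M) * w * R d‖ ^ 2) ≤ 2 * B :=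
    (avr_le_two X (D / p') hX0 hXp' hX2p' _ fun _ => by positivity).trans (by gcongr)
  have c2 : avr X (fun d => ‖ψ (m : ZMod M) * w * R d - ψ (m : ZMod M) * St M D c ((p : ℤ) * d)‖ ^ 2)
      ≤ 2 * B := by
    refine le_of_eq_of_le ?_ c1
    congr 1
    funext d
    rw [mul_assoc, ← mul_sub, norm_mul, hψm, one_mul, norm_sub_rev]
  have c3 : avr X (fun d => ‖St M D c ((p' : ℤ) * d) - ψ (m : ZMod M) * St M D c ((p : ℤ) * d)‖ ^ 2)
      ≤ 8 * B := by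
    refine (avr_tri X _ (fun d => ψ (m : ZMod M) * w * R d) _).trans ?_
    linarith
  have hidx := hKI P hPR1 D (by omega) p p' m hPp hPp' hp2 hp2' (by
    have e1 : p' % M = m % M := hp1'
    have e2 : (m * p) % M = m % M := by
      rw [Nat.mul_mod, hp1, ← Nat.mul_mod, mul_one]
    rw [e1, e2]) c hcn
  have c4 : avr X (fun d => ‖Sta M D m c ((p : ℤ) * d) - St M D c ((p' : ℤ) * d)‖ ^ 2)
      ≤ 20 * M * κ := by
    refine le_of_eq_of_le ?_ hidx
    congr 1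
    funext d
    rw [norm_sub_rev]
  have c5 : avr X (fun d => ‖Sta M D m c ((p : ℤ) * d) - ψ (m : ZMod M) * St M D c ((p : ℤ) * d)‖ ^ 2)
      ≤ 2 * (20 * M * κ) + 2 * (8 * B) := by
    refine (avr_tri X _ (fun d => St M D c ((p' : ℤ) * d)) _).trans ?_
    gcongr
  have c6 : avr X (fun d => f ((p : ℤ) * d)) ≤ (2 * (20 * M * κ) + 2 * (8 * B)) / 4 := by
    have e1 : avr X (fun d => ‖Sta M D m c ((p : ℤ) * d) - ψ (m : ZMod M) * St M D c ((p : ℤ) * d)‖ ^ 2)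
        = 4 * avr X (fun d => f ((p : ℤ) * d)) := by
      rw [← avr_mul_left]
      congr 1
      funext d
      rw [hf]
      ring
    rw [e1] at c5
    linarith
  have c7 := avr_sub_le X (D / p) hX0 hXp (fun d => f ((p : ℤ) * d)) (fun d => hf01 _)
  have c8 : 1 - (X : ℝ) / ((D / p : ℕ) : ℝ) ≤ 3 * κ := by
    have e1 : (0 : ℝ) < ((D / p : ℕ) : ℝ) := by exact_mod_cast q1
    have e2 : ((D / p : ℕ) : ℝ) ≤ Y := by exact_mod_cast q2
    have e3 : 1 - 3 * κ ≤ (X : ℝ) / ((D / p : ℕ) : ℝ) := by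
      rw [le_div_iff₀ e1]
      refine le_trans ?_ hXY
      have : 0 ≤ 1 - 3 * κ := by linarith
      gcongr
    linarith
  have c9 := (abs_le.mp g1).1
  have c10 : avr D (fun d => ‖Sta M D m c d - ψ (m : ZMod M) * St M D c d‖ ^ 2) = 4 * avr D f := by
    rw [← avr_mul_left]
    congr 1
    funext d
    rw [hf]
    ring
  rw [c10]
  have hκM' : κ * (40 * M + 3212) ≤ ε / 10 := by
    rw [le_div_iff₀ (by positivity)] at hκM
    linarith
  have hη2 : η ^ 2 ≤ ε / 3200 := by nlinarith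
  nlinarith

end Pool.Agent.N781.S
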