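import Mathlib
import Pool.Agent.N781.S.Stm
import Pool.Agent.N565.A.DilSq

/-! The dilation principles `S_DIL1` and `S_DIL2`. -/

namespace Pool.Agent.N781.S

open Finset Pool.Agent.N675 Pool.Agent.N781.A

lemma ER_unit (B : Unit → ℕ) (g : (Unit → ℤ) → ℝ) :
    ER B g = avr (B ()) fun n => g fun _ => n := by
  unfold ER avr
  rw [Fintype.prod_unique]
  congr 1
  refine Finset.sum_bij' (fun y _ => y ()) (fun n _ => fun _ => n) ?_ ?_ ?_ ?_ ?_
  · intro y hy
    rw [mem_Box] at hy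
    rw [Finset.mem_Icc]
    exact hy ()
  · intro n hn
    rw [Finset.mem_Icc] at hn
    rw [mem_Box]
    intro s
    exact hn
  · intro y _
    rfl
  · intro n _
    rfl
  · intro y _
    rfl

theorem dil1 : S_DIL1 := by
  classical
  intro ε hε
  obtain ⟨C, hC⟩ := Pool.Agent.N565.A.dil_par (J := Unit) (α := Unit) (fun _ _ => 1) ε hε
  refine ⟨C, fun P hP => ?_⟩
  obtain ⟨K, hK0, hK⟩ := hC P hP
  refine ⟨K, fun D hD f hf => ?_⟩
  have h := hK (fun _ => D) (fun _ => hD) (fun _ m => ((f m : ℝ) : ℂ)) (fun _ => 0) (fun _ m => by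
    rw [Complex.norm_real, Real.norm_eq_abs, abs_of_nonneg (hf m).1]
    exact (hf m).2)
  refine le_of_eq_of_le (Finset.sum_congr rfl fun p _ => ?_) h
  congr 1
  have hL : ∀ (j : Unit) (n : ℤ), LL (fun (_ : Unit) (_ : Unit) => (1 : ℤ)) j (fun _ => n) = n := by
    intro j n
    unfold LL
    simp
  rw [Pool.Agent.N565.A.EE_unit, Pool.Agent.N565.A.EE_unit]
  simp only [hL, Finset.univ_unique, Finset.prod_singleton, zero_add]
  have e1 : ∀ (N : ℕ) (u : ℤ → ℝ), (av N fun n => ((u n : ℝ) : ℂ)) = ((avr N u : ℝ) : ℂ) := by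
    intro N u
    unfold av avr
    push_cast
    rfl
  rw [e1 D f, e1 (D / p) (fun n => f ((p : ℤ) * n)), ← Complex.ofReal_sub, Complex.norm_real,
    Real.norm_eq_abs, abs_sub_comm]

theorem dil2 : S_DIL2 := by
  classical
  intro ι _ _ a b _ ε hε
  obtain ⟨C, hC⟩ := Pool.Agent.N565.A.gen (J := ι) (Y := Unit) (Z := Unit) (fun i _ => a i)
    (fun i _ => b i) ε hε
  refine ⟨C, fun P hP => ?_⟩
  obtain ⟨K, hK0, hK⟩ := hC P hP
  refine ⟨K, fun D x hD hx F hF => ?_⟩
  have h := hK (fun _ => x) (fun _ => D) (fun _ => hx) (fun _ => hD) F hF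
  refine le_of_eq_of_le (Finset.sum_congr rfl fun p _ => ?_) h
  congr 1
  rw [ER_unit]
  congr 1
  funext d
  have hL : ∀ (e : ι → ℤ) (j : ι) (n : ℤ), LL (fun (i : ι) (_ : Unit) => e i) j (fun _ => n)
      = e j * n := by
    intro e j n
    unfold LL
    simp
  rw [Pool.Agent.N565.A.EE_unit, Pool.Agent.N565.A.EE_unit]
  simp only [hL]
  unfold cc
  congr 3
  · congr 1
    funext n
    refine Finset.prod_congr rfl fun i _ => ?_
    congr 1
    ring

end Pool.Agent.N781.S
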