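import Mathlib
import Pool.Agent.N781.S.Main

/-! Final forms of the structure theorem. -/

namespace Pool.Agent.N781.S

open Finset Pool.Agent.N675 Pool.Agent.N781.FV Pool.Agent.N781.A

lemma idx_nonneg (Q D : ℕ) (d : ℤ) (hd : 1 ≤ d) : 0 ≤ (d - 1) * Q / D := by
  apply Int.ediv_nonneg
  · exact mul_nonneg (by omega) (Int.natCast_nonneg _)
  · exact Int.natCast_nonneg _

lemma idx_le (Q D : ℕ) (hD : 0 < D) (d : ℤ) (hd : d ≤ D) : (d - 1) * Q / D ≤ Q := by
  have hD' : (0 : ℤ) < D := by exact_mod_cast hD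
  have h1 : (d - 1) * Q ≤ D * Q := mul_le_mul_of_nonneg_right (by omega) (Int.natCast_nonneg _)
  calc (d - 1) * Q / D ≤ (D * Q) / D := Int.ediv_le_ediv hD' h1
    _ = Q := Int.mul_ediv_cancel_left _ hD'.ne'

lemma idx_mono (Q D : ℕ) (hD : 0 < D) {d e : ℤ} (h : d ≤ e) : (d - 1) * Q / D ≤ (e - 1) * Q / D := by
  have hD' : (0 : ℤ) < D := by exact_mod_cast hD
  exact Int.ediv_le_ediv hD' (mul_le_mul_of_nonneg_right (by omega) (Int.natCast_nonneg _))

/-- the number of changes of the interval -/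
lemma idx_sum (Q D t : ℕ) (hD : 0 < D) (ht : t ≤ D) :
    ∑ d ∈ Icc (1 : ℤ) (D - t), (((d + t - 1) * Q / D : ℤ) - ((d - 1) * Q / D : ℤ)) ≤ t * Q := by
  set f : ℤ → ℤ := fun d => (d - 1) * Q / D with hf
  have h1 : ∑ d ∈ Icc (1 : ℤ) (D - t), f (d + t) = ∑ d ∈ Icc (1 + t : ℤ) D, f d := by
    refine Finset.sum_bij' (fun d _ => d + t) (fun d _ => d - t) ?_ ?_ ?_ ?_ ?_
    · intro d hd
      rw [Finset.mem_Icc] at hd ⊢
      omega
    · intro d hd
      rw [Finset.mem_Icc] at hd ⊢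
      omega
    · intro d _
      ring
    · intro d _
      ring
    · intro d _
      rfl
  have h2 : ∑ d ∈ Icc (1 + t : ℤ) D, f d ≤ ∑ d ∈ Icc (1 : ℤ) D, f d := by
    refine Finset.sum_le_sum_of_subset_of_nonneg (Finset.Icc_subset_Icc_left (by omega)) ?_
    intro d hd _
    rw [Finset.mem_Icc] at hd
    exact idx_nonneg Q D d hd.1
  have h3 : ∑ d ∈ Icc (1 : ℤ) D, f d
      = ∑ d ∈ Icc (1 : ℤ) (D - t), f d + ∑ d ∈ Icc (D - t + 1 : ℤ) D, f d := by
    rw [← Finset.sum_union]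
    · congr 1
      ext d
      simp only [Finset.mem_Icc, Finset.mem_union]
      omega
    · rw [Finset.disjoint_left]
      intro d h4 h5
      rw [Finset.mem_Icc] at h4 h5
      omega
  have h4 : ∑ d ∈ Icc (D - t + 1 : ℤ) D, f d ≤ t * Q := by
    calc _ ≤ ∑ _d ∈ Icc (D - t + 1 : ℤ) D, (Q : ℤ) := Finset.sum_le_sum fun d hd => by
          rw [Finset.mem_Icc] at hd
          exact idx_le Q D hD d hd.2
      _ = t * Q := by
          rw [Finset.sum_const, Int.card_Icc, nsmul_eq_mul]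
          congr 1
          have : ((D : ℤ) + 1 - (D - t + 1)).toNat = t := by omega
          rw [this]
  rw [Finset.sum_sub_distrib]
  have h5 : ∑ d ∈ Icc (1 : ℤ) (D - t), (d + t - 1) * Q / D = ∑ d ∈ Icc (1 : ℤ) (D - t), f (d + t) :=
    rfl
  rw [h5, h1]
  have h6 : ∑ d ∈ Icc (1 : ℤ) (D - t), (d - 1) * Q / D = ∑ d ∈ Icc (1 : ℤ) (D - t), f d := rfl
  rw [h6]
  linarith

lemma St_shift (Q D : ℕ) (hQ : 0 < Q) (hD : 0 < D) (c : ℤ → ℂ) (hSt : ∀ d, ‖St Q D c d‖ ≤ 1)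
    (h : ℕ) (hh : Q * h ≤ D) :
    ∑ d ∈ Icc (1 : ℤ) (D - (Q * h : ℕ)), ‖St Q D c (d + (Q * h : ℕ)) - St Q D c d‖
      ≤ 2 * ((Q * h : ℕ) * Q) := by
  have h1 : ∀ d ∈ Icc (1 : ℤ) (D - (Q * h : ℕ)), ‖St Q D c (d + (Q * h : ℕ)) - St Q D c d‖
      ≤ 2 * (((((d + (Q * h : ℕ) - 1) * Q / D : ℤ) - ((d - 1) * Q / D : ℤ)) : ℤ) : ℝ) := by
    intro d hd
    rw [Finset.mem_Icc] at hd
    have hm := idx_mono Q D hD (d := d) (e := d + (Q * h : ℕ)) (by omega)
    by_cases he : (d + (Q * h : ℕ) - 1) * Q / D = (d - 1) * Q / D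
    · have e1 : ky Q D (d + (Q * h : ℕ)) = ky Q D d := by
        unfold ky
        rw [he]
        congr 1
        push_cast
        exact Int.add_mul_emod_self_left d Q h
      have e2 : St Q D c (d + (Q * h : ℕ)) = St Q D c d := by
        unfold St
        rw [if_pos ⟨by omega, by omega⟩, if_pos ⟨hd.1, by omega⟩]
        simp only [e1]
      rw [e2, sub_self, norm_zero, he, sub_self]
      simp
    · have e1 : (1 : ℤ) ≤ (d + (Q * h : ℕ) - 1) * Q / D - (d - 1) * Q / D := by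
        have : (d - 1) * Q / D ≠ (d + (Q * h : ℕ) - 1) * Q / D := fun h => he h.symm
        omega
      have e2 : (1 : ℝ) ≤ (((((d + (Q * h : ℕ) - 1) * Q / D : ℤ) - ((d - 1) * Q / D : ℤ)) : ℤ) : ℝ) := by
        exact_mod_cast e1
      have e3 := norm_sub_le (St Q D c (d + (Q * h : ℕ))) (St Q D c d)
      have e4 := hSt (d + (Q * h : ℕ))
      have e5 := hSt d
      linarith
  refine (Finset.sum_le_sum h1).trans ?_
  rw [← Finset.mul_sum]
  have h2 := idx_sum Q D (Q * h) hD hh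
  have h3 : ((∑ d ∈ Icc (1 : ℤ) (D - (Q * h : ℕ)), (((d + (Q * h : ℕ) - 1) * Q / D : ℤ)
      - ((d - 1) * Q / D : ℤ)) : ℤ) : ℝ) ≤ (((Q * h : ℕ) : ℤ) * (Q : ℤ) : ℤ) := by
    exact_mod_cast h2
  push_cast at h3 ⊢
  linarith

/-- the sums over the cells -/
noncomputable def cm (Q D : ℕ) (c : ℤ → ℂ) (d : ℤ) : ℂ :=
  (∑ e ∈ (Icc (1 : ℤ) D).filter (fun e => (e - 1) * Q / D = (d - 1) * Q / D ∧ e % Q = d % Q), c e) /
    ((Icc (1 : ℤ) D).filter (fun e => (e - 1) * Q / D = (d - 1) * Q / D ∧ e % Q = d % Q)).card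

lemma cm_eq (Q D : ℕ) (c c' : ℤ → ℂ) (X : ℂ) (h : ∀ d, c' d = c d * X) (d : ℤ) (h1 : 1 ≤ d)
    (h2 : d ≤ D) : cm Q D c' d = St Q D c d * X := by
  have e : (Icc (1 : ℤ) D).filter (fun e => (e - 1) * Q / D = (d - 1) * Q / D ∧ e % Q = d % Q)
      = (Icc (1 : ℤ) D).filter (fun e => ky Q D e = ky Q D d) := by
    refine Finset.filter_congr fun e _ => ?_
    unfold ky
    rw [Prod.mk.injEq]
  unfold cm St
  rw [if_pos ⟨h1, h2⟩, e, div_mul_eq_mul_div, Finset.sum_mul]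
  congr 1
  exact Finset.sum_congr rfl fun e _ => h e

/-- The structure theorem for multiplicative functions. -/
theorem str_final (hS : S_STR) (hCE : S_CE) (R k : ℕ) (a b : Fin k → ℤ) (hk : 0 < k)
    (ha : ∀ i, a i ≠ 0) (ε : ℝ) (hε : 0 < ε) :
    ∃ (Q : ℕ) (δ : ℝ) (K : ℕ), 0 < Q ∧ 0 < δ ∧ ∀ D x : ℕ, K ≤ D → D ≤ R * x →
      ∀ f : Fin k → ℕ → ℂ, (∀ i, IsMult (f i)) →
      ∑ d ∈ Icc (1 : ℤ) D, ‖cs a b f x d - cm Q D (cs a b f x) d‖ ≤ ε * (D * x) ∧
      ∀ h : ℕ, ((Q * h : ℕ) : ℝ) ≤ δ * D →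
        ∑ d ∈ Icc (1 : ℤ) D, ‖cs a b f x (d + (Q * h : ℕ)) - cs a b f x d‖ ≤ ε * (D * x) := by
  obtain ⟨i₀, K, hK⟩ := hS R k a b hk ha ((ε / 4) ^ 2) (by positivity)
  set Q := i₀.factorial with hQ
  have hQ0 : 0 < Q := Nat.factorial_pos _
  have hQR : (1 : ℝ) ≤ Q := by exact_mod_cast hQ0
  set δ : ℝ := min 1 (ε / (8 * Q)) with hδ
  have hδ0 : 0 < δ := lt_min one_pos (by positivity)
  have hδ1 : δ ≤ 1 := min_le_left _ _
  have hδ2 : δ ≤ ε / (8 * Q) := min_le_right _ _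
  refine ⟨Q, δ, K + 1, hQ0, hδ0, ?_⟩
  intro D x hKD hDx f hf
  have hD0 : 0 < D := by omega
  have hx0 : 0 < x := by
    rcases Nat.eq_zero_or_pos x with h | h
    · subst h
      simp at hDx
      omega
    · exact h
  have hDR : (0 : ℝ) < D := by exact_mod_cast hD0
  have hxR : (0 : ℝ) < x := by exact_mod_cast hx0
  set c := cc a b (fun i m => f i m.natAbs) x with hc
  have hcn : ∀ m, ‖c m‖ ≤ 1 := cc_norm a b _ (fun i m => (hf i).1 _) x
  have hcs : ∀ d, cs a b f x d = c d * x := cs_eq a b f x hx0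
  obtain ⟨hce1, _⟩ := hCE Q D c hQ0 hD0 hcn
  have h1 : avr D (fun d => ‖c d - St Q D c d‖ ^ 2) ≤ (ε / 4) ^ 2 :=
    hK D x (by omega) hDx (fun i m => f i m.natAbs) f (multAt f hf 0)
  have h2 : avr D (fun d => ‖c d - St Q D c d‖) ≤ ε / 4 := by
    have h3 := N344.A.sq_avr_le D (fun d => ‖c d - St Q D c d‖)
    exact abs_le_of_sq_le_sq' (h3.trans h1) (by positivity) |>.2
  have h3 : ∑ d ∈ Icc (1 : ℤ) D, ‖c d - St Q D c d‖ ≤ ε / 4 * D := by
    unfold avr at h2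
    rwa [div_le_iff₀ hDR] at h2
  have hprod : ∀ z : ℝ, z * x ≤ ε * (D * x) ↔ z ≤ ε * D := by
    intro z
    rw [← mul_assoc]
    exact mul_le_mul_iff_left₀ hxR
  refine ⟨?_, fun h hh => ?_⟩
  · have e1 : ∑ d ∈ Icc (1 : ℤ) D, ‖cs a b f x d - cm Q D (cs a b f x) d‖
        = (∑ d ∈ Icc (1 : ℤ) D, ‖c d - St Q D c d‖) * x := by
      rw [Finset.sum_mul]
      refine Finset.sum_congr rfl fun d hd => ?_
      rw [Finset.mem_Icc] at hd
      rw [cm_eq Q D c (cs a b f x) x hcs d hd.1 hd.2, hcs, ← sub_mul, norm_mul,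
        Complex.norm_natCast]
    rw [e1, hprod]
    have : 0 < ε * D := by positivity
    linarith
  · set t := Q * h with ht
    have htD : t ≤ D := by
      have : (t : ℝ) ≤ D := hh.trans (mul_le_of_le_one_left hDR.le hδ1)
      exact_mod_cast this
    have e1 : ∑ d ∈ Icc (1 : ℤ) D, ‖cs a b f x (d + t) - cs a b f x d‖
        = (∑ d ∈ Icc (1 : ℤ) D, ‖c (d + t) - c d‖) * x := by
      rw [Finset.sum_mul]
      refine Finset.sum_congr rfl fun d hd => ?_
      rw [hcs, hcs, ← sub_mul, norm_mul, Complex.norm_natCast]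
    rw [e1, hprod]
    have e2 : ∑ d ∈ Icc (1 : ℤ) D, ‖c (d + t) - c d‖
        = ∑ d ∈ Icc (1 : ℤ) (D - t), ‖c (d + t) - c d‖
          + ∑ d ∈ Icc (D - t + 1 : ℤ) D, ‖c (d + t) - c d‖ := by
      rw [← Finset.sum_union]
      · congr 1
        ext d
        simp only [Finset.mem_Icc, Finset.mem_union]
        omega
      · rw [Finset.disjoint_left]
        intro d h4 h5
        rw [Finset.mem_Icc] at h4 h5
        omega
    have e3 : ∑ d ∈ Icc (D - t + 1 : ℤ) D, ‖c (d + t) - c d‖ ≤ 2 * t := by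
      calc _ ≤ ∑ _d ∈ Icc (D - t + 1 : ℤ) D, (2 : ℝ) := Finset.sum_le_sum fun d _ => by
            have := norm_sub_le (c (d + t)) (c d)
            have e4 := hcn (d + t)
            have e5 := hcn d
            linarith
        _ = 2 * t := by
            rw [Finset.sum_const, Int.card_Icc, nsmul_eq_mul]
            have : ((D : ℤ) + 1 - (D - t + 1)).toNat = t := by omega
            rw [this]
            ring
    have e4 : ∑ d ∈ Icc (1 : ℤ) (D - t), ‖c (d + t) - c d‖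
        ≤ ∑ d ∈ Icc (1 : ℤ) (D - t), ‖c (d + t) - St Q D c (d + t)‖
          + ∑ d ∈ Icc (1 : ℤ) (D - t), ‖St Q D c (d + t) - St Q D c d‖
          + ∑ d ∈ Icc (1 : ℤ) (D - t), ‖c d - St Q D c d‖ := by
      rw [← Finset.sum_add_distrib, ← Finset.sum_add_distrib]
      refine Finset.sum_le_sum fun d _ => ?_
      have e5 : c (d + t) - c d = (c (d + t) - St Q D c (d + t))
          + (St Q D c (d + t) - St Q D c d) - (c d - St Q D c d) := by ring
      rw [e5]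
      refine (norm_sub_le _ _).trans ?_
      gcongr
      exact norm_add_le _ _
    have e5 : ∑ d ∈ Icc (1 : ℤ) (D - t), ‖c (d + t) - St Q D c (d + t)‖ ≤ ε / 4 * D := by
      refine le_trans ?_ h3
      have e6 : ∑ d ∈ Icc (1 : ℤ) (D - t), ‖c (d + t) - St Q D c (d + t)‖
          = ∑ d ∈ Icc (1 + t : ℤ) D, ‖c d - St Q D c d‖ := by
        refine Finset.sum_bij' (fun d _ => d + t) (fun d _ => d - t) ?_ ?_ ?_ ?_ ?_
        · intro d hd
          rw [Finset.mem_Icc] at hd ⊢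
          omega
        · intro d hd
          rw [Finset.mem_Icc] at hd ⊢
          omega
        · intro d _
          ring
        · intro d _
          ring
        · intro d _
          rfl
      rw [e6]
      exact Finset.sum_le_sum_of_subset_of_nonneg (Finset.Icc_subset_Icc_left (by omega))
        fun _ _ _ => norm_nonneg _
    have e6 : ∑ d ∈ Icc (1 : ℤ) (D - t), ‖c d - St Q D c d‖ ≤ ε / 4 * D :=
      (Finset.sum_le_sum_of_subset_of_nonneg (Finset.Icc_subset_Icc_right (by omega))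
        fun _ _ _ => norm_nonneg _).trans h3
    have e7 := St_shift Q D hQ0 hD0 c hce1 h (by rw [← ht]; exact htD)
    rw [← ht] at e7
    have e8 : (t : ℝ) * Q ≤ ε / 8 * D := by
      calc (t : ℝ) * Q ≤ (δ * D) * Q := by gcongr
        _ ≤ (ε / (8 * Q) * D) * Q := by gcongr
        _ = ε / 8 * D := by
            field_simp
    have e9 : (t : ℝ) ≤ t * Q := le_mul_of_one_le_right (Nat.cast_nonneg _) hQR
    linarith

end Pool.Agent.N781.S
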