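import Mathlib
import Pool.Agent.N781.S.Fin
import Pool.Agent.N781.S.Dil12
import Pool.Agent.N222.S.DilSSW
import Pool.Agent.N712.S.FAM
import Pool.Agent.N319.S.CE
import Pool.Agent.N319.S.Maj

/-! The structure theorem. -/

namespace Pool.Agent.N781.S

open Finset Pool.Agent.N675 Pool.Agent.N781.FV Pool.Agent.N781.A

theorem eng2A : S_ENG2 := eng2 N814.A.xx N498.A.t_ARI N222.S.dilssw

theorem strA : S_STR :=
  str eng2A N776.A.perm N776.A.mono N776.A.phase Pool.Agent.N362.A.Shape.shape N781.A.U2.xx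
    N319.S.ce N319.S.stmaj N319.S.wsmall dil1 dil2 N712.SF.t_FAM

/-- The structure theorem for the correlations of bounded multiplicative functions along almost all
dilates. -/
theorem structure_theorem (R k : ℕ) (a b : Fin k → ℤ) (hk : 0 < k)
    (ha : ∀ i, a i ≠ 0) (ε : ℝ) (hε : 0 < ε) :
    ∃ (Q : ℕ) (δ : ℝ) (K : ℕ), 0 < Q ∧ 0 < δ ∧ ∀ D x : ℕ, K ≤ D → D ≤ R * x →
      ∀ f : Fin k → ℕ → ℂ, (∀ i, IsMult (f i)) →
      ∑ d ∈ Icc (1 : ℤ) D, ‖cs a b f x d - cm Q D (cs a b f x) d‖ ≤ ε * (D * x) ∧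
      ∀ h : ℕ, ((Q * h : ℕ) : ℝ) ≤ δ * D →
        ∑ d ∈ Icc (1 : ℤ) D, ‖cs a b f x (d + (Q * h : ℕ)) - cs a b f x d‖ ≤ ε * (D * x) :=
  str_final strA N319.S.ce R k a b hk ha ε hε

end Pool.Agent.N781.S
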