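import Mathlib
import Pool.Agent.N781.S.IsoCore
import Pool.Agent.N781.S.Fin

/-! The isotypic form of the structure theorem. -/

namespace Pool.Agent.N781.S

open Finset Pool.Agent.N675 Pool.Agent.N781.FV Pool.Agent.N781.A

/-- the isotypic part of the cell averages -/
noncomputable def sI (M D : ℕ) [NeZero M] (c : ℤ → ℂ) (ψ : DirichletCharacter ℂ M) (u r : ℤ) : ℂ :=
  (∑ a : (ZMod M)ˣ, (starRingEnd ℂ) (ψ (a : ZMod M)) * sf M D c u (((a : ZMod M).val : ℤ) * r)) /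
    (Fintype.card (ZMod M)ˣ)

lemma sf_congr {M D : ℕ} {c : ℤ → ℂ} {u r r' : ℤ} (h : (r : ZMod M) = (r' : ZMod M)) :
    sf M D c u r = sf M D c u r' := by
  have h1 : r % M = r' % M := (ZMod.intCast_eq_intCast_iff' r r' M).mp h
  unfold sf
  rw [h1]

lemma unit_norm {M : ℕ} [NeZero M] (ψ : DirichletCharacter ℂ M) (a : (ZMod M)ˣ) :
    (starRingEnd ℂ) (ψ (a : ZMod M)) * ψ (a : ZMod M) = 1 := by
  have h : ‖ψ (a : ZMod M)‖ = 1 := chi_norm ψ a
  rw [mul_comm, Complex.mul_conj, Complex.normSq_eq_norm_sq, h]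
  norm_num

lemma sI_mul {M D : ℕ} [NeZero M] (c : ℤ → ℂ) (ψ : DirichletCharacter ℂ M) (u r n : ℤ)
    (hn : IsCoprime n (M : ℤ)) : sI M D c ψ u (n * r) = ψ (n : ZMod M) * sI M D c ψ u r := by
  obtain ⟨b, hb⟩ : IsUnit (n : ZMod M) := by
    rw [ZMod.coe_int_isUnit_iff_isCoprime]
    exact hn.symm
  unfold sI
  rw [← hb, mul_div_assoc', Finset.mul_sum]
  congr 1
  refine Fintype.sum_equiv (Equiv.mulRight b) _ _ fun a => ?_
  simp only [Equiv.coe_mulRight, Units.val_mul, map_mul]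
  have e1 : sf M D c u (((a : ZMod M).val : ℤ) * (n * r))
      = sf M D c u ((((a : ZMod M) * (b : ZMod M)).val : ℤ) * r) := by
    apply sf_congr
    push_cast
    rw [ZMod.natCast_zmod_val, ZMod.natCast_zmod_val, ← hb]
    ring
  rw [e1]
  have e2 := unit_norm ψ b
  linear_combination (-(starRingEnd ℂ) (ψ (a : ZMod M)) *
    sf M D c u ((((a : ZMod M) * (b : ZMod M)).val : ℤ) * r)) * e2

lemma sI_per {M D : ℕ} [NeZero M] (c : ℤ → ℂ) (ψ : DirichletCharacter ℂ M) (u r : ℤ) :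
    sI M D c ψ u (r + M) = sI M D c ψ u r := by
  unfold sI
  congr 1
  refine Finset.sum_congr rfl fun a _ => ?_
  congr 1
  apply sf_congr
  push_cast
  simp

lemma St_eq_sf (M D : ℕ) (c : ℤ → ℂ) (d : ℤ) (h1 : 1 ≤ d) (h2 : d ≤ D) :
    St M D c d = sf M D c ((d - 1) * M / D) d := by
  unfold St sf
  rw [if_pos ⟨h1, h2⟩]
  rfl

lemma sI_close {M D : ℕ} [NeZero M] (c : ℤ → ℂ) (ψ : DirichletCharacter ℂ M) (d : ℤ) (h1 : 1 ≤ d)
    (h2 : d ≤ D) :
    ‖St M D c d - sI M D c ψ ((d - 1) * M / D) d‖ ≤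
      (∑ a : (ZMod M)ˣ, ‖Sta M D (a : ZMod M).val c d - ψ (a : ZMod M) * St M D c d‖) /
        (Fintype.card (ZMod M)ˣ) := by
  have hcard : (0 : ℝ) < Fintype.card (ZMod M)ˣ := by exact_mod_cast Fintype.card_pos
  have hcardC : ((Fintype.card (ZMod M)ˣ : ℕ) : ℂ) ≠ 0 := by exact_mod_cast hcard.ne'
  have e : St M D c d - sI M D c ψ ((d - 1) * M / D) d
      = (∑ a : (ZMod M)ˣ, (starRingEnd ℂ) (ψ (a : ZMod M)) *
        (ψ (a : ZMod M) * St M D c d - Sta M D (a : ZMod M).val c d)) /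
        (Fintype.card (ZMod M)ˣ) := by
    unfold sI
    rw [eq_div_iff hcardC, sub_mul, div_mul_cancel₀ _ hcardC]
    have e1 : St M D c d * (Fintype.card (ZMod M)ˣ : ℕ)
        = ∑ a : (ZMod M)ˣ, (starRingEnd ℂ) (ψ (a : ZMod M)) * (ψ (a : ZMod M) * St M D c d) := by
      rw [Finset.sum_congr rfl (g := fun _ => St M D c d) (fun a _ => by
        rw [← mul_assoc, unit_norm, one_mul]), Finset.sum_const, Finset.card_univ, nsmul_eq_mul,
        mul_comm]
    rw [e1, ← Finset.sum_sub_distrib]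
    refine Finset.sum_congr rfl fun a _ => ?_
    unfold Sta
    rw [if_pos ⟨h1, h2⟩]
    ring
  rw [e, norm_div, Complex.norm_natCast]
  refine div_le_div_of_nonneg_right ((norm_sum_le _ _).trans (le_of_eq ?_)) hcard.le
  refine Finset.sum_congr rfl fun a _ => ?_
  rw [norm_mul, RCLike.norm_conj, chi_norm ψ a, one_mul, norm_sub_rev]

lemma sum_le_of_avr (D : ℕ) (hD : 0 < D) (u : ℤ → ℂ) (e : ℝ) (he : 0 ≤ e)
    (h : avr D (fun d => ‖u d‖ ^ 2) ≤ e ^ 2) : ∑ d ∈ Icc (1 : ℤ) D, ‖u d‖ ≤ e * D := by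
  have hDR : (0 : ℝ) < D := by exact_mod_cast hD
  have h3 := N344.A.sq_avr_le D (fun d => ‖u d‖)
  have h2 : avr D (fun d => ‖u d‖) ≤ e := abs_le_of_sq_le_sq' (h3.trans h) he |>.2
  unfold avr at h2
  rwa [div_le_iff₀ hDR] at h2

/-- the passage to the isotypic function -/
lemma iso_sum {M D : ℕ} [NeZero M] (hD : 0 < D) (c : ℤ → ℂ) (ψ : DirichletCharacter ℂ M) (e : ℝ)
    (he : 0 ≤ e) (h1 : avr D (fun d => ‖c d - St M D c d‖ ^ 2) ≤ e ^ 2)
    (h2 : ∀ a : (ZMod M)ˣ, avr D (fun d =>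
      ‖Sta M D (a : ZMod M).val c d - ψ (a : ZMod M) * St M D c d‖ ^ 2) ≤ e ^ 2) :
    ∑ d ∈ Icc (1 : ℤ) D, ‖c d - sI M D c ψ ((d - 1) * M / D) d‖ ≤ 2 * e * D := by
  have hDR : (0 : ℝ) < D := by exact_mod_cast hD
  have hcard : (0 : ℝ) < Fintype.card (ZMod M)ˣ := by exact_mod_cast Fintype.card_pos
  have a1 := sum_le_of_avr D hD (fun d => c d - St M D c d) e he h1
  have a2 : ∑ d ∈ Icc (1 : ℤ) D, ‖St M D c d - sI M D c ψ ((d - 1) * M / D) d‖ ≤ e * D := by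
    calc _ ≤ ∑ d ∈ Icc (1 : ℤ) D, (∑ a : (ZMod M)ˣ,
          ‖Sta M D (a : ZMod M).val c d - ψ (a : ZMod M) * St M D c d‖) /
            (Fintype.card (ZMod M)ˣ) := Finset.sum_le_sum fun d hd => by
          rw [Finset.mem_Icc] at hd
          exact sI_close c ψ d hd.1 hd.2
      _ = (∑ a : (ZMod M)ˣ, ∑ d ∈ Icc (1 : ℤ) D,
          ‖Sta M D (a : ZMod M).val c d - ψ (a : ZMod M) * St M D c d‖) /
            (Fintype.card (ZMod M)ˣ) := by
          rw [← Finset.sum_div, Finset.sum_comm]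
      _ ≤ (∑ _a : (ZMod M)ˣ, e * D) / (Fintype.card (ZMod M)ˣ) := by
          refine div_le_div_of_nonneg_right (Finset.sum_le_sum fun a _ => ?_) hcard.le
          exact sum_le_of_avr D hD _ e he (h2 a)
      _ = e * D := by
          rw [Finset.sum_const, Finset.card_univ, nsmul_eq_mul]
          field_simp
  calc _ ≤ ∑ d ∈ Icc (1 : ℤ) D, (‖c d - St M D c d‖
        + ‖St M D c d - sI M D c ψ ((d - 1) * M / D) d‖) := by
        refine Finset.sum_le_sum fun d _ => ?_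
        have := norm_add_le (c d - St M D c d) (St M D c d - sI M D c ψ ((d - 1) * M / D) d)
        rwa [sub_add_sub_cancel] at this
    _ ≤ 2 * e * D := by
        rw [Finset.sum_add_distrib]
        linarith

/-- **The isotypic structure theorem.** -/
theorem iso_final (hStr : S_STR) (hPair : S_PAIR) (hIdx : S_IDX) (hCmp : S_CMP) (hD1 : S_DIL1)
    (hD2 : S_DIL2) (hCE : S_CE) (R k : ℕ) (a b : Fin k → ℤ) (hk : 0 < k)
    (ha : ∀ i, a i ≠ 0) (ε : ℝ) (hε : 0 < ε) :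
    ∃ Q K : ℕ, 0 < Q ∧ ∀ D x : ℕ, K ≤ D → D ≤ R * x →
      ∀ f : Fin k → ℕ → ℂ, (∀ i, IsMult (f i)) →
      ∃ (χ : DirichletCharacter ℂ Q) (s : ℤ → ℤ → ℂ),
        (∀ u r n : ℤ, IsCoprime n (Q : ℤ) → s u (n * r) = χ (n : ZMod Q) * s u r) ∧
        (∀ u r : ℤ, s u (r + Q) = s u r) ∧
        ∑ d ∈ Icc (1 : ℤ) D, ‖cs a b f x d - x * s ((d - 1) * Q / D) d‖ ≤ ε * (D * x) ∧
        ((∀ p : ℕ, p.Prime → ∏ i, f i p = 1) → χ = 1) := by
  classical
  obtain ⟨ε₁, η, hε₁, hη, hcore⟩ := iso_core hPair hIdx hCmp hD1 hD2 (Fin k) a b ha ((ε / 4) ^ 2)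
    (by positivity)
  obtain ⟨i₀, K1, hK1⟩ := hStr R k a b hk ha (min ε₁ ((ε / 4) ^ 2)) (lt_min hε₁ (by positivity))
  obtain ⟨Q₀, hQ₀⟩ := thmA_R R hk a b ha ((ε / 2) ^ 2) (by positivity) 0
  obtain ⟨U, Mf, hUM⟩ := hQ₀ η hη
  set M := (i₀ + Q₀).factorial with hM
  have hM0 : 0 < M := Nat.factorial_pos _
  have : NeZero M := ⟨hM0.ne'⟩
  have hex : ∀ (U Mf : ℝ) (e : (ZMod M)ˣ), ∃ T K : ℕ, ∀ D x : ℕ, K ≤ D → K ≤ x →
    ∀ (F : Fin k → ℤ → ℂ) (g : Fin k → ℕ → ℂ), MultAt F g 0 T →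
    ∀ (ψ : DirichletCharacter ℂ M) (v : ℝ), |v| ≤ U →
      ∑ p ∈ (Finset.range (T + 1)).filter (fun p : ℕ => p.Prime ∧ ¬ p ∣ M ∧
        η < ‖∏ i, g i p - ψ (p : ZMod M)
          * Complex.exp (Complex.I * ((v * Real.log p : ℝ) : ℂ))‖), 1 / (p : ℝ) ≤ Mf →
      avr D (fun d => ‖cc a b F x d - St M D (cc a b F x) d‖ ^ 2) ≤ ε₁ →
      avr D (fun d => ‖Sta M D (e : ZMod M).val (cc a b F x) d
        - ψ (e : ZMod M) * St M D (cc a b F x) d‖ ^ 2) ≤ (ε / 4) ^ 2 := by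
    intro U Mf e
    obtain ⟨T, K, h⟩ := hcore M (e : ZMod M).val hM0 (ZMod.val_coe_unit_coprime e) U Mf
    refine ⟨T, K, fun D x hD hx F g hF ψ v hv h1 h2 => ?_⟩
    have := h D x hD hx F g hF ψ v hv h1 h2
    rwa [ZMod.natCast_zmod_val] at this
  choose TT KK hTK using hex
  obtain ⟨T3, K3, hT3⟩ := hUM (∑ e, TT U Mf e)
  refine ⟨M, (K1 + ∑ e, KK U Mf e + ∑ e, KK 0 0 e + K3 + 1) * (R + 1), hM0, ?_⟩
  intro D x hD' hDx f hf
  set K0 := K1 + ∑ e, KK U Mf e + ∑ e, KK 0 0 e + K3 + 1 with hK0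
  have hD : K0 ≤ D := le_trans (Nat.le_mul_of_pos_right _ (Nat.succ_pos R)) hD'
  have hx : K0 ≤ x := by
    by_contra hcon
    push Not at hcon
    have h1 : K0 * (R + 1) ≤ R * x := hD'.trans hDx
    have h2 : R * x ≤ R * K0 := Nat.mul_le_mul_left R hcon.le
    have h3 : K0 * (R + 1) = R * K0 + K0 := by ring
    omega
  have hD0 : 0 < D := by omega
  have hx0 : 0 < x := by omega
  have hDR : (0 : ℝ) < D := by exact_mod_cast hD0
  have hxR : (0 : ℝ) < x := by exact_mod_cast hx0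
  set c := cc a b (fun i m => f i m.natAbs) x with hc
  have hcn : ∀ m, ‖c m‖ ≤ 1 := cc_norm a b _ (fun i m => (hf i).1 _) x
  have hcs : ∀ d, cs a b f x d = c d * x := cs_eq a b f x hx0
  have hst : avr D (fun d => ‖c d - St M D c d‖ ^ 2) ≤ min ε₁ ((ε / 4) ^ 2) := by
    refine le_trans ?_ (hK1 D x (by omega) hDx (fun i m => f i m.natAbs) f (multAt f hf 0))
    exact ((hCE i₀.factorial D c (Nat.factorial_pos _) hD0 hcn).2.2.2.2 M hM0
      (Nat.factorial_dvd_factorial (Nat.le_add_right _ _))).2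
  have hst1 := hst.trans (min_le_left _ _)
  have hst2 := hst.trans (min_le_right _ _)
  -- the final estimate
  have hend : ∀ ψ : DirichletCharacter ℂ M, (∀ e : (ZMod M)ˣ, avr D (fun d =>
      ‖Sta M D (e : ZMod M).val c d - ψ (e : ZMod M) * St M D c d‖ ^ 2) ≤ (ε / 4) ^ 2) →
      ∑ d ∈ Icc (1 : ℤ) D, ‖cs a b f x d - x * sI M D c ψ ((d - 1) * M / D) d‖ ≤ ε * (D * x) := by
    intro ψ h
    have h1 := iso_sum hD0 c ψ (ε / 4) (by positivity) hst2 h
    have h2 : ∑ d ∈ Icc (1 : ℤ) D, ‖cs a b f x d - x * sI M D c ψ ((d - 1) * M / D) d‖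
        = (∑ d ∈ Icc (1 : ℤ) D, ‖c d - sI M D c ψ ((d - 1) * M / D) d‖) * x := by
      rw [Finset.sum_mul]
      refine Finset.sum_congr rfl fun d _ => ?_
      rw [hcs, mul_comm (x : ℂ), ← sub_mul, norm_mul, Complex.norm_natCast]
    rw [h2, ← mul_assoc]
    refine mul_le_mul_of_nonneg_right ?_ hxR.le
    have : 0 < ε * D := by positivity
    linarith
  by_cases hone : ∀ p : ℕ, p.Prime → ∏ i, f i p = 1
  · refine ⟨1, sI M D c 1, fun u r n hn => sI_mul c 1 u r n hn, sI_per c 1, hend 1 fun e => ?_,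
      fun _ => rfl⟩
    have hKe : KK 0 0 e ≤ ∑ e, KK 0 0 e :=
      Finset.single_le_sum (f := fun e => KK 0 0 e) (fun _ _ => Nat.zero_le _) (Finset.mem_univ e)
    refine hTK 0 0 e D x (by omega) (by omega) (fun i m => f i m.natAbs) f (multAt f hf 0 _) 1 0
      (by simp) ?_ hst1
    rw [Finset.sum_eq_zero]
    intro p hp
    exfalso
    rw [Finset.mem_filter] at hp
    obtain ⟨_, hp1, hp2, hp3⟩ := hp
    rw [hone p hp1] at hp3
    have hu : IsUnit (p : ZMod M) :=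
      (ZMod.isUnit_iff_coprime _ _).mpr ((Nat.Prime.coprime_iff_not_dvd hp1).mpr hp2)
    rw [MulChar.one_apply hu] at hp3
    simp at hp3
    linarith
  · by_cases hsmall : avr D (fun d => ‖c d‖ ^ 2) ≤ (ε / 2) ^ 2
    · refine ⟨1, fun _ _ => 0, fun u r n _ => by simp, fun _ _ => rfl, ?_,
        fun h => absurd h hone⟩
      have h1 := sum_le_of_avr D hD0 c (ε / 2) (by positivity) hsmall
      have h2 : ∑ d ∈ Icc (1 : ℤ) D, ‖cs a b f x d - x * 0‖
          = (∑ d ∈ Icc (1 : ℤ) D, ‖c d‖) * x := by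
        rw [Finset.sum_mul]
        refine Finset.sum_congr rfl fun d _ => ?_
        rw [hcs, mul_zero, sub_zero, norm_mul, Complex.norm_natCast]
      rw [h2, ← mul_assoc]
      refine mul_le_mul_of_nonneg_right ?_ hxR.le
      have : 0 < ε * D := by positivity
      linarith
    · push Not at hsmall
      obtain ⟨q, hq1, hqQ, χ', v, hv, hfar⟩ := hT3 D x (by omega) hDx (fun i m => f i m.natAbs) f
        (multAt f hf 0 _) hsmall
      have hqM : q ∣ M := Nat.dvd_factorial hq1 (by omega)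
      set χ'' : DirichletCharacter ℂ M := DirichletCharacter.changeLevel hqM χ' with hχ''
      refine ⟨χ''⁻¹, sI M D c χ''⁻¹, fun u r n hn => sI_mul c _ u r n hn, sI_per c _,
        hend _ fun e => ?_, fun h => absurd h hone⟩
      have hKe : KK U Mf e ≤ ∑ e, KK U Mf e :=
        Finset.single_le_sum (f := fun e => KK U Mf e) (fun _ _ => Nat.zero_le _)
          (Finset.mem_univ e)
      have hTe : TT U Mf e ≤ ∑ e, TT U Mf e :=
        Finset.single_le_sum (f := fun e => TT U Mf e) (fun _ _ => Nat.zero_le _)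
          (Finset.mem_univ e)
      refine hTK U Mf e D x (by omega) (by omega) (fun i m => f i m.natAbs) f (multAt f hf 0 _)
        χ''⁻¹ v hv (le_trans ?_ hfar) hst1
      unfold far
      refine Finset.sum_le_sum_of_subset_of_nonneg ?_ fun _ _ _ => by positivity
      intro p hp
      rw [Finset.mem_filter, Finset.mem_range] at hp
      obtain ⟨hpT, hp1, hp2, hp3⟩ := hp
      rw [Finset.mem_filter, Finset.mem_range]
      refine ⟨by omega, hp1, ?_⟩
      have hcop : p.Coprime M := (Nat.Prime.coprime_iff_not_dvd hp1).mpr hp2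
      have e1 : χ'' (p : ZMod M) = χ' (p : ZMod q) := by
        have e2 := DirichletCharacter.changeLevel_eq_cast_of_dvd' χ' hqM
          (a := (p : ℤ)) (Nat.isCoprime_iff_coprime.mpr hcop)
        rw [Int.cast_natCast, Int.cast_natCast] at e2
        exact e2
      rw [← e1, tw_eq hM0 χ'' hp1 hcop, ← exp_eq_cpow hp1]
      exact hp3

end Pool.Agent.N781.S
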