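import Mathlib
import Pool.Agent.N781.S.All
import Pool.Agent.N781.S.IsoFin
import Pool.Agent.N9.S.Pair
import Pool.Agent.N97.CH.Idx
import Pool.Agent.N97.CH.Cmp

/-! The isotypic structure theorem. -/

namespace Pool.Agent.N781.S

open Finset Pool.Agent.N675 Pool.Agent.N781.FV Pool.Agent.N781.A

/-- The isotypic structure theorem. -/
theorem isotypic_structure (R k : ℕ) (a b : Fin k → ℤ) (hk : 0 < k)
    (ha : ∀ i, a i ≠ 0) (ε : ℝ) (hε : 0 < ε) :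
    ∃ Q K : ℕ, 0 < Q ∧ ∀ D x : ℕ, K ≤ D → D ≤ R * x →
      ∀ f : Fin k → ℕ → ℂ, (∀ i, IsMult (f i)) →
      ∃ (χ : DirichletCharacter ℂ Q) (s : ℤ → ℤ → ℂ),
        (∀ u r n : ℤ, IsCoprime n (Q : ℤ) → s u (n * r) = χ (n : ZMod Q) * s u r) ∧
        (∀ u r : ℤ, s u (r + Q) = s u r) ∧
        ∑ d ∈ Icc (1 : ℤ) D, ‖cs a b f x d - x * s ((d - 1) * Q / D) d‖ ≤ ε * (D * x) ∧
        ((∀ p : ℕ, p.Prime → ∏ i, f i p = 1) → χ = 1) :=
  iso_final strA Pool.Agent.N9.S.Pair.pair Pool.Agent.N97.CH.idx Pool.Agent.N97.CH.cmp dil1 dil2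
    N319.S.ce R k a b hk ha ε hε

end Pool.Agent.N781.S
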